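import Pool.Agent.LockedTree.Motion

set_option autoImplicit false

/-!
# Trees from parent functions and the final assembly
-/

namespace Pool.Agent.LockedTree

open Filter Topology

/-- the tree on `{0,…,n}` in which vertex `j+1` is joined to `par j` -/
def treeG (par : ℕ → ℕ) (hpar : ∀ j, par j ≤ j) (n : ℕ) : SimpleGraph (Fin (n + 1)) where
  Adj a b := (∃ j, a.val = j + 1 ∧ b.val = par j) ∨ (∃ j, b.val = j + 1 ∧ a.val = par j)
  symm := ⟨fun a b h => h.symm⟩
  loopless := ⟨fun a h => by
    rcases h with ⟨j, h1, h2⟩ | ⟨j, h1, h2⟩ <;> have := hpar j <;> omega⟩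

lemma treeG_isTree (par : ℕ → ℕ) (hpar : ∀ j, par j ≤ j) (n : ℕ) :
    (treeG par hpar n).IsTree := by
  classical
  have hconn : (treeG par hpar n).Connected := by
    have hreach : ∀ k (hk : k < n + 1), (treeG par hpar n).Reachable ⟨0, by omega⟩ ⟨k, hk⟩ := by
      intro k
      induction k using Nat.strong_induction_on with
      | _ k ih =>
        intro hk
        rcases Nat.eq_zero_or_pos k with h0 | h0
        · subst h0; exact SimpleGraph.Reachable.refl _
        · have hp := hpar (k - 1)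
          have h1 := ih (par (k - 1)) (by omega) (by omega)
          refine h1.trans (SimpleGraph.Adj.reachable ?_)
          right
          exact ⟨k - 1, by simp; omega, rfl⟩
    have hne : Nonempty (Fin (n + 1)) := ⟨0⟩
    refine ⟨fun a b => ?_⟩
    exact (hreach a.val a.isLt).symm.trans (hreach b.val b.isLt)
  rw [SimpleGraph.isTree_iff_connected_and_card]
  refine ⟨hconn, ?_⟩
  -- count the edges
  have hparlt : ∀ j : Fin n, par j.val < n + 1 := fun j => by
    have := hpar j.val
    omega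
  let φ : Fin n → (treeG par hpar n).edgeSet := fun j =>
    ⟨s(⟨j.val + 1, by omega⟩, ⟨par j.val, hparlt j⟩), by
      rw [SimpleGraph.mem_edgeSet]
      left
      exact ⟨j.val, rfl, rfl⟩⟩
  have hφ : Function.Bijective φ := by
    constructor
    · intro i j h
      have h1 : s((⟨i.val + 1, by omega⟩ : Fin (n + 1)), ⟨par i.val, hparlt i⟩) =
        s(⟨j.val + 1, by omega⟩, ⟨par j.val, hparlt j⟩) := congrArg Subtype.val h
      rw [Sym2.eq_iff] at h1
      have hi := hpar i.val
      have hj := hpar j.val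
      rcases h1 with ⟨h2, h3⟩ | ⟨h2, h3⟩
      · have := congrArg Fin.val h2
        simp only at this
        exact Fin.ext (by omega)
      · have e1 := congrArg Fin.val h2
        have e2 := congrArg Fin.val h3
        simp only at e1 e2
        exfalso
        omega
    · rintro ⟨e, he⟩
      induction e using Sym2.ind with
      | _ a b =>
        rw [SimpleGraph.mem_edgeSet] at he
        rcases he with ⟨j, h1, h2⟩ | ⟨j, h1, h2⟩
        · have hj : j < n := by have := a.isLt; omega
          refine ⟨⟨j, hj⟩, Subtype.ext ?_⟩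
          change s((⟨j + 1, _⟩ : Fin (n + 1)), ⟨par j, _⟩) = s(a, b)
          rw [Sym2.eq_iff]
          left
          exact ⟨Fin.ext h1.symm, Fin.ext h2.symm⟩
        · have hj : j < n := by have := b.isLt; omega
          refine ⟨⟨j, hj⟩, Subtype.ext ?_⟩
          change s((⟨j + 1, _⟩ : Fin (n + 1)), ⟨par j, _⟩) = s(a, b)
          rw [Sym2.eq_iff]
          right
          exact ⟨Fin.ext h1.symm, Fin.ext h2.symm⟩
  have hcard : Nat.card (treeG par hpar n).edgeSet = n := by
    rw [← Nat.card_congr (Equiv.ofBijective φ hφ)]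
    simp
  rw [hcard]
  simp

/-- the sequence of letters: the standard basis followed by a dense sequence of unit vectors -/
lemma exists_letters : ∃ e : ℕ → E3, (∀ n, ‖e n‖ = 1) ∧
    (∀ u : E3, ‖u‖ = 1 → ∀ ε > 0, ∃ n, ‖e n - u‖ < ε) ∧
    e 0 = EuclideanSpace.single 0 1 ∧ e 1 = EuclideanSpace.single 1 1 ∧
      e 2 = EuclideanSpace.single 2 1 := by
  have hne : Nonempty (Metric.sphere (0 : E3) 1) :=
    ⟨⟨EuclideanSpace.single 0 1, by simp⟩⟩
  let d := TopologicalSpace.denseSeq (Metric.sphere (0 : E3) 1)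
  refine ⟨fun n => match n with
    | 0 => EuclideanSpace.single 0 1
    | 1 => EuclideanSpace.single 1 1
    | 2 => EuclideanSpace.single 2 1
    | k + 3 => (d k : E3), ?_, ?_, rfl, rfl, rfl⟩
  · intro n
    match n with
    | 0 => simp
    | 1 => simp
    | 2 => simp
    | k + 3 => exact mem_sphere_zero_iff_norm.1 (d k).2
  · intro u hu ε hε
    have hu' : u ∈ Metric.sphere (0 : E3) 1 := mem_sphere_zero_iff_norm.2 hu
    obtain ⟨k, hk⟩ := (TopologicalSpace.denseRange_denseSeq
      (Metric.sphere (0 : E3) 1)).exists_dist_lt ⟨u, hu'⟩ hε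
    refine ⟨k + 3, ?_⟩
    rw [dist_comm, Subtype.dist_eq, dist_eq_norm] at hk
    exact hk

lemma exists_unit_normal (D : Submodule ℝ E3) (hD : Module.finrank ℝ D ≤ 2) :
    ∃ ν : E3, ‖ν‖ = 1 ∧ ∀ x ∈ D, inner ℝ ν x = 0 := by
  have hne : Dᗮ ≠ ⊥ := by
    intro hbot
    have hWtop : D = ⊤ := by
      rwa [Submodule.orthogonal_eq_bot_iff] at hbot
    rw [hWtop, finrank_top, finrank_euclideanSpace, Fintype.card_fin] at hD
    omega
  obtain ⟨m, hmW, hm0⟩ := Submodule.exists_mem_ne_zero_of_ne_bot hne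
  refine ⟨nrm m, norm_nrm hm0, fun x hx => ?_⟩
  unfold nrm
  rw [inner_smul_left]
  have : inner ℝ m x = 0 := by
    rw [real_inner_comm]
    exact (Submodule.mem_orthogonal _ _).1 hmW x hx
  rw [this, mul_zero]

/-- The main statement: it is not true that every simple configuration of every unit tree can be
flattened. -/
theorem not_all_flattenable :
    ¬ (∀ (V : Type) [Fintype V] (G : SimpleGraph V), G.IsTree →
      ∀ p : V → EuclideanSpace ℝ (Fin 3),
        (∀ u v, G.Adj u v → dist (p u) (p v) = 1) →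
        Function.Injective p →
        (∀ a b c d, G.Adj a b → G.Adj c d → s(a, b) ≠ s(c, d) →
          ∀ x, x ∈ segment ℝ (p a) (p b) → x ∈ segment ℝ (p c) (p d) →
            ∃ w, (w = a ∨ w = b) ∧ (w = c ∨ w = d) ∧ x = p w) →
        ∃ f : ℝ → V → EuclideanSpace ℝ (Fin 3),
          ContinuousOn f (Set.Icc 0 1) ∧ f 0 = p ∧
          (∀ t ∈ Set.Icc (0:ℝ) 1,
            (∀ u v, G.Adj u v → dist (f t u) (f t v) = 1) ∧
            Function.Injective (f t) ∧
            (∀ a b c d, G.Adj a b → G.Adj c d → s(a, b) ≠ s(c, d) →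
              ∀ x, x ∈ segment ℝ (f t a) (f t b) → x ∈ segment ℝ (f t c) (f t d) →
                ∃ w, (w = a ∨ w = b) ∧ (w = c ∨ w = d) ∧ x = f t w)) ∧
          ∃ A : AffineSubspace ℝ (EuclideanSpace ℝ (Fin 3)),
            Module.finrank ℝ A.direction ≤ 2 ∧ ∀ v, f 1 v ∈ A) := by
  intro H
  obtain ⟨e, he, hdense, he0, he1, he2⟩ := exists_letters
  set η : ℕ → ℝ := fun N => 1 / (100 * ((N : ℝ) + 1)) with hη
  have hηlim : Tendsto η atTop (𝓝 0) := by
    have h1 := tendsto_one_div_add_atTop_nhds_zero_nat (𝕜 := ℝ)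
    have h2 := h1.const_mul (1 / 100)
    rw [mul_zero] at h2
    refine h2.congr fun N => ?_
    rw [hη]
    field_simp
  refine no_approx (e := e) (η := η) hdense hηlim ?_
  intro N
  set m := N + 3 with hm
  set n := m * cnt m 3 with hn
  have hmpos : 0 < m := by omega
  set par : ℕ → ℕ := fun j => j / m with hpardef
  have hpar : ∀ j, par j ≤ j := fun j => Nat.div_le_self _ _
  have hηpos : 0 < η N := by rw [hη]; positivity
  have hη100 : η N ≤ 1 / 100 := by
    rw [hη]
    simp only
    rw [div_le_div_iff₀ (by positivity) (by norm_num)]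
    have : (0 : ℝ) ≤ N := Nat.cast_nonneg N
    linarith
  obtain ⟨p, hp⟩ := exists_good par hpar (fun j => e (j % m)) (fun j => he _) (η N) hηpos n
  -- facts on indices
  have hcnt4 : cnt m 4 = n + 1 := by
    rw [hn, show (4 : ℕ) = 3 + 1 from rfl]
    simp only [cnt]
    omega
  have hidx : ∀ i < cnt m 3, ∀ l < m, m * i + l < n := by
    intro i hi l hl
    have : m * (i + 1) ≤ m * cnt m 3 := Nat.mul_le_mul_left m hi
    rw [Nat.mul_add] at this
    omega
  have hchild : ∀ i l, child m i l = (m * i + l) + 1 := by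
    intro i l; unfold child; omega
  have hdiv : ∀ i, ∀ l < m, (m * i + l) / m = i := by
    intro i l hl
    rw [Nat.mul_add_div hmpos, Nat.div_eq_of_lt hl, add_zero]
  have hmod : ∀ i, ∀ l < m, (m * i + l) % m = l := by
    intro i l hl
    rw [Nat.mul_add_mod, Nat.mod_eq_of_lt hl]
  have hpunit : ∀ i < cnt m 3, ∀ l < m, ‖p (child m i l) - p i‖ = 1 := by
    intro i hi l hl
    have := hp.unit _ (hidx i hi l hl)
    rw [hchild]
    simpa [hpardef, hdiv i l hl] using this
  have hpdir : ∀ i < cnt m 3, ∀ l < m, ‖p (child m i l) - p i - e l‖ ≤ η N := by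
    intro i hi l hl
    have := hp.near _ (hidx i hi l hl)
    rw [hchild]
    simpa [hpardef, hdiv i l hl, hmod i l hl] using this
  -- apply the hypothesis
  set G := treeG par hpar n with hG
  have hp1 : ∀ u v, G.Adj u v → dist (p u.val) (p v.val) = 1 := by
    intro u v huv
    rcases huv with ⟨j, h1, h2⟩ | ⟨j, h1, h2⟩
    · rw [dist_eq_norm, h1, h2]
      exact hp.unit j (by have := u.isLt; omega)
    · rw [dist_comm, dist_eq_norm, h1, h2]
      exact hp.unit j (by have := v.isLt; omega)
  have hp2 : Function.Injective (fun v : Fin (n + 1) => p v.val) := by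
    intro u v huv
    have hu := u.isLt
    have hv := v.isLt
    exact Fin.ext (hp.inj _ (by omega) _ (by omega) huv)
  have hsegsym : ∀ x y z : E3, z ∈ segment ℝ x y → z ∈ segment ℝ y x := by
    intro x y z hz; rwa [segment_symm]
  -- crossing property in index form
  have hcrossidx : ∀ i < n, ∀ j < n, i ≠ j → ∀ x, x ∈ segment ℝ (p (i + 1)) (p (par i)) →
      x ∈ segment ℝ (p (j + 1)) (p (par j)) →
      ∃ w, (w = i + 1 ∨ w = par i) ∧ (w = j + 1 ∨ w = par j) ∧ x = p w := by
    intro i hi j hj hij x hx1 hx2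
    rcases lt_or_gt_of_ne hij with h | h
    · exact hp.cross j hj i h x hx1 hx2
    · obtain ⟨w, h1, h2, h3⟩ := hp.cross i hi j h x hx2 hx1
      exact ⟨w, h2, h1, h3⟩
  have hedge : ∀ a b, G.Adj a b → ∃ j < n, ((a.val = j + 1 ∧ b.val = par j) ∨
      (b.val = j + 1 ∧ a.val = par j)) := by
    intro a b hab
    rcases hab with ⟨j, h1, h2⟩ | ⟨j, h1, h2⟩
    · exact ⟨j, by have := a.isLt; omega, Or.inl ⟨h1, h2⟩⟩
    · exact ⟨j, by have := b.isLt; omega, Or.inr ⟨h1, h2⟩⟩
  have hp3 : ∀ a b c d, G.Adj a b → G.Adj c d → s(a, b) ≠ s(c, d) →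
      ∀ x, x ∈ segment ℝ (p a.val) (p b.val) → x ∈ segment ℝ (p c.val) (p d.val) →
        ∃ w : Fin (n + 1), (w = a ∨ w = b) ∧ (w = c ∨ w = d) ∧ x = p w.val := by
    intro a b c d hab hcd hne x hx1 hx2
    obtain ⟨i, hi, hi'⟩ := hedge a b hab
    obtain ⟨j, hj, hj'⟩ := hedge c d hcd
    have hij : i ≠ j := by
      rintro rfl
      apply hne
      rw [Sym2.eq_iff]
      rcases hi' with ⟨h1, h2⟩ | ⟨h1, h2⟩ <;> rcases hj' with ⟨h3, h4⟩ | ⟨h3, h4⟩
      · left; exact ⟨Fin.ext (by omega), Fin.ext (by omega)⟩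
      · right; exact ⟨Fin.ext (by omega), Fin.ext (by omega)⟩
      · right; exact ⟨Fin.ext (by omega), Fin.ext (by omega)⟩
      · left; exact ⟨Fin.ext (by omega), Fin.ext (by omega)⟩
    have hx1' : x ∈ segment ℝ (p (i + 1)) (p (par i)) := by
      rcases hi' with ⟨h1, h2⟩ | ⟨h1, h2⟩
      · rw [← h1, ← h2]; exact hx1
      · rw [← h1, ← h2]; exact hsegsym _ _ _ hx1
    have hx2' : x ∈ segment ℝ (p (j + 1)) (p (par j)) := by
      rcases hj' with ⟨h1, h2⟩ | ⟨h1, h2⟩
      · rw [← h1, ← h2]; exact hx2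
      · rw [← h1, ← h2]; exact hsegsym _ _ _ hx2
    obtain ⟨w, hw1, hw2, hw3⟩ := hcrossidx i hi j hj hij x hx1' hx2'
    have hwn : w < n + 1 := by
      have := hpar i
      rcases hw1 with h | h <;> omega
    refine ⟨⟨w, hwn⟩, ?_, ?_, hw3⟩
    · rcases hi' with ⟨h1, h2⟩ | ⟨h1, h2⟩ <;> rcases hw1 with h | h
      · left; exact Fin.ext (by simp; omega)
      · right; exact Fin.ext (by simp; omega)
      · right; exact Fin.ext (by simp; omega)
      · left; exact Fin.ext (by simp; omega)
    · rcases hj' with ⟨h1, h2⟩ | ⟨h1, h2⟩ <;> rcases hw2 with h | h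
      · left; exact Fin.ext (by simp; omega)
      · right; exact Fin.ext (by simp; omega)
      · right; exact Fin.ext (by simp; omega)
      · left; exact Fin.ext (by simp; omega)
  obtain ⟨f, hf, hf0, hft, A, hA, hfA⟩ := H (Fin (n + 1)) G (treeG_isTree par hpar n)
    (fun v => p v.val) hp1 hp2 hp3
  have hf0' : ∀ v, f 0 v = p v.val := fun v => congrFun hf0 v
  -- the flat configuration is far
  have hflat : ∀ g : E3 ≃ᵃⁱ[ℝ] E3, ∃ v, 1 / 100000 ≤ ‖g (f 1 v) - f 0 v‖ := by
    intro g
    by_contra hcon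
    push Not at hcon
    obtain ⟨ν, hν1, hν2⟩ := exists_unit_normal A.direction hA
    set ν' := g.linearIsometryEquiv ν with hν'
    have hgsub : ∀ x y : E3, g x - g y = g.linearIsometryEquiv (x - y) := by
      intro x y
      have := g.map_vsub x y
      simpa using this.symm
    have hsmall : ∀ v w : Fin (n + 1), |inner ℝ ν' (p v.val - p w.val)| ≤ 2 / 100000 := by
      intro v w
      have h1 : inner ℝ ν' (g (f 1 v) - g (f 1 w)) = 0 := by
        rw [hgsub, hν', LinearIsometryEquiv.inner_map_map]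
        exact hν2 _ (AffineSubspace.vsub_mem_direction (hfA v) (hfA w))
      have e1 : p v.val - p w.val = (g (f 1 v) - g (f 1 w)) - ((g (f 1 v) - f 0 v) -
          (g (f 1 w) - f 0 w)) := by
        rw [hf0', hf0']; abel
      rw [e1, inner_sub_right, h1, zero_sub, abs_neg]
      refine (abs_real_inner_le_norm _ _).trans ?_
      have h2 : ‖ν'‖ = 1 := by rw [hν', LinearIsometryEquiv.norm_map]; exact hν1
      rw [h2, one_mul]
      refine (norm_sub_le _ _).trans ?_
      have := hcon v
      have := hcon w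
      linarith
    have hν'1 : ‖ν'‖ = 1 := by rw [hν', LinearIsometryEquiv.norm_map]; exact hν1
    have h3le : 3 ≤ n := by
      have := cnt_pos m 3
      have h2 : m * 1 ≤ m * cnt m 3 := Nat.mul_le_mul_left m this
      omega
    have hcoord : ∀ l, l < 3 → |inner ℝ ν' (e l)| ≤ 2 / 100 := by
      intro l hl
      have hlm : l < m := by omega
      have h1 := hpdir 0 (cnt_pos m 3) l hlm
      have h2 := hsmall ⟨l + 1, by omega⟩ ⟨0, by omega⟩
      simp only at h2
      have hc : child m 0 l = l + 1 := by rw [hchild]; simp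
      rw [hc] at h1
      have e1 : e l = (p (l + 1) - p 0) - (p (l + 1) - p 0 - e l) := by abel
      rw [e1, inner_sub_right]
      have h3 := abs_real_inner_le_norm ν' (p (l + 1) - p 0 - e l)
      rw [hν'1, one_mul] at h3
      have h4 := abs_sub (inner ℝ ν' (p (l + 1) - p 0)) (inner ℝ ν' (p (l + 1) - p 0 - e l))
      linarith
    have c0 := hcoord 0 (by norm_num)
    have c1 := hcoord 1 (by norm_num)
    have c2 := hcoord 2 (by norm_num)
    have i0 : inner ℝ ν' (e 0) = ν' 0 := by rw [he0, inner_eq]; simp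
    have i1 : inner ℝ ν' (e 1) = ν' 1 := by rw [he1, inner_eq]; simp
    have i2 : inner ℝ ν' (e 2) = ν' 2 := by rw [he2, inner_eq]; simp
    rw [i0] at c0
    rw [i1] at c1
    rw [i2] at c2
    have hsq := norm_sq_eq ν'
    rw [hν'1] at hsq
    have d0 := abs_le.1 c0
    have d1 := abs_le.1 c1
    have d2 := abs_le.1 c2
    nlinarith
  obtain ⟨T, hT, hTfar, hTclose⟩ := exit_time hf hflat
  obtain ⟨g, hg⟩ := hTclose T ⟨hT.1, le_rfl⟩
  obtain ⟨σ, hσ1, hσ⟩ := vol_map g.linearIsometryEquiv
  have hgsub : ∀ x y : E3, g x - g y = g.linearIsometryEquiv (x - y) := by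
    intro x y
    have := g.map_vsub x y
    simpa using this.symm
  set q : ℕ → E3 := fun i => if h : i < n + 1 then g (f T ⟨i, h⟩) else 0 with hq
  have hqv : ∀ (i : ℕ) (h : i < n + 1), q i = g (f T ⟨i, h⟩) := by
    intro i h
    rw [hq]
    simp only [dif_pos h]
  have hilt : ∀ i < cnt m 3, i < n + 1 := by
    intro i hi
    have h1 : cnt m 3 ≤ cnt m 4 := cnt_mono
    omega
  have hclt : ∀ i < cnt m 3, ∀ l < m, child m i l < n + 1 := by
    intro i hi l hl
    have := hidx i hi l hl
    rw [hchild]; omega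
  have hadj : ∀ i (hi : i < cnt m 3) l (hl : l < m),
      G.Adj ⟨i, hilt i hi⟩ ⟨child m i l, hclt i hi l hl⟩ := by
    intro i hi l hl
    right
    refine ⟨m * i + l, hchild i l, ?_⟩
    simp only [hpardef]
    exact (hdiv i l hl).symm
  refine ⟨p, q, σ, hσ1, hp.zero, hpunit, hpdir, ?_, ?_, ?_, ?_⟩
  · intro i hi l hl
    rw [hqv _ (hclt i hi l hl), hqv _ (hilt i hi), hgsub, LinearIsometryEquiv.norm_map]
    have := (hft T hT).1 _ _ (hadj i hi l hl)
    rwa [dist_comm, dist_eq_norm] at this
  · intro i hi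
    rw [hcnt4] at hi
    rw [hqv i hi]
    have := hg ⟨i, hi⟩
    rwa [hf0'] at this
  · intro i hi l hl j hj k hk hij hnc
    have hne : s((⟨i, hilt i hi⟩ : Fin (n + 1)), ⟨child m i l, hclt i hi l hl⟩) ≠
        s(⟨j, hilt j hj⟩, ⟨child m j k, hclt j hj k hk⟩) := by
      intro h
      rw [Sym2.eq_iff] at h
      rcases h with ⟨h1, -⟩ | ⟨h1, h2⟩
      · exact hij (congrArg Fin.val h1)
      · have e1 := congrArg Fin.val h1
        have e2 := congrArg Fin.val h2
        simp only at e1 e2
        have a1 : i < child m i l := by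
          rw [hchild]
          have : i ≤ m * i := Nat.le_mul_of_pos_left i hmpos
          omega
        have a2 : j < child m j k := by
          rw [hchild]
          have : j ≤ m * j := Nat.le_mul_of_pos_left j hmpos
          omega
        omega
    have hs := sign_const hf (fun t ht => (hft t ht).1) (fun t ht => (hft t ht).2.2) hT hTclose
      (hadj i hi l hl) (hadj j hj k hk) hne (by
        simp only [hf0']
        exact hnc)
    simp only [hf0'] at hs
    rw [hqv _ (hclt i hi l hl), hqv _ (hilt i hi), hqv _ (hclt j hj k hk), hqv _ (hilt j hj),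
      hgsub, hgsub, hgsub, hσ]
    have hσσ : σ * σ = 1 := by rcases hσ1 with h | h <;> rw [h] <;> norm_num
    rw [← mul_assoc σ σ, hσσ, one_mul]
    exact hs
  · intro g'
    obtain ⟨v, hv⟩ := hTfar (g.trans g')
    refine ⟨v.val, by rw [hcnt4]; exact v.isLt, ?_⟩
    rw [hqv v.val v.isLt]
    rw [hf0'] at hv
    exact hv

end Pool.Agent.LockedTree
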