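import Pool.Agent.LockedTree.Vol

set_option autoImplicit false

/-!
# General position: simple placements of trees near prescribed directions
-/

namespace Pool.Agent.LockedTree

open Filter Topology

/-- the normalisation of a vector -/
noncomputable def nrm (x : E3) : E3 := ‖x‖⁻¹ • x

lemma norm_nrm {x : E3} (hx : x ≠ 0) : ‖nrm x‖ = 1 := norm_smul_inv_norm hx

lemma nrm_smul_norm {x : E3} (hx : x ≠ 0) : ‖x‖ • nrm x = x := by
  unfold nrm
  rw [smul_smul, mul_inv_cancel₀ (norm_ne_zero_iff.2 hx), one_smul]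

lemma norm_nrm_sub_le {x u : E3} (hx : x ≠ 0) (hu : ‖u‖ = 1) : ‖nrm x - u‖ ≤ 2 * ‖x - u‖ := by
  have h1 : nrm x - x = (‖x‖⁻¹ - 1) • x := by
    unfold nrm; rw [sub_smul, one_smul]
  have h2 : ‖nrm x - x‖ ≤ ‖x - u‖ := by
    rw [h1, norm_smul, Real.norm_eq_abs]
    have hx' : 0 < ‖x‖ := norm_pos_iff.2 hx
    have h3 : |‖x‖⁻¹ - 1| * ‖x‖ = |1 - ‖x‖| := by
      rw [← abs_of_pos hx', ← abs_mul, abs_of_pos hx']
      congr 1
      field_simp
    rw [h3, ← hu]
    rw [norm_sub_rev x u]
    exact abs_norm_sub_norm_le u x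
  calc ‖nrm x - u‖ = ‖(nrm x - x) + (x - u)‖ := by congr 1; abel
    _ ≤ ‖nrm x - x‖ + ‖x - u‖ := norm_add_le _ _
    _ ≤ 2 * ‖x - u‖ := by linarith

lemma exists_normal (X Y : E3) : ∃ m : E3, m ≠ 0 ∧ inner ℝ m X = 0 ∧ inner ℝ m Y = 0 := by
  set W : Submodule ℝ E3 := Submodule.span ℝ {X, Y} with hW
  have hrank : Module.finrank ℝ W < 3 := by
    have h1 : Module.finrank ℝ W ≤ ({X, Y} : Finset E3).card := by
      have := finrank_span_finset_le_card (R := ℝ) ({X, Y} : Finset E3)
      rw [Finset.coe_insert, Finset.coe_singleton] at this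
      exact this
    have h2 : ({X, Y} : Finset E3).card ≤ 2 := Finset.card_le_two
    omega
  have hWne : Wᗮ ≠ ⊥ := by
    intro hbot
    have hWtop : W = ⊤ := by
      rwa [Submodule.orthogonal_eq_bot_iff] at hbot
    rw [hWtop, finrank_top, finrank_euclideanSpace, Fintype.card_fin] at hrank
    exact lt_irrefl _ hrank
  obtain ⟨m, hmW, hm0⟩ := Submodule.exists_mem_ne_zero_of_ne_bot hWne
  refine ⟨m, hm0, ?_, ?_⟩
  · rw [real_inner_comm]
    exact (Submodule.mem_orthogonal _ _).1 hmW X (Submodule.subset_span (by simp))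
  · rw [real_inner_comm]
    exact (Submodule.mem_orthogonal _ _).1 hmW Y (Submodule.subset_span (by simp))

lemma exists_avoid (m : ℕ → E3) (n : ℕ) (hm : ∀ i < n, m i ≠ 0) (x : E3) (ε : ℝ) (hε : 0 < ε) :
    ∃ y : E3, ‖y - x‖ < ε ∧ ∀ i < n, inner ℝ (m i) y ≠ 0 := by
  induction n generalizing ε with
  | zero => exact ⟨x, by simpa using hε, by simp⟩
  | succ n ih =>
    obtain ⟨y, hy1, hy2⟩ := ih (fun i hi => hm i (by omega)) (ε / 2) (by linarith)
    have hc : ∀ i, Tendsto (fun t : ℝ => inner ℝ (m i) (y + t • m n)) (𝓝[≠] 0)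
        (𝓝 (inner ℝ (m i) y)) := by
      intro i
      have : Continuous (fun t : ℝ => inner ℝ (m i) (y + t • m n)) := by fun_prop
      have h0 := this.tendsto 0
      simp only [zero_smul, add_zero] at h0
      exact h0.mono_left nhdsWithin_le_nhds
    have h1 : ∀ᶠ t in 𝓝[≠] (0 : ℝ), ∀ i ∈ Finset.range n, inner ℝ (m i) (y + t • m n) ≠ 0 := by
      rw [Filter.eventually_all_finset]
      intro i hi
      exact (hc i).eventually_ne (hy2 i (Finset.mem_range.1 hi))
    have h2 : ∀ᶠ t in 𝓝[≠] (0 : ℝ), inner ℝ (m n) (y + t • m n) ≠ 0 := by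
      by_cases h : inner ℝ (m n) y = 0
      · filter_upwards [self_mem_nhdsWithin] with t ht
        rw [inner_add_right, h, inner_smul_right, zero_add, real_inner_self_eq_norm_sq]
        have : ‖m n‖ ≠ 0 := norm_ne_zero_iff.2 (hm n (by omega))
        have ht' : t ≠ 0 := ht
        positivity
      · exact (hc n).eventually_ne h
    have h3 : ∀ᶠ t in 𝓝[≠] (0 : ℝ), ‖t • m n‖ < ε / 2 := by
      have : Continuous (fun t : ℝ => ‖t • m n‖) := by fun_prop
      have h0 := this.tendsto 0
      simp only [zero_smul, norm_zero] at h0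
      exact (h0.mono_left nhdsWithin_le_nhds).eventually_lt_const (by linarith)
    obtain ⟨t, ht1, ht2, ht3⟩ := (h1.and (h2.and h3)).exists
    refine ⟨y + t • m n, ?_, ?_⟩
    · calc ‖y + t • m n - x‖ = ‖(y - x) + t • m n‖ := by congr 1; abel
        _ ≤ ‖y - x‖ + ‖t • m n‖ := norm_add_le _ _
        _ < ε := by linarith
    · intro i hi
      rcases Nat.lt_succ_iff_lt_or_eq.1 hi with h | h
      · exact ht1 i (Finset.mem_range.2 h)
      · rw [h]; exact ht2

lemma exists_generic_unit (m : ℕ → E3) (n : ℕ) (hm : ∀ i < n, m i ≠ 0) (u : E3) (hu : ‖u‖ = 1)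
    (η : ℝ) (hη : 0 < η) :
    ∃ y : E3, ‖y‖ = 1 ∧ ‖y - u‖ ≤ η ∧ ∀ i < n, inner ℝ (m i) y ≠ 0 := by
  obtain ⟨x, hx1, hx2⟩ := exists_avoid m n hm u (min (η / 2) (1 / 2)) (by positivity)
  have hx0 : x ≠ 0 := by
    rintro rfl
    have := lt_of_lt_of_le hx1 (min_le_right _ _)
    rw [zero_sub, norm_neg, hu] at this
    norm_num at this
  refine ⟨nrm x, norm_nrm hx0, ?_, ?_⟩
  · have := norm_nrm_sub_le hx0 hu
    have h2 := lt_of_lt_of_le hx1 (min_le_left _ _)
    linarith
  · intro i hi
    unfold nrm
    rw [inner_smul_right]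
    exact mul_ne_zero (inv_ne_zero (norm_ne_zero_iff.2 hx0)) (hx2 i hi)

/-- A simple placement of the tree with parent function `par` (vertex `j+1` is joined to vertex
`par j`), all edges having length one and edge `j` having direction within `η` of `dir j`. -/
structure Good (par : ℕ → ℕ) (dir : ℕ → E3) (η : ℝ) (n : ℕ) (p : ℕ → E3) : Prop where
  zero : p 0 = 0
  unit : ∀ j < n, ‖p (j + 1) - p (par j)‖ = 1
  near : ∀ j < n, ‖p (j + 1) - p (par j) - dir j‖ ≤ η
  inj : ∀ i ≤ n, ∀ j ≤ n, p i = p j → i = j
  cross : ∀ j < n, ∀ i < j, ∀ x, x ∈ segment ℝ (p (i + 1)) (p (par i)) →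
    x ∈ segment ℝ (p (j + 1)) (p (par j)) →
      ∃ w, (w = i + 1 ∨ w = par i) ∧ (w = j + 1 ∨ w = par j) ∧ x = p w

lemma mem_segment_inner {m k a b x : E3} (ha : inner ℝ m (a - k) = 0) (hb : inner ℝ m (b - k) = 0)
    (hx : x ∈ segment ℝ a b) : inner ℝ m (x - k) = 0 := by
  obtain ⟨s, t, hs, ht, hst, rfl⟩ := hx
  have : s • a + t • b - k = s • (a - k) + t • (b - k) := by
    rw [smul_sub, smul_sub]
    have : k = s • k + t • k := by rw [← add_smul, hst, one_smul]
    nth_rewrite 1 [this]
    abel
  rw [this, inner_add_right, inner_smul_right, inner_smul_right, ha, hb]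
  simp

theorem exists_good (par : ℕ → ℕ) (hpar : ∀ j, par j ≤ j) (dir : ℕ → E3)
    (hdir : ∀ j, ‖dir j‖ = 1) (η : ℝ) (hη : 0 < η) (n : ℕ) :
    ∃ p : ℕ → E3, Good par dir η n p := by
  induction n with
  | zero =>
    refine ⟨fun _ => 0, rfl, by simp, by simp, ?_, by simp⟩
    intro i hi j hj _
    omega
  | succ n ih =>
    obtain ⟨p, hp⟩ := ih
    set k := par n with hk
    have hkn : k ≤ n := hpar n
    -- normals
    have hnorm : ∀ i, ∃ m : E3, m ≠ 0 ∧ inner ℝ m (p (i + 1) - p k) = 0 ∧
        inner ℝ m (p (par i) - p k) = 0 := fun i => exists_normal _ _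
    choose m hm0 hm1 hm2 using hnorm
    obtain ⟨u, hu1, hu2, hu3⟩ := exists_generic_unit m n (fun i _ => hm0 i) (dir n) (hdir n) η hη
    set q : ℕ → E3 := Function.update p (n + 1) (p k + u) with hq
    have hqold : ∀ i, i ≤ n → q i = p i := by
      intro i hi
      rw [hq, Function.update_of_ne (by omega)]
    have hqnew : q (n + 1) = p k + u := by rw [hq, Function.update_self]
    have hqk : q k = p k := hqold k hkn
    -- key: a point of the new edge that lies in an old edge is `p k`
    have key : ∀ i < n, ∀ x, x ∈ segment ℝ (p (i + 1)) (p (par i)) →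
        x ∈ segment ℝ (p k + u) (p k) → x = p k := by
      intro i hi x hx1 hx2
      have h1 := mem_segment_inner (hm1 i) (hm2 i) hx1
      obtain ⟨s, t, hs, ht, hst, rfl⟩ := hx2
      have : s • (p k + u) + t • p k - p k = s • u := by
        have h : p k = s • p k + t • p k := by rw [← add_smul, hst, one_smul]
        nth_rewrite 3 [h]
        rw [smul_add]
        abel
      rw [this, inner_smul_right] at h1
      have hs0 : s = 0 := (mul_eq_zero.1 h1).resolve_right (hu3 i hi)
      have ht1 : t = 1 := by linarith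
      rw [hs0, ht1]; simp
    -- `p k` in an old edge is an endpoint of it
    have key2 : ∀ i < n, p k ∈ segment ℝ (p (i + 1)) (p (par i)) → (k = i + 1 ∨ k = par i) := by
      intro i hi hx
      have hii : i + 1 ≤ n := hi
      have hpi : par i ≤ n := (hpar i).trans (by omega)
      -- an edge having `k` as an endpoint
      obtain ⟨j, hj, hjk⟩ : ∃ j < n, k = j + 1 ∨ k = par j := by
        rcases Nat.eq_zero_or_pos k with h0 | h0
        · refine ⟨0, by omega, Or.inr ?_⟩
          have := hpar 0
          omega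
        · exact ⟨k - 1, by omega, Or.inl (by omega)⟩
      have hjmem : p k ∈ segment ℝ (p (j + 1)) (p (par j)) := by
        rcases hjk with h | h
        · rw [h]; exact left_mem_segment _ _ _
        · rw [h]; exact right_mem_segment _ _ _
      rcases lt_trichotomy i j with h | h | h
      · obtain ⟨w, hw1, hw2, hw3⟩ := hp.cross j hj i h _ hx hjmem
        have hwn : w ≤ n := by rcases hw1 with h | h <;> omega
        have := hp.inj k hkn w hwn hw3
        rw [this]; exact hw1
      · rw [h]; exact hjk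
      · obtain ⟨w, hw1, hw2, hw3⟩ := hp.cross i hi j h _ hjmem hx
        have hwn : w ≤ n := by rcases hw2 with h | h <;> omega
        have := hp.inj k hkn w hwn hw3
        rw [this]; exact hw2
    have hune : u ≠ 0 := by
      rintro rfl
      simp at hu1
    -- the new vertex is new
    have hnew : ∀ j ≤ n, p k + u ≠ p j := by
      intro j hj heq
      rcases Nat.eq_zero_or_pos n with h0 | h0
      · have hj0 : j = 0 := by omega
        have hk0 : k = 0 := by omega
        rw [hj0, hk0] at heq
        exact hune (by simpa using heq)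
      · obtain ⟨i, hi, hij⟩ : ∃ i < n, j = i + 1 ∨ j = par i := by
          rcases Nat.eq_zero_or_pos j with h0 | h0
          · refine ⟨0, by omega, Or.inr ?_⟩
            have := hpar 0
            omega
          · exact ⟨j - 1, by omega, Or.inl (by omega)⟩
        have hjmem : p k + u ∈ segment ℝ (p (i + 1)) (p (par i)) := by
          rw [heq]
          rcases hij with h | h
          · rw [h]; exact left_mem_segment _ _ _
          · rw [h]; exact right_mem_segment _ _ _
        have := key i hi _ hjmem (left_mem_segment _ _ _)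
        exact hune (by simpa using this)
    refine ⟨q, ?_, ?_, ?_, ?_, ?_⟩
    · rw [hqold 0 (by omega)]; exact hp.zero
    · intro j hj
      rcases Nat.lt_succ_iff_lt_or_eq.1 hj with h | h
      · rw [hqold _ (by omega), hqold _ ((hpar j).trans (by omega))]
        exact hp.unit j h
      · rw [h, hqnew, ← hk, hqk]; simpa using hu1
    · intro j hj
      rcases Nat.lt_succ_iff_lt_or_eq.1 hj with h | h
      · rw [hqold _ (by omega), hqold _ ((hpar j).trans (by omega))]
        exact hp.near j h
      · rw [h, hqnew, ← hk, hqk]; simpa using hu2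
    · intro i hi j hj hij
      rcases Nat.le_succ_iff.1 hi with h | h <;> rcases Nat.le_succ_iff.1 hj with h' | h'
      · rw [hqold i h, hqold j h'] at hij
        exact hp.inj i h j h' hij
      · exfalso
        rw [hqold i h, h', hqnew] at hij
        exact hnew i h hij.symm
      · exfalso
        rw [hqold j h', h, hqnew] at hij
        exact hnew j h' hij
      · omega
    · intro j hj i hi x hx1 hx2
      rcases Nat.lt_succ_iff_lt_or_eq.1 hj with h | h
      · rw [hqold _ (by omega), hqold _ ((hpar i).trans (by omega))] at hx1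
        rw [hqold _ (by omega), hqold _ ((hpar j).trans (by omega))] at hx2
        obtain ⟨w, hw1, hw2, hw3⟩ := hp.cross j h i hi x hx1 hx2
        refine ⟨w, hw1, hw2, ?_⟩
        rw [hw3, hqold]
        have := hpar i
        rcases hw1 with h | h <;> omega
      · subst h
        rw [hqold _ (by omega), hqold _ ((hpar i).trans (by omega))] at hx1
        rw [hqnew, ← hk, hqk] at hx2
        have hxk := key i hi x hx1 hx2
        rw [hxk] at hx1
        have hki := key2 i hi hx1
        exact ⟨k, hki, Or.inr rfl, by rw [hxk, hqk]⟩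

end Pool.Agent.LockedTree
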