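import Pool.Agent.LockedTree.Rigid

set_option autoImplicit false

/-!
# From arbitrarily fine nearly rigid data to a contradiction
-/

namespace Pool.Agent.LockedTree

open Filter Topology

/-- number of vertices of depth at most `d` of the `m`-ary tree in heap order -/
def cnt (m : ℕ) : ℕ → ℕ
  | 0 => 1
  | d + 1 => 1 + m * cnt m d

/-- the `l`-th child of vertex `i` -/
def child (m i l : ℕ) : ℕ := m * i + 1 + l

lemma cnt_pos (m d : ℕ) : 0 < cnt m d := by
  cases d with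
  | zero => simp [cnt]
  | succ d => simp only [cnt]; omega

lemma child_lt {m d i l : ℕ} (hi : i < cnt m d) (hl : l < m) : child m i l < cnt m (d + 1) := by
  unfold child
  simp only [cnt]
  have : m * (i + 1) ≤ m * cnt m d := Nat.mul_le_mul_left m hi
  rw [Nat.mul_add] at this
  omega

lemma cnt_mono {m d : ℕ} : cnt m d ≤ cnt m (d + 1) := by
  induction d with
  | zero => simp [cnt]
  | succ d ih =>
    simp only [cnt] at ih ⊢
    have : m * cnt m d ≤ m * (1 + m * cnt m d) := Nat.mul_le_mul_left m ih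
    omega

/-- The data extracted from a hypothetical motion. -/
structure Approx (e : ℕ → E3) (m : ℕ) (η : ℝ) (p q : ℕ → E3) (σ : ℝ) : Prop where
  hσ : σ = 1 ∨ σ = -1
  zero : p 0 = 0
  punit : ∀ i < cnt m 3, ∀ l < m, ‖p (child m i l) - p i‖ = 1
  pdir : ∀ i < cnt m 3, ∀ l < m, ‖p (child m i l) - p i - e l‖ ≤ η
  qunit : ∀ i < cnt m 3, ∀ l < m, ‖q (child m i l) - q i‖ = 1
  close : ∀ i < cnt m 4, ‖q i - p i‖ ≤ 2 / 100000
  sign : ∀ i < cnt m 3, ∀ l < m, ∀ j < cnt m 3, ∀ k < m, i ≠ j →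
    NC (p i) (p (child m i l) - p i) (p j) (p (child m j k) - p j) →
    0 < (σ * vol (q (child m i l) - q i) (q j - q i) (q (child m j k) - q j)) *
      vol (p (child m i l) - p i) (p j - p i) (p (child m j k) - p j)
  far : ∀ g : E3 ≃ᵃⁱ[ℝ] E3, ∃ i < cnt m 4, 1 / 100000 ≤ ‖g (q i) - p i‖

lemma Approx.norm_le {e : ℕ → E3} {m : ℕ} {η : ℝ} {p q : ℕ → E3} {σ : ℝ} (hm : 0 < m)
    (A : Approx e m η p q σ) : ∀ d, d ≤ 4 → ∀ i < cnt m d, ‖p i‖ ≤ d := by
  intro d
  induction d with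
  | zero =>
    intro _ i hi
    have : i = 0 := by simp [cnt] at hi; exact hi
    rw [this, A.zero]; simp
  | succ d ih =>
    intro hd i hi
    rcases Nat.eq_zero_or_pos i with h0 | h0
    · rw [h0, A.zero, norm_zero]; positivity
    · simp only [cnt] at hi
      set j := (i - 1) / m with hj
      set l := (i - 1) % m with hl
      have hlm : l < m := Nat.mod_lt _ hm
      have hij : i = child m j l := by
        unfold child
        have := Nat.div_add_mod (i - 1) m
        rw [← hj, ← hl] at this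
        omega
      have hjd : j < cnt m d := by
        rw [hj]
        apply Nat.div_lt_of_lt_mul
        omega
      have hj3 : j < cnt m 3 := by
        have hmono : ∀ a, a ≤ 3 → cnt m (3 - a) ≤ cnt m 3 := by
          intro a
          induction a with
          | zero => intro _; exact le_rfl
          | succ a ih2 =>
            intro ha
            have e1 : 3 - a = (3 - (a + 1)) + 1 := by omega
            have e2 := cnt_mono (m := m) (d := 3 - (a + 1))
            rw [← e1] at e2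
            exact e2.trans (ih2 (by omega))
        have := hmono (3 - d) (by omega)
        have e3 : 3 - (3 - d) = d := by omega
        rw [e3] at this
        omega
      have h1 := A.punit j hj3 l hlm
      have h2 := ih (by omega) j hjd
      rw [hij]
      have h3 := norm_add_le (p (child m j l) - p j) (p j)
      rw [sub_add_cancel, h1] at h3
      push_cast
      linarith

/-- bounded sequences have limits along the ultrafilter -/
lemma exists_ulim (x : ℕ → E3) (R : ℝ) (hx : ∀ N, ‖x N‖ ≤ R) :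
    ∃ a, Tendsto x (hyperfilter ℕ : Filter ℕ) (𝓝 a) := by
  obtain ⟨a, -, ha⟩ := (isCompact_closedBall (0 : E3) R).ultrafilter_le_nhds
    ((hyperfilter ℕ).map x) (by
      rw [le_principal_iff]
      change x ⁻¹' _ ∈ (hyperfilter ℕ : Filter ℕ)
      filter_upwards with N
      simpa using hx N)
  exact ⟨a, ha⟩

/-- The spike relation along the ultrafilter. -/
def RelU (p q : ℕ → ℕ → E3) (s : ℕ → ℕ) (u u' : E3) : Prop :=
  ∀ ε > 0, ∀ᶠ N in (hyperfilter ℕ : Filter ℕ), ∃ l < N + 3,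
    ‖(p N (child (N + 3) (s N) l) - p N (s N)) - u‖ < ε ∧
    ‖(q N (child (N + 3) (s N) l) - q N (s N)) - u'‖ < ε

lemma relU_of_tendsto {p q : ℕ → ℕ → E3} {s l : ℕ → ℕ} {u u' : E3} (hl : ∀ N, l N < N + 3)
    (h : Tendsto (fun N => p N (child (N + 3) (s N) (l N)) - p N (s N))
      (hyperfilter ℕ : Filter ℕ) (𝓝 u))
    (h' : Tendsto (fun N => q N (child (N + 3) (s N) (l N)) - q N (s N))
      (hyperfilter ℕ : Filter ℕ) (𝓝 u')) : RelU p q s u u' := by
  intro ε hε
  filter_upwards [Metric.tendsto_nhds.1 h ε hε, Metric.tendsto_nhds.1 h' ε hε] with N h1 h2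
  rw [dist_eq_norm] at h1 h2
  exact ⟨l N, hl N, h1, h2⟩

lemma letters {e : ℕ → E3} (hdense : ∀ u : E3, ‖u‖ = 1 → ∀ ε > 0, ∃ n, ‖e n - u‖ < ε) {u : E3}
    (hu : ‖u‖ = 1) : ∃ l : ℕ → ℕ, (∀ N, l N < N + 3) ∧ Tendsto (fun N => e (l N)) atTop (𝓝 u) := by
  have hmin : ∀ N : ℕ, ∃ k < N + 3, ∀ n < N + 3, ‖e k - u‖ ≤ ‖e n - u‖ := by
    intro N
    obtain ⟨k, hk, hk'⟩ := Finset.exists_min_image (Finset.range (N + 3)) (fun n => ‖e n - u‖)
      ⟨0, by simp⟩
    exact ⟨k, Finset.mem_range.1 hk, fun n hn => hk' n (Finset.mem_range.2 hn)⟩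
  choose l hl hl' using hmin
  refine ⟨l, hl, ?_⟩
  rw [Metric.tendsto_atTop]
  intro ε hε
  obtain ⟨n, hn⟩ := hdense u hu ε hε
  refine ⟨n, fun N hN => ?_⟩
  rw [dist_eq_norm]
  exact (hl' N n (by omega)).trans_lt hn

/-- the vertex reached by two letters -/
def path2 (l₁ l₂ : ℕ → ℕ) (N : ℕ) : ℕ := child (N + 3) (child (N + 3) 0 (l₁ N)) (l₂ N)

section main

variable {e : ℕ → E3} {η : ℕ → ℝ} {p q : ℕ → ℕ → E3} {σ : ℕ → ℝ}

lemma cnt_mono' {m a b : ℕ} (h : a ≤ b) : cnt m a ≤ cnt m b := by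
  induction h with
  | refl => exact le_rfl
  | step _ ih => exact ih.trans cnt_mono

lemma zero_lt_cnt {m d : ℕ} : 0 < cnt m d := cnt_pos m d

lemma pdir_tendsto (hA : ∀ N, Approx e (N + 3) (η N) (p N) (q N) (σ N))
    (hη : Tendsto η atTop (𝓝 0)) {s l : ℕ → ℕ} (hs : ∀ N, s N < cnt (N + 3) 3)
    (hl : ∀ N, l N < N + 3) {u : E3} (hu : Tendsto (fun N => e (l N)) atTop (𝓝 u)) :
    Tendsto (fun N => p N (child (N + 3) (s N) (l N)) - p N (s N)) atTop (𝓝 u) := by
  have h1 : Tendsto (fun N => p N (child (N + 3) (s N) (l N)) - p N (s N) - e (l N)) atTop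
      (𝓝 0) := by
    rw [tendsto_zero_iff_norm_tendsto_zero]
    exact squeeze_zero (fun N => norm_nonneg _) (fun N => (hA N).pdir _ (hs N) _ (hl N)) hη
  have h2 := h1.add hu
  simp only [sub_add_cancel, zero_add] at h2
  exact h2

lemma path2_lt {l₁ l₂ : ℕ → ℕ} (h₁ : ∀ N, l₁ N < N + 3) (h₂ : ∀ N, l₂ N < N + 3) (N : ℕ) :
    path2 l₁ l₂ N < cnt (N + 3) 2 :=
  child_lt (child_lt (by simp [cnt]) (h₁ N)) (h₂ N)

lemma path2_tendsto (hA : ∀ N, Approx e (N + 3) (η N) (p N) (q N) (σ N))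
    (hη : Tendsto η atTop (𝓝 0)) {l₁ l₂ : ℕ → ℕ}
    (h₁ : ∀ N, l₁ N < N + 3) (h₂ : ∀ N, l₂ N < N + 3) {u₁ u₂ : E3}
    (hu₁ : Tendsto (fun N => e (l₁ N)) atTop (𝓝 u₁))
    (hu₂ : Tendsto (fun N => e (l₂ N)) atTop (𝓝 u₂)) :
    Tendsto (fun N => p N (path2 l₁ l₂ N)) atTop (𝓝 (u₁ + u₂)) := by
  have e1 := pdir_tendsto hA hη (s := fun _ => 0) (fun N => zero_lt_cnt) h₁ hu₁
  have e2 := pdir_tendsto hA hη (s := fun N => child (N + 3) 0 (l₁ N))
    (fun N => lt_of_lt_of_le (child_lt (d := 0) (by simp [cnt]) (h₁ N)) (cnt_mono' (by norm_num)))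
    h₂ hu₂
  have e3 := e1.add e2
  refine e3.congr fun N => ?_
  simp only [path2, (hA N).zero]
  abel

lemma relU_unit (hA : ∀ N, Approx e (N + 3) (η N) (p N) (q N) (σ N)) {s : ℕ → ℕ}
    (hs : ∀ N, s N < cnt (N + 3) 3) {u u' : E3} (h : RelU p q s u u') : ‖u‖ = 1 := by
  have key : ∀ ε > 0, |‖u‖ - 1| < ε := by
    intro ε hε
    obtain ⟨N, l, hl, h1, h2⟩ := (h ε hε).exists
    have h3 := (hA N).punit _ (hs N) l hl
    rw [← h3]
    refine (abs_norm_sub_norm_le _ _).trans_lt ?_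
    rw [norm_sub_rev]; exact h1
  have : |‖u‖ - 1| ≤ 0 := le_of_forall_pos_le_add (fun ε hε => by linarith [key ε hε])
  have := abs_nonpos_iff.1 this
  linarith

lemma relU_unit' (hA : ∀ N, Approx e (N + 3) (η N) (p N) (q N) (σ N)) {s : ℕ → ℕ}
    (hs : ∀ N, s N < cnt (N + 3) 3) {u u' : E3} (h : RelU p q s u u') : ‖u'‖ = 1 := by
  have key : ∀ ε > 0, |‖u'‖ - 1| < ε := by
    intro ε hε
    obtain ⟨N, l, hl, h1, h2⟩ := (h ε hε).exists
    have h3 := (hA N).qunit _ (hs N) l hl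
    rw [← h3]
    refine (abs_norm_sub_norm_le _ _).trans_lt ?_
    rw [norm_sub_rev]; exact h2
  have : |‖u'‖ - 1| ≤ 0 := le_of_forall_pos_le_add (fun ε hε => by linarith [key ε hε])
  have := abs_nonpos_iff.1 this
  linarith

lemma relU_near (hA : ∀ N, Approx e (N + 3) (η N) (p N) (q N) (σ N)) {s : ℕ → ℕ}
    (hs : ∀ N, s N < cnt (N + 3) 3) {u u' : E3} (h : RelU p q s u u') :
    ‖u' - u‖ ≤ 4 / 100000 := by
  refine le_of_forall_pos_le_add fun ε hε => ?_
  obtain ⟨N, l, hl, h1, h2⟩ := (h (ε / 2) (by linarith)).exists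
  have h3 := (hA N).close _ (child_lt (hs N) hl)
  have h4 := (hA N).close _ (lt_of_lt_of_le (hs N) cnt_mono)
  set a := p N (child (N + 3) (s N) l)
  set b := p N (s N)
  set a' := q N (child (N + 3) (s N) l)
  set b' := q N (s N)
  have e1 : u' - u = -((a' - b') - u') + ((a' - a) - (b' - b)) + ((a - b) - u) := by abel
  rw [e1]
  refine (norm_add₃_le).trans ?_
  rw [norm_neg]
  have h5 := norm_sub_le (a' - a) (b' - b)
  linarith

lemma relU_full (hA : ∀ N, Approx e (N + 3) (η N) (p N) (q N) (σ N))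
    (hη : Tendsto η atTop (𝓝 0))
    (hdense : ∀ u : E3, ‖u‖ = 1 → ∀ ε > 0, ∃ n, ‖e n - u‖ < ε) {s : ℕ → ℕ}
    (hs : ∀ N, s N < cnt (N + 3) 3) {u : E3} (hu : ‖u‖ = 1) : ∃ u', RelU p q s u u' := by
  obtain ⟨l, hl, hl'⟩ := letters hdense hu
  have h1 := (pdir_tendsto hA hη hs hl hl').mono_left Nat.hyperfilter_le_atTop
  obtain ⟨u', hu'⟩ := exists_ulim (fun N => q N (child (N + 3) (s N) (l N)) - q N (s N)) 1
    (fun N => ((hA N).qunit _ (hs N) _ (hl N)).le)
  exact ⟨u', relU_of_tendsto hl h1 hu'⟩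

lemma relU_closed {s : ℕ → ℕ} {u u' : ℕ → E3} {v v' : E3} (h : ∀ n, RelU p q s (u n) (u' n))
    (h1 : Tendsto u atTop (𝓝 v)) (h2 : Tendsto u' atTop (𝓝 v')) : RelU p q s v v' := by
  intro ε hε
  have e1 := Metric.tendsto_nhds.1 h1 (ε / 2) (by linarith)
  have e2 := Metric.tendsto_nhds.1 h2 (ε / 2) (by linarith)
  obtain ⟨n, hn1, hn2⟩ := (e1.and e2).exists
  rw [dist_eq_norm] at hn1 hn2
  filter_upwards [h n (ε / 2) (by linarith)] with N hN
  obtain ⟨l, hl, h3, h4⟩ := hN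
  refine ⟨l, hl, ?_, ?_⟩
  · have : p N (child (N + 3) (s N) l) - p N (s N) - v =
        (p N (child (N + 3) (s N) l) - p N (s N) - u n) + (u n - v) := by abel
    rw [this]
    exact (norm_add_le _ _).trans_lt (by linarith)
  · have : q N (child (N + 3) (s N) l) - q N (s N) - v' =
        (q N (child (N + 3) (s N) l) - q N (s N) - u' n) + (u' n - v') := by abel
    rw [this]
    exact (norm_add_le _ _).trans_lt (by linarith)

lemma continuous_vol {X : Type*} [TopologicalSpace X] {f g h : X → E3} (hf : Continuous f)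
    (hg : Continuous g) (hh : Continuous h) : Continuous (fun x => vol (f x) (g x) (h x)) := by
  simp only [vol_eq]
  fun_prop

lemma continuous_cr {X : Type*} [TopologicalSpace X] {f g : X → E3} (hf : Continuous f)
    (hg : Continuous g) : Continuous (fun x => cr (f x) (g x)) := by
  refine (PiLp.continuous_toLp 2 _).comp (continuous_pi fun i => ?_)
  fin_cases i
  · simp; fun_prop
  · simp; fun_prop
  · simp; fun_prop

/-- an eightfold product -/
abbrev Z8 := E3 × E3 × E3 × E3 × E3 × E3 × E3 × E3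

/-- transfer of the sign property to the limit -/
lemma relU_sign (hA : ∀ N, Approx e (N + 3) (η N) (p N) (q N) (σ N)) {σ₀ : ℝ}
    (hσ₀ : ∀ᶠ N in (hyperfilter ℕ : Filter ℕ), σ N = σ₀) {s t : ℕ → ℕ}
    (hs : ∀ N, s N < cnt (N + 3) 3) (ht : ∀ N, t N < cnt (N + 3) 3) {x x' y y' u u' v v' : E3}
    (hx : Tendsto (fun N => p N (s N)) (hyperfilter ℕ : Filter ℕ) (𝓝 x))
    (hx' : Tendsto (fun N => q N (s N)) (hyperfilter ℕ : Filter ℕ) (𝓝 x'))
    (hy : Tendsto (fun N => p N (t N)) (hyperfilter ℕ : Filter ℕ) (𝓝 y))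
    (hy' : Tendsto (fun N => q N (t N)) (hyperfilter ℕ : Filter ℕ) (𝓝 y'))
    (hu : RelU p q s u u') (hv : RelU p q t v v') (hnc : NC x u y v)
    (hvol : vol u (y - x) v ≠ 0) :
    0 ≤ (σ₀ * vol u' (y' - x') v') * vol u (y - x) v := by
  by_contra hcon
  push Not at hcon
  obtain ⟨ρ, hρ, τ, hτ, hnc1, hnc2⟩ := hnc
  -- open conditions on the product
  set z₀ : Z8 := (x, x', y, y', u, u', v, v') with hz₀
  have hopen : ∀ᶠ z : Z8 in 𝓝 z₀,
      (σ₀ * vol z.2.2.2.2.2.1 (z.2.2.2.1 - z.2.1) z.2.2.2.2.2.2.2) *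
        vol z.2.2.2.2.1 (z.2.2.1 - z.1) z.2.2.2.2.2.2.1 < 0 ∧
      vol z.2.2.2.2.1 (z.2.2.1 - z.1) z.2.2.2.2.2.2.1 ≠ 0 ∧
      ‖z.1 + ρ • z.2.2.2.2.1 - (z.2.2.1 + τ • z.2.2.2.2.2.2.1)‖ < 1 / 100000 ∧
      1 / 10 < ‖cr z.2.2.2.2.1 z.2.2.2.2.2.2.1‖ := by
    have c1 : Continuous (fun z : Z8 => vol z.2.2.2.2.2.1 (z.2.2.2.1 - z.2.1) z.2.2.2.2.2.2.2) :=
      continuous_vol (by fun_prop) (by fun_prop) (by fun_prop)
    have c2 : Continuous (fun z : Z8 => vol z.2.2.2.2.1 (z.2.2.1 - z.1) z.2.2.2.2.2.2.1) :=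
      continuous_vol (by fun_prop) (by fun_prop) (by fun_prop)
    have c3 : Continuous (fun z : Z8 => ‖z.1 + ρ • z.2.2.2.2.1 -
      (z.2.2.1 + τ • z.2.2.2.2.2.2.1)‖) := by fun_prop
    have c4 : Continuous (fun z : Z8 => ‖cr z.2.2.2.2.1 z.2.2.2.2.2.2.1‖) :=
      (continuous_cr (by fun_prop) (by fun_prop)).norm
    have d1 : ∀ᶠ z : Z8 in 𝓝 z₀, (σ₀ * vol z.2.2.2.2.2.1 (z.2.2.2.1 - z.2.1) z.2.2.2.2.2.2.2) *
        vol z.2.2.2.2.1 (z.2.2.1 - z.1) z.2.2.2.2.2.2.1 < 0 :=
      (((c1.const_mul σ₀).mul c2).tendsto z₀).eventually_lt_const hcon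
    have d2 : ∀ᶠ z : Z8 in 𝓝 z₀, vol z.2.2.2.2.1 (z.2.2.1 - z.1) z.2.2.2.2.2.2.1 ≠ 0 :=
      (c2.tendsto z₀).eventually_ne hvol
    have d3 := (c3.tendsto z₀).eventually_lt_const hnc1
    have d4 := (c4.tendsto z₀).eventually_const_lt hnc2
    filter_upwards [d1, d2, d3, d4] with z h1 h2 h3 h4
    exact ⟨h1, h2, h3, h4⟩
  obtain ⟨ε, hε, hball⟩ := Metric.eventually_nhds_iff.1 hopen
  have hxε := Metric.tendsto_nhds.1 hx ε hε
  have hx'ε := Metric.tendsto_nhds.1 hx' ε hε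
  have hyε := Metric.tendsto_nhds.1 hy ε hε
  have hy'ε := Metric.tendsto_nhds.1 hy' ε hε
  obtain ⟨N, h1, h2, h3, h4, h5, h6, h7⟩ :=
    (hxε.and (hx'ε.and (hyε.and (hy'ε.and ((hu ε hε).and ((hv ε hε).and hσ₀)))))).exists
  obtain ⟨l, hl, hl1, hl2⟩ := h5
  obtain ⟨k, hk, hk1, hk2⟩ := h6
  have hz := hball (y := (p N (s N), q N (s N), p N (t N), q N (t N),
    p N (child (N + 3) (s N) l) - p N (s N), q N (child (N + 3) (s N) l) - q N (s N),
    p N (child (N + 3) (t N) k) - p N (t N), q N (child (N + 3) (t N) k) - q N (t N))) (by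
      rw [hz₀]
      simp only [Prod.dist_eq, max_lt_iff]
      simp only [dist_eq_norm] at h1 h2 h3 h4 ⊢
      exact ⟨h1, h2, h3, h4, hl1, hl2, hk1, hk2⟩)
  obtain ⟨g1, g2, g3, g4⟩ := hz
  simp only at g1 g2 g3 g4
  have hst : s N ≠ t N := by
    intro h
    rw [h, sub_self] at g2
    apply g2
    rw [vol_eq]; simp
  have hsign := (hA N).sign (s N) (hs N) l hl (t N) (ht N) k hk hst ⟨ρ, hρ, τ, hτ, g3, g4⟩
  rw [h7] at hsign
  linarith

theorem no_approx
    (hdense : ∀ u : E3, ‖u‖ = 1 → ∀ ε > 0, ∃ n, ‖e n - u‖ < ε)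
    (hη : Tendsto η atTop (𝓝 0)) :
    ¬ ∀ N, ∃ p q σ, Approx e (N + 3) (η N) p q σ := by
  intro H
  choose p q σ hA using H
  -- the constant sign
  obtain ⟨σ₀, hσ₀1, hσ₀⟩ : ∃ σ₀ : ℝ, (σ₀ = 1 ∨ σ₀ = -1) ∧
      ∀ᶠ N in (hyperfilter ℕ : Filter ℕ), σ N = σ₀ := by
    have h1 : ∀ᶠ N in (hyperfilter ℕ : Filter ℕ), σ N = 1 ∨ σ N = -1 :=
      Eventually.of_forall fun N => (hA N).hσ
    rcases Ultrafilter.eventually_or.1 h1 with h | h
    · exact ⟨1, Or.inl rfl, h⟩
    · exact ⟨-1, Or.inr rfl, h⟩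
  have hpb : ∀ N, ∀ i < cnt (N + 3) 4, ‖p N i‖ ≤ 4 := by
    intro N i hi
    have := (hA N).norm_le (by omega) 4 le_rfl i hi
    simpa using this
  have hqb : ∀ N, ∀ i < cnt (N + 3) 4, ‖q N i‖ ≤ 5 := by
    intro N i hi
    have h1 := hpb N i hi
    have h2 := (hA N).close i hi
    have h3 := norm_add_le (q N i - p N i) (p N i)
    rw [sub_add_cancel] at h3
    linarith
  let Star := {s : ℕ → ℕ // ∀ N, s N < cnt (N + 3) 3}
  have hc : ∀ S : Star, ∃ a, Tendsto (fun N => p N (S.1 N)) (hyperfilter ℕ : Filter ℕ) (𝓝 a) :=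
    fun S => exists_ulim _ 4 (fun N => hpb N _ (lt_of_lt_of_le (S.2 N) cnt_mono))
  have hc' : ∀ S : Star, ∃ a, Tendsto (fun N => q N (S.1 N)) (hyperfilter ℕ : Filter ℕ) (𝓝 a) :=
    fun S => exists_ulim _ 5 (fun N => hqb N _ (lt_of_lt_of_le (S.2 N) cnt_mono))
  choose c hc using hc
  choose c' hc' using hc'
  have W : World Star c c' (fun S => RelU p q S.1) σ₀ := by
    refine ⟨hσ₀1, ?_, ?_, ?_, ?_, ?_, ?_, ?_, ?_, ?_, ?_, ?_⟩
    · intro S
      have h1 := ((hc' S).sub (hc S)).norm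
      exact le_of_tendsto h1 (Eventually.of_forall fun N =>
        (hA N).close _ (lt_of_lt_of_le (S.2 N) cnt_mono))
    · intro S
      have h1 := (hc S).norm
      refine le_of_tendsto h1 (Eventually.of_forall fun N => ?_)
      have := (hA N).norm_le (by omega) 3 (by norm_num) _ (S.2 N)
      simpa using this
    · intro S u u' h
      exact relU_unit hA S.2 h
    · intro S u u' h
      exact relU_unit' hA S.2 h
    · intro S u u' h
      exact relU_near hA S.2 h
    · intro S u u' v v' h h1 h2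
      exact relU_closed h h1 h2
    · intro S u hu
      exact relU_full hA hη hdense S.2 hu
    · intro S T u u' v v' hu hv hnc hpos
      have := relU_sign hA hσ₀ S.2 T.2 (hc S) (hc' S) (hc T) (hc' T) hu hv hnc hpos.ne'
      exact nonneg_of_mul_nonneg_left this hpos
    · intro S T u u' v v' hu hv hnc hneg
      have := relU_sign hA hσ₀ S.2 T.2 (hc S) (hc' S) (hc T) (hc' T) hu hv hnc hneg.ne
      by_contra hcon
      push Not at hcon
      have := mul_neg_of_pos_of_neg hcon hneg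
      linarith
    · intro x hx
      -- three unit vectors
      obtain ⟨a, ha1, ha2⟩ : ∃ a : E3, ‖a‖ = 1 ∧ ‖x - a‖ ≤ 2 := by
        by_cases h0 : x = 0
        · refine ⟨EuclideanSpace.single 0 1, by simp, ?_⟩
          rw [h0, zero_sub, norm_neg]; simp
        · refine ⟨nrm x, norm_nrm h0, ?_⟩
          have e1 : x - nrm x = (‖x‖ - 1) • nrm x := by
            rw [sub_smul, one_smul, nrm_smul_norm h0]
          rw [e1, norm_smul, norm_nrm h0, mul_one, Real.norm_eq_abs, abs_le]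
          constructor <;> linarith [norm_nonneg x]
      obtain ⟨b, hb1, hb2⟩ := two_units ha2
      obtain ⟨l₁, h11, h12⟩ := letters hdense hb1
      obtain ⟨l₂, h21, h22⟩ := letters hdense hb2
      obtain ⟨l₃, h31, h32⟩ := letters hdense ha1
      have hs2 := path2_lt h11 h21
      have hs2' : ∀ N, path2 l₁ l₂ N < cnt (N + 3) 3 :=
        fun N => lt_of_lt_of_le (hs2 N) cnt_mono
      refine ⟨⟨fun N => child (N + 3) (path2 l₁ l₂ N) (l₃ N), fun N => child_lt (hs2 N) (h31 N)⟩, ?_⟩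
      have e1 := path2_tendsto hA hη h11 h21 h12 h22
      have e2 := pdir_tendsto hA hη hs2' h31 h32
      have e3 := e1.add e2
      have e4 : b + (x - a - b) + a = x := by abel
      rw [e4] at e3
      simp only [add_sub_cancel] at e3
      exact tendsto_nhds_unique (hc ⟨fun N => child (N + 3) (path2 l₁ l₂ N) (l₃ N), _⟩)
        (e3.mono_left Nat.hyperfilter_le_atTop)
    · intro x f hx hf
      obtain ⟨b, hb1, hb2⟩ := two_units hx
      obtain ⟨l₁, h11, h12⟩ := letters hdense hb1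
      obtain ⟨l₂, h21, h22⟩ := letters hdense hb2
      obtain ⟨l₃, h31, h32⟩ := letters hdense hf
      have hs2 := path2_lt h11 h21
      have hs2' : ∀ N, path2 l₁ l₂ N < cnt (N + 3) 3 :=
        fun N => lt_of_lt_of_le (hs2 N) cnt_mono
      have e1 := path2_tendsto hA hη h11 h21 h12 h22
      have e2 := pdir_tendsto hA hη hs2' h31 h32
      have e3 := e1.add e2
      have e4 : b + (x - b) = x := by abel
      rw [e4] at e1 e3
      simp only [add_sub_cancel] at e3
      obtain ⟨u', hu'⟩ := exists_ulim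
        (fun N => q N (child (N + 3) (path2 l₁ l₂ N) (l₃ N)) - q N (path2 l₁ l₂ N)) 1
        (fun N => ((hA N).qunit _ (hs2' N) _ (h31 N)).le)
      refine ⟨⟨path2 l₁ l₂, hs2'⟩, ⟨fun N => child (N + 3) (path2 l₁ l₂ N) (l₃ N),
        fun N => child_lt (hs2 N) (h31 N)⟩, u', ?_, ?_, ?_, ?_⟩
      · exact tendsto_nhds_unique (hc ⟨path2 l₁ l₂, hs2'⟩)
          (e1.mono_left Nat.hyperfilter_le_atTop)
      · exact tendsto_nhds_unique (hc ⟨fun N => child (N + 3) (path2 l₁ l₂ N) (l₃ N), _⟩)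
          (e3.mono_left Nat.hyperfilter_le_atTop)
      · exact relU_of_tendsto h31 (e2.mono_left Nat.hyperfilter_le_atTop) hu'
      · have e5 := (hc' ⟨path2 l₁ l₂, hs2'⟩).add hu'
        simp only [add_sub_cancel] at e5
        exact tendsto_nhds_unique (hc' ⟨fun N => child (N + 3) (path2 l₁ l₂ N) (l₃ N), _⟩) e5
  obtain ⟨g, hg1, hg2⟩ := W.rigid
  -- the far vertices
  have hfar := fun N => (hA N).far g.symm
  choose i hi1 hi2 using hfar
  -- it suffices that along the ultrafilter `g⁻¹ q - p` tends to zero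
  have hgcont : Continuous g.symm := g.symm.continuous
  have hcontr : ¬ ∃ a, Tendsto (fun N => p N (i N)) (hyperfilter ℕ : Filter ℕ) (𝓝 a) ∧
      Tendsto (fun N => q N (i N)) (hyperfilter ℕ : Filter ℕ) (𝓝 (g a)) := by
    rintro ⟨a, h1, h2⟩
    have h3 := (hgcont.tendsto (g a)).comp h2
    rw [AffineIsometryEquiv.symm_apply_apply] at h3
    have h4 := (h3.sub h1).norm
    rw [sub_self, norm_zero] at h4
    have h5 := ge_of_tendsto h4 (Eventually.of_forall hi2)
    norm_num at h5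
  apply hcontr
  have hdich : ∀ᶠ N in (hyperfilter ℕ : Filter ℕ), i N = 0 ∨ 0 < i N :=
    Eventually.of_forall fun N => Nat.eq_zero_or_pos _
  rcases Ultrafilter.eventually_or.1 hdich with h0 | hpos
  · let S : Star := ⟨fun _ => 0, fun N => zero_lt_cnt⟩
    refine ⟨c S, ?_, ?_⟩
    · refine (hc S).congr' ?_
      filter_upwards [h0] with N hN
      rw [hN]
    · rw [← hg1 S]
      refine (hc' S).congr' ?_
      filter_upwards [h0] with N hN
      rw [hN]
  · set j : ℕ → ℕ := fun N => (i N - 1) / (N + 3) with hj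
    set l : ℕ → ℕ := fun N => (i N - 1) % (N + 3) with hl
    have hjlt : ∀ N, j N < cnt (N + 3) 3 := by
      intro N
      have h1 := hi1 N
      simp only [hj]
      apply Nat.div_lt_of_lt_mul
      rw [show (4 : ℕ) = 3 + 1 from rfl] at h1
      simp only [cnt] at h1 ⊢
      rcases Nat.eq_zero_or_pos (i N) with h | h
      · rw [h]; simp
      · omega
    have hllt : ∀ N, l N < N + 3 := fun N => Nat.mod_lt _ (by omega)
    have hchild : ∀ᶠ N in (hyperfilter ℕ : Filter ℕ), child (N + 3) (j N) (l N) = i N := by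
      filter_upwards [hpos] with N hN
      have := Nat.div_add_mod (i N - 1) (N + 3)
      simp only [child, hj, hl]
      omega
    let S : Star := ⟨j, hjlt⟩
    obtain ⟨u, hu⟩ := exists_ulim (fun N => p N (child (N + 3) (j N) (l N)) - p N (j N)) 1
        (fun N => ((hA N).punit _ (hjlt N) _ (hllt N)).le)
    obtain ⟨u', hu'⟩ := exists_ulim (fun N => q N (child (N + 3) (j N) (l N)) - q N (j N)) 1
        (fun N => ((hA N).qunit _ (hjlt N) _ (hllt N)).le)
    have hrel : RelU p q S.1 u u' := relU_of_tendsto hllt hu hu'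
    have h1 := hg2 S u u' hrel
    have h2 := hg1 S
    refine ⟨c S + u, ?_, ?_⟩
    · have e5 := (hc S).add hu
      simp only [S, add_sub_cancel] at e5
      refine e5.congr' ?_
      filter_upwards [hchild] with N hN
      rw [hN]
    · have e5 := (hc' S).add hu'
      simp only [S, add_sub_cancel] at e5
      have e6 : g (c S + u) = c' S + u' := by
        rw [h1, h2]
        have := g.map_vadd (c S) u
        rw [vadd_eq_add, vadd_eq_add] at this
        rw [add_comm (c S) u, this, add_comm]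
      rw [e6]
      refine e5.congr' ?_
      filter_upwards [hchild] with N hN
      rw [hN]

end main

end Pool.Agent.LockedTree
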