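import Pool.Agent.LockedTree.Single

set_option autoImplicit false

/-!
# Images of crossing spikes are coplanar; overlapping spikes have collinear images
-/

namespace Pool.Agent.LockedTree

open Filter Topology

variable {Star : Type} {c c' : Star → E3} {Rel : Star → E3 → E3 → Prop} {σ : ℝ}

lemma inner_cr_cr (a b x y : E3) : inner ℝ (cr a b) (cr x y) =
    inner ℝ a x * inner ℝ b y - inner ℝ a y * inner ℝ b x := by
  simp only [inner_eq, cr_0, cr_1, cr_2]; ring

lemma cr_cr_same (a b x : E3) : cr (cr a b) (cr a x) = vol a b x • a := by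
  apply ext3 <;> simp [cr_0, cr_1, cr_2, vol_eq] <;> ring

lemma vol_self_cr (u w : E3) : vol u w (cr u w) = ‖cr u w‖ ^ 2 := by
  unfold vol; rw [real_inner_self_eq_norm_sq]

/-- Three auxiliary centres near `x` in general position with respect to the direction `u`. -/
lemma axes_exist {x u : E3} (hx : ‖x‖ ≤ 3) (hu : ‖u‖ = 1) :
    ∃ d : Fin 3 → E3, (∀ j, ‖d j‖ ≤ 3) ∧ (∀ j, ‖d j - x‖ ≤ 1 / 4) ∧
      (∀ j, 1 / 8 ≤ ‖cr u (d j - x)‖) ∧
      (∀ i j, i ≠ j → 3 / 320 ≤ |vol u (d i - x) (d j - x)|) := by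
  obtain ⟨m, hm0, hmu, -⟩ := exists_normal u u
  set n : E3 := -((1 / 3 : ℝ) • x) with hn
  have hnn : ‖n‖ ≤ 1 := by
    rw [hn, norm_neg, norm_smul]; norm_num; linarith
  -- g
  obtain ⟨g, hg1, hgu, hgn⟩ : ∃ g : E3, ‖g‖ = 1 ∧ inner ℝ g u = 0 ∧ 0 ≤ inner ℝ g n := by
    have h1 : inner ℝ (nrm m) u = 0 := by
      unfold nrm; rw [inner_smul_left, hmu]; simp
    rcases le_total 0 (inner ℝ (nrm m) n) with h | h
    · exact ⟨nrm m, norm_nrm hm0, h1, h⟩
    · refine ⟨- nrm m, by rw [norm_neg]; exact norm_nrm hm0, ?_, ?_⟩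
      · rw [inner_neg_left, h1, neg_zero]
      · rw [inner_neg_left]; linarith
  have hgg : inner ℝ g g = 1 := by rw [real_inner_self_eq_norm_sq, hg1]; norm_num
  have hug : inner ℝ u g = 0 := by rw [real_inner_comm]; exact hgu
  -- f
  obtain ⟨s, hs, f, hfs, hfn⟩ : ∃ s : ℝ, (s = 1 ∨ s = -1) ∧ ∃ f : E3, f = s • cr u g ∧
      0 ≤ inner ℝ f n := by
    rcases le_total 0 (inner ℝ (cr u g) n) with h | h
    · exact ⟨1, Or.inl rfl, cr u g, by simp, h⟩
    · refine ⟨-1, Or.inr rfl, - cr u g, by simp, ?_⟩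
      rw [inner_neg_left]; linarith
  have hcrn : ‖cr u g‖ = 1 := by
    have := norm_cr_sq u g
    rw [hu, hg1, hug] at this
    have h2 : ‖cr u g‖ ^ 2 = 1 := by rw [this]; norm_num
    have h3 : (‖cr u g‖ - 1) * (‖cr u g‖ + 1) = 0 := by ring_nf; linarith
    rcases mul_eq_zero.1 h3 with h | h
    · linarith
    · have := norm_nonneg (cr u g); linarith
  have hss : s * s = 1 := by rcases hs with h | h <;> rw [h] <;> norm_num
  have hsabs : |s| = 1 := by rcases hs with h | h <;> rw [h] <;> norm_num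
  have hf1 : ‖f‖ = 1 := by rw [hfs, norm_smul, Real.norm_eq_abs, hsabs, hcrn, one_mul]
  have hff : inner ℝ f f = 1 := by rw [real_inner_self_eq_norm_sq, hf1]; norm_num
  have huf : inner ℝ u f = 0 := by
    rw [hfs, inner_smul_right, real_inner_comm, inner_cr_left_self, mul_zero]
  have hgf : inner ℝ g f = 0 := by
    rw [hfs, inner_smul_right, real_inner_comm, inner_cr_right_self, mul_zero]
  have hfg : inner ℝ f g = 0 := by rw [real_inner_comm]; exact hgf
  -- the planar determinant formula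
  have hvol : ∀ y z : E3, vol u y z =
      s * (inner ℝ y g * inner ℝ z f - inner ℝ y f * inner ℝ z g) := by
    intro y z
    have h1 := inner_cr_cr y z g (cr u g)
    have h2 : cr g (cr u g) = u := by
      rw [cr_cr, hgg, hgu]; simp
    rw [h2] at h1
    have h3 : inner ℝ (cr y z) u = vol u y z := by
      simp only [vol_eq, inner_eq, cr_0, cr_1, cr_2]; ring
    rw [h3] at h1
    rw [h1, hfs, inner_smul_right, inner_smul_right]
    linear_combination -(inner ℝ y g * inner ℝ z (cr u g) -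
      inner ℝ y (cr u g) * inner ℝ z g) * hss
  set a := inner ℝ n g with ha
  set b := inner ℝ n f with hb
  have ha0 : 0 ≤ a := by rw [ha, real_inner_comm]; exact hgn
  have hb0 : 0 ≤ b := by rw [hb, real_inner_comm]; exact hfn
  set h : Fin 3 → E3 := ![g, f, (3 / 5 : ℝ) • g + (4 / 5 : ℝ) • f] with hh
  have hh0 : h 0 = g := rfl
  have hh1 : h 1 = f := rfl
  have hh2 : h 2 = (3 / 5 : ℝ) • g + (4 / 5 : ℝ) • f := rfl
  -- properties of the h j
  have hunit : ∀ j, inner ℝ (h j) (h j) = 1 := by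
    intro j
    fin_cases j
    · exact hgg
    · exact hff
    · change inner ℝ ((3 / 5 : ℝ) • g + (4 / 5 : ℝ) • f) ((3 / 5 : ℝ) • g + (4 / 5 : ℝ) • f) = 1
      simp only [inner_add_left, inner_add_right, inner_smul_left, inner_smul_right, hgg, hff,
        hgf, hfg]
      norm_num
  have hperp : ∀ j, inner ℝ u (h j) = 0 := by
    intro j
    fin_cases j
    · exact hug
    · exact huf
    · change inner ℝ u ((3 / 5 : ℝ) • g + (4 / 5 : ℝ) • f) = 0
      simp only [inner_add_right, inner_smul_right, hug, huf]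
      norm_num
  have hnonneg : ∀ j, 0 ≤ inner ℝ (h j) n := by
    intro j
    fin_cases j
    · exact hgn
    · exact hfn
    · change 0 ≤ inner ℝ ((3 / 5 : ℝ) • g + (4 / 5 : ℝ) • f) n
      simp only [inner_add_left, inner_smul_left]
      have : (starRingEnd ℝ) (3 / 5 : ℝ) = 3 / 5 := rfl
      have h2 : (starRingEnd ℝ) (4 / 5 : ℝ) = 4 / 5 := rfl
      rw [this, h2]
      positivity
  have hnorm : ∀ j, ‖h j‖ = 1 := by
    intro j
    have h1 := real_inner_self_eq_norm_sq (h j)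
    rw [hunit] at h1
    have h3 : (‖h j‖ - 1) * (‖h j‖ + 1) = 0 := by ring_nf; linarith
    rcases mul_eq_zero.1 h3 with h4 | h4
    · linarith
    · have := norm_nonneg (h j); linarith
  have hwx : ∀ j, (x + (1 / 8 : ℝ) • (h j + n)) - x = (1 / 8 : ℝ) • (h j + n) := by
    intro j; abel
  refine ⟨fun j => x + (1 / 8 : ℝ) • (h j + n), ?_, ?_, ?_, ?_⟩
  · intro j
    have e : x + (1 / 8 : ℝ) • (h j + n) = (23 / 24 : ℝ) • x + (1 / 8 : ℝ) • h j := by
      rw [hn]; module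
    simp only
    rw [e]
    refine (norm_add_le _ _).trans ?_
    rw [norm_smul, norm_smul, hnorm]
    norm_num
    linarith
  · intro j
    simp only
    rw [hwx, norm_smul]
    have := norm_add_le (h j) n
    rw [hnorm] at this
    norm_num
    linarith
  · intro j
    simp only
    rw [hwx, cr_smul_right, norm_smul]
    have h1 := norm_cr_sq u (h j + n)
    rw [hu, @norm_add_sq_real, hnorm, inner_add_right, hperp] at h1
    have h2 : (inner ℝ u n) ^ 2 ≤ ‖n‖ ^ 2 := by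
      have := abs_real_inner_le_norm u n
      rw [hu, one_mul] at this
      rw [← sq_abs]
      exact pow_le_pow_left₀ (abs_nonneg _) this 2
    have h3 : 1 ≤ ‖cr u (h j + n)‖ ^ 2 := by
      rw [h1]
      have := hnonneg j
      nlinarith
    have h4 : 1 ≤ ‖cr u (h j + n)‖ := by
      by_contra hcon
      push Not at hcon
      have := norm_nonneg (cr u (h j + n))
      nlinarith
    norm_num
    linarith
  · intro i j hij
    simp only
    rw [hwx, hwx, vol_smul_2, vol_smul_3, hvol]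
    have hsc : ∀ t : ℝ, |1 / 8 * (1 / 8 * (s * t))| = 1 / 64 * |t| := by
      intro t
      rw [abs_mul, abs_mul, abs_mul, hsabs]
      norm_num
      ring
    rw [hsc]
    have hg' : inner ℝ (h 0 + n) g = 1 + a := by rw [hh0, inner_add_left, hgg]
    have hf' : inner ℝ (h 0 + n) f = b := by rw [hh0, inner_add_left, hgf, zero_add]
    have hg'' : inner ℝ (h 1 + n) g = a := by rw [hh1, inner_add_left, hfg, zero_add]
    have hf'' : inner ℝ (h 1 + n) f = 1 + b := by rw [hh1, inner_add_left, hff]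
    have e3 : inner ℝ (h 2) g = 3 / 5 := by
      rw [hh2, inner_add_left, inner_smul_left, inner_smul_left, hgg, hfg]
      norm_num
    have e4 : inner ℝ (h 2) f = 4 / 5 := by
      rw [hh2, inner_add_left, inner_smul_left, inner_smul_left, hgf, hff]
      norm_num
    have hg3 : inner ℝ (h 2 + n) g = 3 / 5 + a := by rw [inner_add_left, e3]
    have hf3 : inner ℝ (h 2 + n) f = 4 / 5 + b := by rw [inner_add_left, e4]
    have hD01 : 3 / 5 ≤ |inner ℝ (h 0 + n) g * inner ℝ (h 1 + n) f -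
        inner ℝ (h 0 + n) f * inner ℝ (h 1 + n) g| := by
      rw [hg', hf', hg'', hf'', le_abs]
      left
      have : (1 + a) * (1 + b) - b * a = 1 + a + b := by ring
      rw [this]; linarith
    have hD02 : 3 / 5 ≤ |inner ℝ (h 0 + n) g * inner ℝ (h 2 + n) f -
        inner ℝ (h 0 + n) f * inner ℝ (h 2 + n) g| := by
      rw [hg', hf', hg3, hf3, le_abs]
      left
      have : (1 + a) * (4 / 5 + b) - b * (3 / 5 + a) = 4 / 5 + 4 / 5 * a + 2 / 5 * b := by ring
      rw [this]; linarith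
    have hD12 : 3 / 5 ≤ |inner ℝ (h 1 + n) g * inner ℝ (h 2 + n) f -
        inner ℝ (h 1 + n) f * inner ℝ (h 2 + n) g| := by
      rw [hg'', hf'', hg3, hf3, le_abs]
      right
      have : -(a * (4 / 5 + b) - (1 + b) * (3 / 5 + a)) = 3 / 5 + 1 / 5 * a + 3 / 5 * b := by ring
      rw [this]; linarith
    have hsymm : ∀ i j : Fin 3, |inner ℝ (h i + n) g * inner ℝ (h j + n) f -
        inner ℝ (h i + n) f * inner ℝ (h j + n) g| = |inner ℝ (h j + n) g * inner ℝ (h i + n) f -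
        inner ℝ (h j + n) f * inner ℝ (h i + n) g| := by
      intro i j
      rw [← abs_neg]
      congr 1
      ring
    have key : 3 / 5 ≤ |inner ℝ (h i + n) g * inner ℝ (h j + n) f -
        inner ℝ (h i + n) f * inner ℝ (h j + n) g| := by
      have hcases : ∀ i j : Fin 3, i ≠ j → (i = 0 ∧ j = 1) ∨ (i = 1 ∧ j = 0) ∨ (i = 0 ∧ j = 2) ∨
          (i = 2 ∧ j = 0) ∨ (i = 1 ∧ j = 2) ∨ (i = 2 ∧ j = 1) := by decide
      rcases hcases i j hij with ⟨rfl, rfl⟩ | ⟨rfl, rfl⟩ | ⟨rfl, rfl⟩ | ⟨rfl, rfl⟩ | ⟨rfl, rfl⟩ |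
        ⟨rfl, rfl⟩
      · exact hD01
      · rw [hsymm]; exact hD01
      · exact hD02
      · rw [hsymm]; exact hD02
      · exact hD12
      · rw [hsymm]; exact hD12
    linarith

lemma World.axes (W : World Star c c' Rel σ) (S : Star) {u : E3} (hu : ‖u‖ = 1) :
    ∃ T : Fin 3 → Star, (∀ j, ‖c (T j) - c S‖ ≤ 1 / 4) ∧
      (∀ j, 1 / 8 ≤ ‖cr u (c (T j) - c S)‖) ∧
      (∀ i j, i ≠ j → 3 / 320 ≤ |vol u (c (T i) - c S) (c (T j) - c S)|) := by
  obtain ⟨d, h1, h2, h3, h4⟩ := axes_exist (W.ball S) hu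
  choose T hT using fun j => W.exist (d j) (h1 j)
  exact ⟨T, fun j => by rw [hT]; exact h2 j, fun j => by rw [hT]; exact h3 j,
    fun i j hij => by rw [hT, hT]; exact h4 i j hij⟩

/-- **Single-valuedness**: each spike has exactly one image. -/
theorem World.single (W : World Star c c' Rel σ) {S : Star} {u p q : E3} (hp : Rel S u p)
    (hq : Rel S u q) : p = q := by
  have hu := W.rel_unit _ _ _ hp
  obtain ⟨T, h1, h2, h3⟩ := W.axes S hu
  have hpu : ‖p - u‖ ≤ 1 / 1000 := (W.rel_near _ _ _ hp).trans (by norm_num)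
  have hqu : ‖q - u‖ ≤ 1 / 1000 := (W.rel_near _ _ _ hq).trans (by norm_num)
  have e1 := W.axis_eq hu (h1 0) (h2 0) (h1 1) (h2 1) (h1 2) (h2 2)
    (h3 1 0 (by decide)) (h3 2 0 (by decide)) (h3 1 2 (by decide)) hp hq
  have e1' := W.axis_eq hu (h1 0) (h2 0) (h1 1) (h2 1) (h1 2) (h2 2)
    (h3 1 0 (by decide)) (h3 2 0 (by decide)) (h3 1 2 (by decide)) hq hp
  have e2 := W.axis_eq hu (h1 1) (h2 1) (h1 0) (h2 0) (h1 2) (h2 2)
    (h3 0 1 (by decide)) (h3 2 1 (by decide)) (h3 0 2 (by decide)) hp hq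
  have e2' := W.axis_eq hu (h1 1) (h2 1) (h1 0) (h2 0) (h1 2) (h2 2)
    (h3 0 1 (by decide)) (h3 2 1 (by decide)) (h3 0 2 (by decide)) hq hp
  have hT : ∀ j, ∀ x : E3, ‖x - u‖ ≤ 1 / 1000 →
      0 < vol x (c' (T j) - c' S) (cr u (c (T j) - c S)) := fun j x hx =>
    lt_trans (by norm_num) (T_pos hu (h1 j) (h2 j) (W.diff_near S (T j)) hx)
  have f1 := (az_eq_iff W.hσ (hT 0 u (by simp)) (hT 0 p hpu) (hT 0 q hqu)).1 (le_antisymm e1 e1')
  have f2 := (az_eq_iff W.hσ (hT 1 u (by simp)) (hT 1 p hpu) (hT 1 q hqu)).1 (le_antisymm e2 e2')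
  exact (eq_of_two_axes hu (W.rel_unit' _ _ _ hp) (W.rel_unit' _ _ _ hq) hpu hqu (h1 0) (h1 1)
    (h3 0 1 (by decide)) (W.diff_near S (T 0)) (W.diff_near S (T 1)) f1 f2).symm

lemma continuous_vol_1 (y z : E3) : Continuous (fun x : E3 => vol x y z) := by
  have : (fun x : E3 => vol x y z) = fun x => ((x 1 * y 2 - x 2 * y 1)
          * z 0 + (x 2 * y 0 - x 0 * y 2) * z 1 + (x 0 * y 1 - x 1 * y 0) * z 2) := by
    funext x'; rw [vol_eq]
  rw [this]; fun_prop

lemma continuous_cr_1 (y : E3) : Continuous (fun x : E3 => cr x y) := by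
  have h : (fun x : E3 => cr x y) = fun x => (WithLp.toLp 2 ![x 1 * y 2 - x 2 * y 1,
    x 2 * y 0 - x 0 * y 2, x 0 * y 1 - x 1 * y 0] : E3) := rfl
  rw [h]
  refine (PiLp.continuous_toLp 2 _).comp (continuous_pi fun i => ?_)
  fin_cases i
  · simp; fun_prop
  · simp; fun_prop
  · simp; fun_prop

/-- **Crossing spikes have coplanar images.** -/
theorem World.coplanar (W : World Star c c' Rel σ) {S T : Star} {u v u' v' : E3} {ρ τ : ℝ}
    (hρ : ρ ∈ Set.Icc (1 / 8 : ℝ) (7 / 8)) (hτ : τ ∈ Set.Icc (1 / 8 : ℝ) (7 / 8))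
    (hcross : c S + ρ • u = c T + τ • v) (hang : 1 / 10 < ‖cr u v‖)
    (hu' : Rel S u u') (hv' : Rel T v v') : vol u' (c' T - c' S) v' = 0 := by
  have hu := W.rel_unit _ _ _ hu'
  set k := cr u v with hk
  have hkpos : 0 < ‖k‖ := lt_trans (by norm_num) hang
  have hw : c T - c S = ρ • u - τ • v := by
    have : c T = c S + ρ • u - τ • v := by rw [hcross]; abel
    rw [this]; abel
  have hmain : ∀ s : ℝ, (s = 1 ∨ s = -1) → 0 ≤ s * (σ * vol u' (c' T - c' S) v') := by
    intro s hs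
    obtain ⟨x', hx'1, hx'2⟩ := W.cluster S u (fun x' => s * (σ * vol x' (c' T - c' S) v'))
      (by have := continuous_vol_1 (c' T - c' S) v'; fun_prop) (by
      intro ε hε
      have hcont : ContinuousAt (fun η : ℝ => nrm (u + (s * η) • k)) 0 := by
        unfold nrm
        refine ContinuousAt.fun_smul ?_ (by fun_prop)
        refine ContinuousAt.inv₀ (by fun_prop) ?_
        simp [hu]
      have h1 := hcont.tendsto
      simp only [mul_zero, zero_smul, add_zero, nrm_eq_self hu] at h1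
      have h2 : ∀ᶠ η in 𝓝[>] (0 : ℝ), dist (nrm (u + (s * η) • k)) u < min ε (1 / 100000) :=
        (Metric.tendsto_nhds.1 h1 _ (by positivity)).filter_mono nhdsWithin_le_nhds
      have h3 : ∀ᶠ η in 𝓝[>] (0 : ℝ), 1 / 10 < ‖cr (nrm (u + (s * η) • k)) v‖ := by
        have h4 := ((continuous_cr_1 v).tendsto u).comp h1
        have h5 := h4.norm
        exact (h5.eventually_const_lt hang).filter_mono nhdsWithin_le_nhds
      have h6 : ∀ᶠ η in 𝓝[>] (0 : ℝ), u + (s * η) • k ≠ 0 := by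
        have h7 : ContinuousAt (fun η : ℝ => u + (s * η) • k) 0 := by fun_prop
        have h8 := h7.tendsto
        simp only [mul_zero, zero_smul, add_zero] at h8
        refine (h8.eventually_ne ?_).filter_mono nhdsWithin_le_nhds
        intro h0; rw [h0, norm_zero] at hu; norm_num at hu
      obtain ⟨η, h7, h8, h9, h10⟩ := (h2.and (h3.and (h6.and self_mem_nhdsWithin))).exists
      have hη : 0 < η := h10
      obtain ⟨x', hx'⟩ := W.full S _ (norm_nrm h9)
      rw [dist_eq_norm] at h7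
      refine ⟨_, x', lt_of_lt_of_le h7 (min_le_left _ _), hx', ?_⟩
      have hnc : NC (c S) (nrm (u + (s * η) • k)) (c T) v := by
        refine ⟨ρ, hρ, τ, hτ, ?_, h8⟩
        rw [← hcross]
        have e : c S + ρ • nrm (u + (s * η) • k) - (c S + ρ • u) =
            ρ • (nrm (u + (s * η) • k) - u) := by
          rw [smul_sub]; abel
        rw [e, norm_smul, Real.norm_eq_abs, abs_of_nonneg (by linarith [hρ.1])]
        have h11 := lt_of_lt_of_le h7 (min_le_right _ _)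
        have h12 := norm_nonneg (nrm (u + (s * η) • k) - u)
        nlinarith [hρ.1, hρ.2]
      have hvol : vol (nrm (u + (s * η) • k)) (c T - c S) v =
          s * (‖u + (s * η) • k‖⁻¹ * (ρ * η * ‖k‖ ^ 2)) := by
        unfold nrm
        rw [vol_smul_1, hw, vol_sub_2, vol_smul_2, vol_smul_2, vol_self_23, vol_add_1,
          vol_self_12, vol_smul_1]
        have : vol k u v = ‖k‖ ^ 2 := by
          rw [← vol_self_cr u v, hk]
          simp only [vol_eq]; ring
        rw [this]; ring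
      have hpos : 0 < ‖u + (s * η) • k‖⁻¹ * (ρ * η * ‖k‖ ^ 2) := by
        have := norm_pos_iff.2 h9
        have := hρ.1
        have h13 : 0 < ρ := by linarith
        positivity
      rcases hs with h | h
      · have h14 := W.sp_pos S T _ _ _ _ hx' hv' hnc (by rw [hvol, h, one_mul]; rw [h] at hpos; exact hpos)
        rw [h, one_mul]; exact h14
      · have h14 := W.sp_neg S T _ _ _ _ hx' hv' hnc (by rw [hvol, h]; rw [h] at hpos; linarith)
        rw [h]; linarith)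
    have := W.single hx'1 hu'
    rw [this] at hx'2
    exact hx'2
  have h1 := hmain 1 (Or.inl rfl)
  have h2 := hmain (-1) (Or.inr rfl)
  have h3 : σ * vol u' (c' T - c' S) v' = 0 := by linarith
  rcases W.hσ with h | h <;> rw [h] at h3 <;> linarith

/-- vectors perpendicular to `P` are perpendicular to everything parallel to `P` -/
lemma perp_of_par {P n X : E3} (hP : P ≠ 0) (h : cr P n = 0) (hX : inner ℝ P X = 0) :
    inner ℝ n X = 0 := by
  have h1 := cr_cr X P n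
  rw [h, cr_zero_right, real_inner_comm P X, hX, zero_smul, sub_zero] at h1
  have := (smul_eq_zero.1 h1.symm).resolve_right hP
  rw [real_inner_comm]; exact this

/-- The plane of two overlapping spikes as seen from a third star. -/
lemma World.plane_aux (W : World Star c c' Rel σ) {S S' T : Star} {μ A B : E3} {l : ℝ}
    (hl : |l| ≤ 1 / 8) (hS' : c S' = c S + l • μ) (hA : Rel S μ A) (hB : Rel S' μ B)
    (hw : ‖c T - c S‖ ≤ 1 / 4) (hc : 1 / 8 ≤ ‖cr μ (c T - c S)‖) :
    inner ℝ B (cr A (c' T - c' S)) = 0 ∧ inner ℝ (c' S' - c' S) (cr A (c' T - c' S)) = 0 := by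
  have hμ := W.rel_unit _ _ _ hA
  set w := c T - c S with hwdef
  set y₁ : E3 := (1 / 2 : ℝ) • μ - w with hy₁
  set y₂ : E3 := (5 / 8 : ℝ) • μ - w with hy₂
  have hl' := abs_le.1 hl
  have hylo : ∀ r : ℝ, 1 / 2 ≤ r → 1 / 4 ≤ ‖r • μ - w‖ := by
    intro r hr
    have h1 := norm_sub_norm_le (r • μ) w
    rw [norm_smul, hμ, Real.norm_eq_abs, abs_of_pos (by linarith)] at h1
    linarith
  have hyhi : ∀ r : ℝ, 0 ≤ r → ‖r • μ - w‖ ≤ r + 1 / 4 := by
    intro r hr
    have h1 := norm_sub_le (r • μ) w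
    rw [norm_smul, hμ, Real.norm_eq_abs, abs_of_nonneg hr] at h1
    linarith
  have hy₁lo : 1 / 4 ≤ ‖y₁‖ := hylo _ (by norm_num)
  have hy₂lo : 1 / 4 ≤ ‖y₂‖ := hylo _ (by norm_num)
  have hy₁hi : ‖y₁‖ ≤ 3 / 4 := (hyhi _ (by norm_num)).trans (by norm_num)
  have hy₂hi : ‖y₂‖ ≤ 7 / 8 := (hyhi _ (by norm_num)).trans (by norm_num)
  have hy₁0 : y₁ ≠ 0 := by rintro h; rw [h, norm_zero] at hy₁lo; norm_num at hy₁lo
  have hy₂0 : y₂ ≠ 0 := by rintro h; rw [h, norm_zero] at hy₂lo; norm_num at hy₂lo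
  obtain ⟨V₁, hV₁⟩ := W.full T (nrm y₁) (norm_nrm hy₁0)
  obtain ⟨V₂, hV₂⟩ := W.full T (nrm y₂) (norm_nrm hy₂0)
  -- angles
  have hang : ∀ y : E3, y ≠ 0 → ‖y‖ ≤ 7 / 8 → cr μ y = - cr μ w → 1 / 10 < ‖cr μ (nrm y)‖ := by
    intro y hy0 hy hcr
    have h0 : cr μ y = ‖y‖ • cr μ (nrm y) := by rw [← cr_smul_right, nrm_smul_norm hy0]
    have h1 : ‖cr μ y‖ = ‖y‖ * ‖cr μ (nrm y)‖ := by
      rw [h0, norm_smul, norm_norm]
    rw [hcr, norm_neg] at h1
    by_contra hcon
    push Not at hcon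
    have : ‖y‖ * ‖cr μ (nrm y)‖ ≤ 7 / 8 * (1 / 10) :=
      mul_le_mul hy hcon (norm_nonneg _) (by norm_num)
    linarith
  have hcr₁ : cr μ y₁ = - cr μ w := by
    rw [hy₁, cr_sub_right, cr_smul_right, cr_self]; simp
  have hcr₂ : cr μ y₂ = - cr μ w := by
    rw [hy₂, cr_sub_right, cr_smul_right, cr_self]; simp
  have hang₁ := hang y₁ hy₁0 (hy₁hi.trans (by norm_num)) hcr₁
  have hang₂ := hang y₂ hy₂0 hy₂hi hcr₂
  -- the crossing relations
  have hX₁ : c S + (1 / 2 : ℝ) • μ = c T + ‖y₁‖ • nrm y₁ := by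
    rw [nrm_smul_norm hy₁0, hy₁, hwdef]; abel
  have hX₂ : c S + (5 / 8 : ℝ) • μ = c T + ‖y₂‖ • nrm y₂ := by
    rw [nrm_smul_norm hy₂0, hy₂, hwdef]; abel
  have hX₁' : c S' + (1 / 2 - l) • μ = c T + ‖y₁‖ • nrm y₁ := by
    rw [← hX₁, hS']; module
  have hX₂' : c S' + (5 / 8 - l) • μ = c T + ‖y₂‖ • nrm y₂ := by
    rw [← hX₂, hS']; module
  have hP₁ : vol A (c' T - c' S) V₁ = 0 :=
    W.coplanar ⟨by norm_num, by norm_num⟩ ⟨by linarith, by linarith⟩ hX₁ hang₁ hA hV₁
  have hP₂ : vol A (c' T - c' S) V₂ = 0 :=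
    W.coplanar ⟨by norm_num, by norm_num⟩ ⟨by linarith, by linarith⟩ hX₂ hang₂ hA hV₂
  have hQ₁ : vol B (c' T - c' S') V₁ = 0 :=
    W.coplanar ⟨by linarith [hl'.2], by linarith [hl'.1]⟩ ⟨by linarith, by linarith⟩ hX₁'
      hang₁ hB hV₁
  have hQ₂ : vol B (c' T - c' S') V₂ = 0 :=
    W.coplanar ⟨by linarith [hl'.2], by linarith [hl'.1]⟩ ⟨by linarith, by linarith⟩ hX₂'
      hang₂ hB hV₂
  set n := cr V₁ V₂ with hn
  set P := cr A (c' T - c' S) with hP
  set Q := cr B (c' T - c' S') with hQ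
  have hPn : cr P n = 0 := by
    rw [hn, cr_cr]
    have e1 : inner ℝ P V₂ = 0 := hP₂
    have e2 : inner ℝ P V₁ = 0 := hP₁
    rw [e1, e2]; simp
  have hQn : cr Q n = 0 := by
    rw [hn, cr_cr]
    have e1 : inner ℝ Q V₂ = 0 := hQ₂
    have e2 : inner ℝ Q V₁ = 0 := hQ₁
    rw [e1, e2]; simp
  -- nonvanishing
  have hAμ := W.rel_near _ _ _ hA
  have hBμ := W.rel_near _ _ _ hB
  have hAn := W.rel_unit' _ _ _ hA
  have hBn := W.rel_unit' _ _ _ hB
  have hQ0 : Q ≠ 0 := by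
    intro h0
    have h1 := cr_perturb μ (c T - c S') B (c' T - c' S')
    rw [← hQ, h0, zero_sub, norm_neg] at h1
    have e1 : c T - c S' = w - l • μ := by rw [hS', hwdef]; abel
    have e2 : cr μ (c T - c S') = cr μ w := by
      rw [e1, cr_sub_right, cr_smul_right, cr_self]; simp
    rw [e2, hBn, one_mul] at h1
    have h2 := W.diff_near S' T
    have h3 : ‖c T - c S'‖ ≤ 3 / 8 := by
      rw [e1]
      refine (norm_sub_le _ _).trans ?_
      rw [norm_smul, hμ, Real.norm_eq_abs]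
      linarith
    have h4 : ‖B - μ‖ * ‖c T - c S'‖ ≤ 4 / 100000 * (3 / 8) := by gcongr
    linarith
  have hn0 : n ≠ 0 := by
    intro h0
    have h1 := cr_perturb (nrm y₁) (nrm y₂) V₁ V₂
    rw [← hn, h0, zero_sub, norm_neg, norm_nrm hy₂0, W.rel_unit' _ _ _ hV₁, mul_one, one_mul]
      at h1
    have h2 := W.rel_near _ _ _ hV₁
    have h3 := W.rel_near _ _ _ hV₂
    have h4 : cr y₁ y₂ = (1 / 8 : ℝ) • cr μ w := by
      rw [hy₁, hy₂]
      apply ext3 <;> simp [cr_0, cr_1, cr_2] <;> ring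
    have h5 : cr y₁ y₂ = (‖y₁‖ * ‖y₂‖) • cr (nrm y₁) (nrm y₂) := by
      rw [mul_smul, ← cr_smul_right, ← cr_smul_left, nrm_smul_norm hy₁0, nrm_smul_norm hy₂0]
    have h6 : ‖cr y₁ y₂‖ = ‖y₁‖ * ‖y₂‖ * ‖cr (nrm y₁) (nrm y₂)‖ := by
      rw [h5, norm_smul, Real.norm_eq_abs, abs_of_nonneg (by positivity)]
    rw [h4, norm_smul, Real.norm_eq_abs, abs_of_pos (by norm_num)] at h6
    have h7 : ‖y₁‖ * ‖y₂‖ * ‖cr (nrm y₁) (nrm y₂)‖ ≤ 3 / 4 * (7 / 8) * (8 / 100000) := by
      have : ‖cr (nrm y₁) (nrm y₂)‖ ≤ 8 / 100000 := by linarith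
      gcongr
    norm_num at h7
    linarith
  have hnB : inner ℝ n B = 0 := perp_of_par hQ0 hQn (inner_cr_left_self _ _)
  have hnW : inner ℝ n (c' T - c' S') = 0 := perp_of_par hQ0 hQn (inner_cr_right_self _ _)
  have hnP : cr n P = 0 := by rw [cr_comm, hPn, neg_zero]
  have hPB : inner ℝ P B = 0 := perp_of_par hn0 hnP hnB
  have hPW : inner ℝ P (c' T - c' S') = 0 := perp_of_par hn0 hnP hnW
  have hPW' : inner ℝ P (c' T - c' S) = 0 := inner_cr_right_self _ _
  refine ⟨by rw [real_inner_comm]; exact hPB, ?_⟩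
  have e : c' S' - c' S = (c' T - c' S) - (c' T - c' S') := by abel
  rw [real_inner_comm, e, inner_sub_right, hPW, hPW', sub_zero]

/-- **Overlapping spikes have collinear images.** -/
theorem World.collinear (W : World Star c c' Rel σ) {S S' : Star} {μ A B : E3} {l : ℝ}
    (hl : |l| ≤ 1 / 8) (hS' : c S' = c S + l • μ) (hA : Rel S μ A) (hB : Rel S' μ B) :
    cr A B = 0 ∧ cr A (c' S' - c' S) = 0 := by
  have hμ := W.rel_unit _ _ _ hA
  obtain ⟨T, h1, h2, h3⟩ := W.axes S hμ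
  obtain ⟨hB0, hD0⟩ := W.plane_aux hl hS' hA hB (h1 0) (h2 0)
  obtain ⟨hB1, hD1⟩ := W.plane_aux hl hS' hA hB (h1 1) (h2 1)
  have hAn := W.rel_unit' _ _ _ hA
  have hvol : vol A (c' (T 0) - c' S) (c' (T 1) - c' S) ≠ 0 := by
    intro h0
    have e1 := abs_vol_sub_vol_le μ (c (T 0) - c S) (c (T 1) - c S) A (c' (T 0) - c' S)
      (c' (T 1) - c' S)
    rw [h0, zero_sub, abs_neg, hAn] at e1
    have e2 := h3 0 1 (by decide)
    have e3 := W.rel_near _ _ _ hA
    have e4 := W.diff_near S (T 0)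
    have e5 := W.diff_near S (T 1)
    have e6 : ‖c' (T 0) - c' S‖ ≤ 1 / 4 + 4 / 100000 := by
      have := norm_add_le ((c' (T 0) - c' S) - (c (T 0) - c S)) (c (T 0) - c S)
      rw [sub_add_cancel] at this
      linarith [h1 0]
    have f1 : ‖A - μ‖ * ‖c (T 0) - c S‖ * ‖c (T 1) - c S‖ ≤ 4 / 100000 * (1 / 4) * (1 / 4) := by
      have := h1 0
      have := h1 1
      gcongr
    have f2 : 1 * ‖(c' (T 0) - c' S) - (c (T 0) - c S)‖ * ‖c (T 1) - c S‖ ≤
        1 * (4 / 100000) * (1 / 4) := by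
      have := h1 1
      gcongr
    have f3 : 1 * ‖c' (T 0) - c' S‖ * ‖(c' (T 1) - c' S) - (c (T 1) - c S)‖ ≤
        1 * (1 / 4 + 4 / 100000) * (4 / 100000) := by
      gcongr
    norm_num at f1 f2 f3
    linarith
  have key : ∀ X : E3, inner ℝ X (cr A (c' (T 0) - c' S)) = 0 →
      inner ℝ X (cr A (c' (T 1) - c' S)) = 0 → cr A X = 0 := by
    intro X hX0 hX1
    have e := cr_cr X (cr A (c' (T 0) - c' S)) (cr A (c' (T 1) - c' S))
    rw [hX0, hX1, cr_cr_same, cr_smul_right] at e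
    simp only [zero_smul, sub_zero] at e
    have := (smul_eq_zero.1 e).resolve_left hvol
    rw [cr_comm, this, neg_zero]
  exact ⟨key B hB0 hB1, key _ hD0 hD1⟩

end Pool.Agent.LockedTree
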