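import Pool.Agent.LockedTree.Limit

set_option autoImplicit false

/-!
# Motions: robust crossings, constancy of signs, exit times
-/

namespace Pool.Agent.LockedTree

open Filter Topology

lemma decomp (A C Z : E3) : (‖cr A C‖ ^ 2) • Z = (inner ℝ (cr Z C) (cr A C)) • A +
    (inner ℝ (cr A Z) (cr A C)) • C + (inner ℝ (cr A C) Z) • cr A C := by
  have h : ‖cr A C‖ ^ 2 = (cr A C) 0 ^ 2 + (cr A C) 1 ^ 2 + (cr A C) 2 ^ 2 := norm_sq_eq _
  rw [h]
  apply ext3 <;> simp [cr_0, cr_1, cr_2, inner_eq] <;> ring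

/-- A coplanar configuration close to a near-crossing pair of unit segments really crosses. -/
lemma robust_cross {a b c d a' b' c' d' : E3} (hab' : ‖b' - a'‖ = 1) (hcd' : ‖d' - c'‖ = 1)
    (hcd : ‖d - c‖ = 1)
    (ha : ‖a' - a‖ ≤ 2 / 100000) (hb : ‖b' - b‖ ≤ 2 / 100000) (hc : ‖c' - c‖ ≤ 2 / 100000)
    (hd : ‖d' - d‖ ≤ 2 / 100000) (hnc : NC a (b - a) c (d - c))
    (hvol : vol (b' - a') (c' - a') (d' - c') = 0) :
    ∃ ρ τ : ℝ, 0 < ρ ∧ ρ < 1 ∧ 0 < τ ∧ τ < 1 ∧
      a' + ρ • (b' - a') = c' + τ • (d' - c') := by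
  obtain ⟨ρ, hρ, τ, hτ, h1, h2⟩ := hnc
  set A := b' - a' with hA
  set C := d' - c' with hC
  set n := cr A C with hn
  have hA' : ‖A - (b - a)‖ ≤ 4 / 100000 := by
    have : A - (b - a) = (b' - b) - (a' - a) := by rw [hA]; abel
    rw [this]
    exact (norm_sub_le _ _).trans (by linarith)
  have hC' : ‖C - (d - c)‖ ≤ 4 / 100000 := by
    have : C - (d - c) = (d' - d) - (c' - c) := by rw [hC]; abel
    rw [this]
    exact (norm_sub_le _ _).trans (by linarith)
  have hn1 : 1 / 20 ≤ ‖n‖ := by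
    have h3 := cr_perturb (b - a) (d - c) A C
    rw [hab', hcd, mul_one, one_mul] at h3
    have h4 := norm_sub_norm_le (cr (b - a) (d - c)) (cr A C)
    rw [norm_sub_rev] at h4
    rw [← hn] at h3 h4
    linarith
  have hnpos : 0 < ‖n‖ := by linarith
  set Z := (c' + τ • C) - (a' + ρ • A) with hZ
  have hZn : ‖Z‖ ≤ 5 / 100000 := by
    have e1 : Z = -((a + ρ • (b - a)) - (c + τ • (d - c))) +
        ((1 - τ) • (c' - c) + τ • (d' - d)) - ((1 - ρ) • (a' - a) + ρ • (b' - b)) := by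
      rw [hZ, hA, hC]; module
    rw [e1]
    have e2 : ‖(1 - τ) • (c' - c) + τ • (d' - d)‖ ≤ 2 / 100000 := by
      refine (norm_add_le _ _).trans ?_
      rw [norm_smul, norm_smul, Real.norm_eq_abs, Real.norm_eq_abs,
        abs_of_nonneg (by linarith [hτ.2]), abs_of_nonneg (by linarith [hτ.1])]
      nlinarith [hτ.1, hτ.2]
    have e3 : ‖(1 - ρ) • (a' - a) + ρ • (b' - b)‖ ≤ 2 / 100000 := by
      refine (norm_add_le _ _).trans ?_
      rw [norm_smul, norm_smul, Real.norm_eq_abs, Real.norm_eq_abs,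
        abs_of_nonneg (by linarith [hρ.2]), abs_of_nonneg (by linarith [hρ.1])]
      nlinarith [hρ.1, hρ.2]
    refine (norm_sub_le _ _).trans ?_
    have e4 := norm_add_le (-((a + ρ • (b - a)) - (c + τ • (d - c))))
      ((1 - τ) • (c' - c) + τ • (d' - d))
    rw [norm_neg] at e4
    linarith
  have hZperp : inner ℝ n Z = 0 := by
    have e1 : inner ℝ n Z = vol A C Z := rfl
    rw [e1, hZ, vol_sub_3, vol_add_3, vol_add_3, vol_smul_3, vol_smul_3, vol_self_23,
      vol_self_13]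
    have e2 : vol A C (c' - a') = 0 := by rw [vol_swap_23, hvol, neg_zero]
    rw [vol_sub_3] at e2
    linarith
  have hdec := decomp A C Z
  rw [← hn, hZperp, zero_smul, add_zero] at hdec
  set α := inner ℝ (cr Z C) n / ‖n‖ ^ 2 with hα
  set β := inner ℝ (cr A Z) n / ‖n‖ ^ 2 with hβ
  have hZdec : Z = α • A + β • C := by
    have h3 : (‖n‖ ^ 2)⁻¹ • ((‖n‖ ^ 2) • Z) = Z := by
      rw [smul_smul, inv_mul_cancel₀ (by positivity), one_smul]
    rw [← h3, hdec, smul_add, smul_smul, smul_smul, hα, hβ]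
    congr 2 <;> ring
  have hbound : ∀ t : ℝ, |t| ≤ ‖Z‖ * ‖n‖ → |t / ‖n‖ ^ 2| ≤ 1 / 1000 := by
    intro t ht
    rw [abs_div, abs_of_pos (show 0 < ‖n‖ ^ 2 by positivity), div_le_iff₀ (by positivity)]
    refine ht.trans ?_
    have : ‖Z‖ * ‖n‖ ≤ 5 / 100000 * ‖n‖ := by gcongr
    nlinarith
  have hα1 : |α| ≤ 1 / 1000 := by
    apply hbound
    refine (abs_real_inner_le_norm _ _).trans ?_
    have := norm_cr_le Z C
    rw [hcd', mul_one] at this
    gcongr
  have hβ1 : |β| ≤ 1 / 1000 := by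
    apply hbound
    refine (abs_real_inner_le_norm _ _).trans ?_
    have := norm_cr_le A Z
    rw [hab', one_mul] at this
    gcongr
  have ha1 := abs_le.1 hα1
  have hb1 := abs_le.1 hβ1
  refine ⟨ρ + α, τ - β, by linarith [hρ.1, ha1.1], by linarith [hρ.2, ha1.2],
    by linarith [hτ.1, hb1.2], by linarith [hτ.2, hb1.1], ?_⟩
  have e5 : a' + (ρ + α) • A = (a' + ρ • A) + Z - β • C := by
    rw [hZdec]; module
  rw [e5, hZ]
  module

lemma continuousOn_vol {X : Type*} [TopologicalSpace X] {s : Set X} {f g h : X → E3}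
    (hf : ContinuousOn f s) (hg : ContinuousOn g s) (hh : ContinuousOn h s) :
    ContinuousOn (fun x => vol (f x) (g x) (h x)) s := by
  rw [continuousOn_iff_continuous_domRestrict] at hf hg hh ⊢
  exact continuous_vol (f := s.domRestrict f) (g := s.domRestrict g) (h := s.domRestrict h) hf hg hh

variable {V : Type}

/-- Signs of near-crossing pairs are constant as long as the configuration stays close to a
congruent copy of the initial one. -/
lemma sign_const {G : SimpleGraph V} {f : ℝ → V → E3} (hf : ContinuousOn f (Set.Icc 0 1))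
    (hunit : ∀ t ∈ Set.Icc (0 : ℝ) 1, ∀ u v, G.Adj u v → dist (f t u) (f t v) = 1)
    (hcross : ∀ t ∈ Set.Icc (0 : ℝ) 1, ∀ a b c d, G.Adj a b → G.Adj c d → s(a, b) ≠ s(c, d) →
      ∀ x, x ∈ segment ℝ (f t a) (f t b) → x ∈ segment ℝ (f t c) (f t d) →
        ∃ w, (w = a ∨ w = b) ∧ (w = c ∨ w = d) ∧ x = f t w)
    {T : ℝ} (hT : T ∈ Set.Icc (0 : ℝ) 1)
    (hclose : ∀ s ∈ Set.Icc (0 : ℝ) T, ∃ g : E3 ≃ᵃⁱ[ℝ] E3, ∀ v,
      ‖g (f s v) - f 0 v‖ ≤ 2 / 100000)
    {a b c d : V} (hab : G.Adj a b) (hcd : G.Adj c d) (hne : s(a, b) ≠ s(c, d))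
    (hnc : NC (f 0 a) (f 0 b - f 0 a) (f 0 c) (f 0 d - f 0 c)) :
    0 < vol (f T b - f T a) (f T c - f T a) (f T d - f T c) *
      vol (f 0 b - f 0 a) (f 0 c - f 0 a) (f 0 d - f 0 c) := by
  set F : ℝ → ℝ := fun s => vol (f s b - f s a) (f s c - f s a) (f s d - f s c) with hF
  have hsub : Set.Icc (0 : ℝ) T ⊆ Set.Icc 0 1 := Set.Icc_subset_Icc_right hT.2
  have h0mem : (0 : ℝ) ∈ Set.Icc (0 : ℝ) 1 := ⟨le_rfl, zero_le_one⟩
  have hcont : ContinuousOn F (Set.Icc 0 T) := by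
    have hv : ∀ v, ContinuousOn (fun s => f s v) (Set.Icc 0 T) := fun v =>
      (continuousOn_pi.1 (hf.mono hsub) v)
    exact continuousOn_vol ((hv b).sub (hv a)) ((hv c).sub (hv a)) ((hv d).sub (hv c))
  have hnz : ∀ s ∈ Set.Icc (0 : ℝ) T, F s ≠ 0 := by
    intro s hs h0
    obtain ⟨g, hg⟩ := hclose s hs
    have hs1 := hsub hs
    have hun : ∀ u v, G.Adj u v → ‖f s v - f s u‖ = 1 := by
      intro u v huv
      have := hunit s hs1 u v huv
      rwa [dist_comm, dist_eq_norm] at this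
    have hgsub : ∀ x y : E3, g x - g y = g.linearIsometryEquiv (x - y) := by
      intro x y
      have := g.map_vsub x y
      simpa using this.symm
    obtain ⟨σ, -, hσ⟩ := vol_map g.linearIsometryEquiv
    have hgvol : vol (g (f s b) - g (f s a)) (g (f s c) - g (f s a)) (g (f s d) - g (f s c)) =
        0 := by
      rw [hgsub, hgsub, hgsub, hσ]
      rw [hF] at h0
      simp only at h0
      rw [h0, mul_zero]
    have hcd0 : ‖f 0 d - f 0 c‖ = 1 := by
      have := hunit 0 h0mem c d hcd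
      rwa [dist_comm, dist_eq_norm] at this
    obtain ⟨ρ, τ, hρ0, hρ1, hτ0, hτ1, hx⟩ := robust_cross
      (a := f 0 a) (b := f 0 b) (c := f 0 c) (d := f 0 d)
      (a' := g (f s a)) (b' := g (f s b)) (c' := g (f s c)) (d' := g (f s d))
      (by rw [hgsub, LinearIsometryEquiv.norm_map]; exact hun _ _ hab)
      (by rw [hgsub, LinearIsometryEquiv.norm_map]; exact hun _ _ hcd)
      hcd0 (hg a) (hg b) (hg c) (hg d) hnc hgvol
    -- pull back
    have hpull : ∀ (x y : E3) (r : ℝ), g x + r • (g y - g x) = g (x + r • (y - x)) := by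
      intro x y r
      rw [hgsub, ← map_smul]
      have h1 := g.map_vadd x (r • (y - x))
      rw [vadd_eq_add, vadd_eq_add] at h1
      rw [add_comm x, h1, add_comm]
    rw [hpull, hpull] at hx
    have hxx := g.injective hx
    have hseg1 : f s a + ρ • (f s b - f s a) ∈ segment ℝ (f s a) (f s b) :=
      ⟨1 - ρ, ρ, by linarith, hρ0.le, by ring, by module⟩
    have hseg2 : f s a + ρ • (f s b - f s a) ∈ segment ℝ (f s c) (f s d) := by
      rw [hxx]
      exact ⟨1 - τ, τ, by linarith, hτ0.le, by ring, by module⟩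
    obtain ⟨w, hw, -, hxw⟩ := hcross s hs1 a b c d hab hcd hne _ hseg1 hseg2
    have hab0 : f s b - f s a ≠ 0 := by
      intro h
      have := hun a b hab
      rw [h, norm_zero] at this
      norm_num at this
    rcases hw with rfl | rfl
    · have : ρ • (f s b - f s w) = 0 := by simpa using hxw
      rcases smul_eq_zero.1 this with h | h
      · linarith
      · exact hab0 h
    · have : (1 - ρ) • (f s w - f s a) = 0 := by
        have e : (1 - ρ) • (f s w - f s a) = f s w - (f s a + ρ • (f s w - f s a)) := by module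
        rw [e, hxw, sub_self]
      rcases smul_eq_zero.1 this with h | h
      · linarith
      · exact hab0 h
  have h0T : (0 : ℝ) ≤ T := hT.1
  have hF0 := hnz 0 ⟨le_rfl, h0T⟩
  have hFT := hnz T ⟨h0T, le_rfl⟩
  by_contra hcon
  push Not at hcon
  change F T * F 0 ≤ 0 at hcon
  rcases lt_or_gt_of_ne hF0 with h1 | h1
  · have h2 : 0 < F T := by
      rcases lt_or_gt_of_ne hFT with h3 | h3
      · nlinarith
      · exact h3
    obtain ⟨s, hs, hs0⟩ := intermediate_value_Icc h0T hcont ⟨h1.le, h2.le⟩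
    exact hnz s hs hs0
  · have h2 : F T < 0 := by
      rcases lt_or_gt_of_ne hFT with h3 | h3
      · exact h3
      · nlinarith
    obtain ⟨s, hs, hs0⟩ := intermediate_value_Icc' h0T hcont ⟨h2.le, h1.le⟩
    exact hnz s hs hs0

/-- the exit time -/
lemma exit_time [Fintype V] {f : ℝ → V → E3} (hf : ContinuousOn f (Set.Icc 0 1))
    (h1 : ∀ g : E3 ≃ᵃⁱ[ℝ] E3, ∃ v, 1 / 100000 ≤ ‖g (f 1 v) - f 0 v‖) :
    ∃ T ∈ Set.Icc (0 : ℝ) 1, (∀ g : E3 ≃ᵃⁱ[ℝ] E3, ∃ v, 1 / 100000 ≤ ‖g (f T v) - f 0 v‖) ∧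
      ∀ s ∈ Set.Icc (0 : ℝ) T, ∃ g : E3 ≃ᵃⁱ[ℝ] E3, ∀ v, ‖g (f s v) - f 0 v‖ ≤ 2 / 100000 := by
  set S : Set ℝ := {t ∈ Set.Icc (0 : ℝ) 1 | ∀ g : E3 ≃ᵃⁱ[ℝ] E3, ∃ v,
    1 / 100000 ≤ ‖g (f t v) - f 0 v‖} with hS
  have hSclosed : IsClosed S := by
    have : S = ⋂ g : E3 ≃ᵃⁱ[ℝ] E3, ⋃ v : V, {t ∈ Set.Icc (0 : ℝ) 1 |
        1 / 100000 ≤ ‖g (f t v) - f 0 v‖} := by
      ext t
      simp only [hS, Set.mem_sep_iff, Set.mem_iInter, Set.mem_iUnion]
      constructor
      · rintro ⟨h1, h2⟩ g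
        obtain ⟨v, hv⟩ := h2 g
        exact ⟨v, h1, hv⟩
      · intro h
        obtain ⟨v, hv, -⟩ := h (AffineIsometryEquiv.refl ℝ E3)
        refine ⟨hv, fun g => ?_⟩
        obtain ⟨v, -, hv⟩ := h g
        exact ⟨v, hv⟩
    rw [this]
    refine isClosed_iInter fun g => isClosed_iUnion_of_finite fun v => ?_
    have hc : ContinuousOn (fun t => ‖g (f t v) - f 0 v‖) (Set.Icc 0 1) :=
      ((g.continuous.comp_continuousOn (continuousOn_pi.1 hf v)).sub continuousOn_const).norm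
    exact hc.preimage_isClosed_of_isClosed isClosed_Icc isClosed_Ici
  have hne : S.Nonempty := ⟨1, ⟨zero_le_one, le_rfl⟩, h1⟩
  have hbdd : BddBelow S := ⟨0, fun t ht => ht.1.1⟩
  set T := sInf S with hT
  have hTS : T ∈ S := hSclosed.csInf_mem hne hbdd
  have hbefore : ∀ s ∈ Set.Icc (0 : ℝ) 1, s < T → ∃ g : E3 ≃ᵃⁱ[ℝ] E3, ∀ v,
      ‖g (f s v) - f 0 v‖ < 1 / 100000 := by
    intro s hs hsT
    have : s ∉ S := fun h => absurd (csInf_le hbdd h) (not_le.2 hsT)
    rw [hS] at this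
    by_contra hcon
    push Not at hcon
    exact this ⟨hs, hcon⟩
  have hT0 : 0 < T := by
    rcases lt_or_eq_of_le hTS.1.1 with h | h
    · exact h
    · exfalso
      obtain ⟨v, hv⟩ := hTS.2 (AffineIsometryEquiv.refl ℝ E3)
      rw [← h] at hv
      simp at hv
      norm_num at hv
  refine ⟨T, hTS.1, hTS.2, ?_⟩
  intro s hs
  rcases lt_or_eq_of_le hs.2 with h | h
  · obtain ⟨g, hg⟩ := hbefore s ⟨hs.1, hs.2.trans hTS.1.2⟩ h
    exact ⟨g, fun v => (hg v).le.trans (by norm_num)⟩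
  · -- at the exit time use a slightly earlier time
    rw [h]
    have hcw : ∀ v, ContinuousWithinAt (fun t => f t v) (Set.Icc 0 1) T := fun v =>
      (continuousOn_pi.1 hf v) T hTS.1
    have h2 : ∀ᶠ t in 𝓝[Set.Icc 0 1] T, ∀ v, ‖f t v - f T v‖ < 1 / 100000 := by
      rw [Filter.eventually_all]
      intro v
      have := Metric.tendsto_nhds.1 (hcw v) (1 / 100000) (by norm_num)
      filter_upwards [this] with t ht
      rwa [dist_eq_norm] at ht
    have h3 : ∀ᶠ t in 𝓝[Set.Ico 0 T] T, ∀ v, ‖f t v - f T v‖ < 1 / 100000 :=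
      h2.filter_mono (nhdsWithin_mono _ (Set.Ico_subset_Icc_self.trans
        (Set.Icc_subset_Icc_right hTS.1.2)))
    have hneBot : (𝓝[Set.Ico 0 T] T).NeBot := by
      rw [nhdsWithin_Ico_eq_nhdsLT hT0]
      infer_instance
    obtain ⟨t, ht1, ht2⟩ := (h3.and self_mem_nhdsWithin).exists
    obtain ⟨g, hg⟩ := hbefore t ⟨ht2.1, (ht2.2.le).trans hTS.1.2⟩ ht2.2
    refine ⟨g, fun v => ?_⟩
    have e1 : g (f T v) - f 0 v = (g (f T v) - g (f t v)) + (g (f t v) - f 0 v) := by abel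
    rw [e1]
    refine (norm_add_le _ _).trans ?_
    have e2 : ‖g (f T v) - g (f t v)‖ = ‖f t v - f T v‖ := by
      rw [← dist_eq_norm, g.isometry.dist_eq, dist_comm, dist_eq_norm]
    rw [e2]
    have := ht1 v
    have := hg v
    linarith

end Pool.Agent.LockedTree
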