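import Pool.Agent.LockedTree.Lines

set_option autoImplicit false

/-!
# Rigidity of the limit world
-/

namespace Pool.Agent.LockedTree

open Filter Topology

lemma eq_of_par_near {a b : E3} (ha : ‖a‖ = 1) (hb : ‖b‖ = 1) (h : cr a b = 0)
    (hab : ‖a - b‖ ≤ 1) : a = b := by
  rcases eq_or_neg_of_cr_eq_zero ha hb h with h1 | h1
  · exact h1.symm
  · exfalso
    rw [h1, sub_neg_eq_add, ← two_smul ℝ, norm_smul, ha] at hab
    norm_num at hab

lemma exists_unit_perp (x : E3) : ∃ m : E3, ‖m‖ = 1 ∧ inner ℝ m x = 0 := by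
  obtain ⟨m, hm0, hmx, -⟩ := exists_normal x x
  refine ⟨nrm m, norm_nrm hm0, ?_⟩
  unfold nrm; rw [inner_smul_left, hmx]; simp

/-- every vector of length at most `2` is a sum of two unit vectors -/
lemma two_units {x : E3} (hx : ‖x‖ ≤ 2) : ∃ y : E3, ‖y‖ = 1 ∧ ‖x - y‖ = 1 := by
  obtain ⟨m, hm1, hmx⟩ := exists_unit_perp x
  have hnn : 0 ≤ 1 - ‖x‖ ^ 2 / 4 := by nlinarith [norm_nonneg x]
  set r := Real.sqrt (1 - ‖x‖ ^ 2 / 4) with hr
  have hrr : r ^ 2 = 1 - ‖x‖ ^ 2 / 4 := Real.sq_sqrt hnn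
  have hxm : inner ℝ x m = 0 := by rw [real_inner_comm]; exact hmx
  have key : ∀ s : ℝ, s ^ 2 = 1 → ‖(1 / 2 : ℝ) • x + (s * r) • m‖ = 1 := by
    intro s hs
    have h1 : ‖(1 / 2 : ℝ) • x + (s * r) • m‖ ^ 2 = 1 := by
      rw [@norm_add_sq_real, inner_smul_left, inner_smul_right, hxm, norm_smul, norm_smul, hm1,
        mul_pow, mul_pow, Real.norm_eq_abs, Real.norm_eq_abs, sq_abs, sq_abs, mul_pow, hs, hrr]
      simp
      ring
    have h2 : (‖(1 / 2 : ℝ) • x + (s * r) • m‖ - 1) * (‖(1 / 2 : ℝ) • x + (s * r) • m‖ + 1) = 0 := by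
      ring_nf; ring_nf at h1; linarith
    rcases mul_eq_zero.1 h2 with h | h
    · linarith
    · have := norm_nonneg ((1 / 2 : ℝ) • x + (s * r) • m); linarith
  refine ⟨(1 / 2 : ℝ) • x + (1 * r) • m, key 1 (by norm_num), ?_⟩
  have : x - ((1 / 2 : ℝ) • x + (1 * r) • m) = (1 / 2 : ℝ) • x + (-1 * r) • m := by module
  rw [this]
  exact key (-1) (by norm_num)

/-- The point map and the direction maps of a limit world. -/
structure Field (P : E3 → E3) (φ : E3 → E3 → E3) : Prop where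
  near : ∀ x, ‖x‖ ≤ 3 → ‖P x - x‖ ≤ 2 / 100000
  funit : ∀ x u, ‖x‖ ≤ 3 → ‖u‖ = 1 → ‖φ x u‖ = 1
  fnear : ∀ x u, ‖x‖ ≤ 3 → ‖u‖ = 1 → ‖φ x u - u‖ ≤ 4 / 100000
  line : ∀ x u (l : ℝ), ‖x‖ ≤ 3 → ‖x + l • u‖ ≤ 3 → |l| ≤ 1 / 8 → ‖u‖ = 1 →
    cr (φ x u) (φ (x + l • u) u) = 0 ∧ cr (φ x u) (P (x + l • u) - P x) = 0
  step : ∀ x e, ‖x‖ ≤ 2 → ‖e‖ = 1 → P (x + e) = P x + φ x e
  closed : ∀ x (u : ℕ → E3) (v w : E3), ‖x‖ ≤ 3 → (∀ n, ‖u n‖ = 1) → Tendsto u atTop (𝓝 v) →
    Tendsto (fun n => φ x (u n)) atTop (𝓝 w) → φ x v = w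

variable {P : E3 → E3} {φ : E3 → E3 → E3}

lemma norm_add_unit_le {x e : E3} {r : ℝ} (hx : ‖x‖ ≤ r) (he : ‖e‖ = 1) : ‖x + e‖ ≤ r + 1 := by
  have := norm_add_le x e
  linarith

lemma Field.opp (F : Field P φ) {x e : E3} (hx : ‖x‖ ≤ 2) (he : ‖e‖ = 1) :
    φ x (-e) = - φ x e := by
  have hx3 : ‖x‖ ≤ 3 := by linarith
  have hy : ‖x + (1 / 8 : ℝ) • e‖ ≤ 3 := by
    refine (norm_add_le _ _).trans ?_
    rw [norm_smul, he]; norm_num; linarith
  have h1 := (F.line x e (1 / 8) hx3 hy (by norm_num) he).2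
  have hne : ‖-e‖ = 1 := by rw [norm_neg]; exact he
  have e1 : x + (-(1 / 8) : ℝ) • (-e) = x + (1 / 8 : ℝ) • e := by module
  have h2 := (F.line x (-e) (-(1 / 8)) hx3 (by rw [e1]; exact hy) (by norm_num) hne).2
  rw [e1] at h2
  have hD : P (x + (1 / 8 : ℝ) • e) - P x ≠ 0 := by
    intro h0
    have h3 := F.near x hx3
    have h4 := F.near _ hy
    have h5 : (1 / 8 : ℝ) • e = (P (x + (1 / 8 : ℝ) • e) - P x) + (P x - x) -
        (P (x + (1 / 8 : ℝ) • e) - (x + (1 / 8 : ℝ) • e)) := by abel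
    have h6 : ‖(1 / 8 : ℝ) • e‖ ≤ 4 / 100000 := by
      rw [h5, h0, zero_add]
      exact (norm_sub_le _ _).trans (by linarith)
    rw [norm_smul, he] at h6
    norm_num at h6
  have h3 := cr_eq_zero_trans hD h1 h2
  rcases eq_or_neg_of_cr_eq_zero (F.funit x e hx3 he) (F.funit x (-e) hx3 hne) h3 with h | h
  · exfalso
    have h4 := F.fnear x e hx3 he
    have h5 := F.fnear x (-e) hx3 hne
    rw [h] at h5
    have h6 : (2 : ℝ) • e = (φ x e - -e) - (φ x e - e) := by rw [two_smul]; abel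
    have h7 : ‖(2 : ℝ) • e‖ ≤ 8 / 100000 := by
      rw [h6]
      exact (norm_sub_le _ _).trans (by linarith)
    rw [norm_smul, he] at h7
    norm_num at h7
  · exact h

lemma Field.const_aux (F : Field P φ) {x y e : E3} (hx : ‖x‖ ≤ 1) (hy : ‖y‖ ≤ 2)
    (hxy : ‖y - x‖ = 1) (he : ‖e‖ = 1) : φ x e = φ y e := by
  have hx2 : ‖x‖ ≤ 2 := by linarith
  have hne : ‖-e‖ = 1 := by rw [norm_neg]; exact he
  have hdist : ∀ z, ‖z‖ ≤ 2 → ‖P (z + (y - x)) - P z‖ = 1 := by
    intro z hz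
    rw [F.step z _ hz hxy, add_sub_cancel_left]
    exact F.funit z _ (by linarith) hxy
  have h0 := hdist x hx2
  rw [add_sub_cancel] at h0
  have h1 := hdist (x + e) (by linarith [norm_add_unit_le hx he])
  have h2 := hdist (x + -e) (by linarith [norm_add_unit_le hx hne])
  have e1 : x + e + (y - x) = y + e := by abel
  have e2 : x + -e + (y - x) = y + -e := by abel
  rw [e1, F.step x e hx2 he, F.step y e hy he] at h1
  rw [e2, F.step x (-e) hx2 hne, F.step y (-e) hy hne, F.opp hx2 he, F.opp hy he] at h2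
  set D := P y - P x with hD
  set C := φ y e - φ x e with hC
  have e3 : P y + φ y e - (P x + φ x e) = D + C := by rw [hD, hC]; abel
  have e4 : P y + -φ y e - (P x + -φ x e) = D - C := by rw [hD, hC]; abel
  rw [e3] at h1
  rw [e4] at h2
  have hpar := parallelogram_law_with_norm ℝ D C
  rw [h0, h1, h2] at hpar
  have hC0 : ‖C‖ * ‖C‖ = 0 := by linarith
  have : C = 0 := by
    rcases mul_eq_zero.1 hC0 with h | h <;> exact norm_eq_zero.1 h
  rw [hC] at this
  exact (sub_eq_zero.1 this).symm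

lemma Field.const (F : Field P φ) {x e : E3} (hx : ‖x‖ ≤ 2) (he : ‖e‖ = 1) :
    φ x e = φ 0 e := by
  obtain ⟨y, hy1, hy2⟩ := two_units hx
  have h1 : φ 0 e = φ y e := F.const_aux (by simp) (by linarith) (by simpa using hy1) he
  have h2 : φ y e = φ x e := F.const_aux hy1.le hx hy2 he
  rw [h1, h2]

lemma Field.step0 (F : Field P φ) {x e : E3} (hx : ‖x‖ ≤ 2) (he : ‖e‖ = 1) :
    P (x + e) = P x + φ 0 e := by
  rw [F.step x e hx he, F.const hx he]

lemma Field.additive (F : Field P φ) {x h : E3} (hx : ‖x‖ ≤ 1) (hh : ‖h‖ ≤ 2) :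
    P (x + h) - P 0 = (P x - P 0) + (P h - P 0) := by
  obtain ⟨e, he, hf⟩ := two_units hh
  have e1 : P (x + h) = P x + φ 0 e + φ 0 (h - e) := by
    have : x + h = x + e + (h - e) := by abel
    rw [this, F.step0 (by linarith [norm_add_unit_le hx he]) hf, F.step0 (by linarith) he]
  have e2 : P h = P 0 + φ 0 e + φ 0 (h - e) := by
    have : h = 0 + e + (h - e) := by abel
    conv_lhs => rw [this]
    rw [F.step0 (by rw [zero_add]; linarith) hf, F.step0 (by simp) he]
  rw [e1, e2]; abel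

lemma Field.nat_smul (F : Field P φ) (k : ℕ) (z : E3) (hz : (k : ℝ) * ‖z‖ ≤ 1) :
    P ((k : ℝ) • z) - P 0 = (k : ℝ) • (P z - P 0) := by
  induction k with
  | zero => simp
  | succ k ih =>
    have hk : (k : ℝ) * ‖z‖ ≤ 1 := by
      push_cast at hz
      nlinarith [norm_nonneg z]
    have hz1 : ‖z‖ ≤ 1 := by
      push_cast at hz
      have : 0 ≤ (k : ℝ) * ‖z‖ := by positivity
      linarith
    have e : ((k + 1 : ℕ) : ℝ) • z = (k : ℝ) • z + z := by push_cast; module
    rw [e, F.additive (by rw [norm_smul]; simpa using hk) (by linarith), ih hk]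
    push_cast
    module

lemma Field.bound (F : Field P φ) {x : E3} (hx : ‖x‖ ≤ 1) : ‖P x - P 0‖ ≤ 2 := by
  have h1 := F.near x (by linarith)
  have h2 := F.near 0 (by simp)
  have : P x - P 0 = (P x - x) - (P 0 - 0) + x := by abel
  rw [this]
  refine (norm_add_le _ _).trans ?_
  have := norm_sub_le (P x - x) (P 0 - 0)
  linarith

lemma Field.real_smul (F : Field P φ) {x : E3} (hx : ‖x‖ ≤ 1) {t : ℝ} (ht0 : 0 ≤ t)
    (ht1 : t ≤ 1) : P (t • x) - P 0 = t • (P x - P 0) := by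
  -- error at most 4 / n for every n
  have key : ∀ n : ℕ, 0 < n → ‖(P (t • x) - P 0) - t • (P x - P 0)‖ ≤ 4 / n := by
    intro n hn
    have hn' : (0 : ℝ) < n := by exact_mod_cast hn
    set k := ⌊(n : ℝ) * t⌋₊ with hk
    set r := (n : ℝ) * t - k with hr
    have hr0 : 0 ≤ r := by
      rw [hr]; linarith [Nat.floor_le (show 0 ≤ (n : ℝ) * t by positivity)]
    have hr1 : r ≤ 1 := by
      rw [hr]; linarith [Nat.lt_floor_add_one ((n : ℝ) * t)]
    have hkn : (k : ℝ) ≤ n := by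
      have := Nat.floor_le (show 0 ≤ (n : ℝ) * t by positivity)
      nlinarith
    have ht : t = (k + r) / n := by rw [hr]; field_simp; ring
    have hxn : ‖(1 / (n : ℝ)) • x‖ ≤ 1 / n := by
      rw [norm_smul, Real.norm_eq_abs, abs_of_pos (by positivity)]
      have : 1 / (n : ℝ) * ‖x‖ ≤ 1 / n * 1 := by gcongr
      linarith
    have e1 : t • x = (k : ℝ) • ((1 / (n : ℝ)) • x) + (r / n) • x := by
      rw [ht]; match_scalars; ring
    have hk1 : (k : ℝ) * ‖(1 / (n : ℝ)) • x‖ ≤ 1 := by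
      calc (k : ℝ) * ‖(1 / (n : ℝ)) • x‖ ≤ n * (1 / n) := by gcongr
        _ = 1 := by field_simp
    have hrn : r / n ≤ 1 := by
      rw [div_le_one hn']
      have : (1 : ℝ) ≤ n := by exact_mod_cast hn
      linarith
    have hrx : ‖(r / n) • x‖ ≤ 1 := by
      rw [norm_smul, Real.norm_eq_abs, abs_of_nonneg (by positivity)]
      nlinarith [norm_nonneg x]
    have h1 : P (t • x) - P 0 = (k : ℝ) • (P ((1 / (n : ℝ)) • x) - P 0) +
        (P ((r / n) • x) - P 0) := by
      rw [e1, F.additive (by rw [norm_smul]; simpa using hk1) (by linarith),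
        F.nat_smul k _ hk1]
    have h2 : P x - P 0 = (n : ℝ) • (P ((1 / (n : ℝ)) • x) - P 0) := by
      have := F.nat_smul n ((1 / (n : ℝ)) • x) (by
        calc (n : ℝ) * ‖(1 / (n : ℝ)) • x‖ ≤ n * (1 / n) := by gcongr
          _ = 1 := by field_simp)
      rw [← this, smul_smul]
      congr 2
      field_simp
      simp
    have h3 : P (r • x) - P 0 = (n : ℝ) • (P ((r / n) • x) - P 0) := by
      have e : (n : ℝ) * ‖(r / n) • x‖ ≤ 1 := by
        rw [norm_smul, Real.norm_eq_abs, abs_of_nonneg (by positivity)]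
        have : (n : ℝ) * (r / n * ‖x‖) = r * ‖x‖ := by field_simp
        rw [this]
        nlinarith [norm_nonneg x]
      have := F.nat_smul n ((r / n) • x) e
      rw [← this, smul_smul]
      congr 3
      field_simp
    have h4 : P ((r / n) • x) - P 0 = (1 / (n : ℝ)) • (P (r • x) - P 0) := by
      rw [h3, smul_smul]
      have : 1 / (n : ℝ) * n = 1 := by field_simp
      rw [this, one_smul]
    have h5 : P ((1 / (n : ℝ)) • x) - P 0 = (1 / (n : ℝ)) • (P x - P 0) := by
      rw [h2, smul_smul]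
      have : 1 / (n : ℝ) * n = 1 := by field_simp
      rw [this, one_smul]
    have hrx' : ‖r • x‖ ≤ 1 := by
      rw [norm_smul, Real.norm_eq_abs, abs_of_nonneg hr0]
      nlinarith [norm_nonneg x]
    have h6 : (P (t • x) - P 0) - t • (P x - P 0) = (1 / (n : ℝ)) • ((P (r • x) - P 0) -
        r • (P x - P 0)) := by
      rw [h1, h4, h5, ht]
      match_scalars <;> ring
    rw [h6, norm_smul, Real.norm_eq_abs, abs_of_pos (by positivity)]
    have h7 : ‖(P (r • x) - P 0) - r • (P x - P 0)‖ ≤ 4 := by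
      refine (norm_sub_le _ _).trans ?_
      have := F.bound hrx'
      have h8 := F.bound hx
      rw [norm_smul, Real.norm_eq_abs, abs_of_nonneg hr0]
      nlinarith [norm_nonneg (P x - P 0)]
    calc 1 / (n : ℝ) * ‖(P (r • x) - P 0) - r • (P x - P 0)‖ ≤ 1 / n * 4 := by gcongr
      _ = 4 / n := by ring
  have hzero : ‖(P (t • x) - P 0) - t • (P x - P 0)‖ ≤ 0 := by
    refine ge_of_tendsto (tendsto_const_div_atTop_nhds_zero_nat 4) ?_
    filter_upwards [eventually_gt_atTop 0] with n hn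
    exact key n hn
  exact sub_eq_zero.1 (norm_le_zero_iff.1 hzero)

lemma Field.neg (F : Field P φ) {x : E3} (hx : ‖x‖ ≤ 1) : P (-x) - P 0 = - (P x - P 0) := by
  have := F.additive hx (h := -x) (by rw [norm_neg]; linarith)
  rw [add_neg_cancel, sub_self] at this
  exact (neg_eq_of_add_eq_zero_right this.symm).symm

lemma Field.real_smul' (F : Field P φ) {x : E3} (hx : ‖x‖ ≤ 1) {t : ℝ} (ht : |t| ≤ 1) :
    P (t • x) - P 0 = t • (P x - P 0) := by
  rcases le_total 0 t with h | h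
  · rw [abs_of_nonneg h] at ht
    exact F.real_smul hx h ht
  · rw [abs_of_nonpos h] at ht
    have h1 := F.real_smul hx (t := -t) (by linarith) ht
    have h2 : ‖(-t) • x‖ ≤ 1 := by
      rw [norm_smul, Real.norm_eq_abs, abs_of_nonneg (by linarith)]
      nlinarith [norm_nonneg x]
    have h3 := F.neg h2
    rw [h1] at h3
    have e : -((-t) • x) = t • x := by module
    rw [e] at h3
    rw [h3]; module

/-- the linear part -/
noncomputable def linPart (P : E3 → E3) : E3 →ₗ[ℝ] E3 where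
  toFun x := x 0 • (P (EuclideanSpace.single 0 1) - P 0) +
    x 1 • (P (EuclideanSpace.single 1 1) - P 0) + x 2 • (P (EuclideanSpace.single 2 1) - P 0)
  map_add' x y := by
    simp only [PiLp.add_apply]; module
  map_smul' a x := by
    simp only [PiLp.smul_apply, smul_eq_mul, RingHom.id_apply]; module

lemma abs_coord_le (x : E3) (i : Fin 3) : |x i| ≤ ‖x‖ := by
  have h := norm_sq_eq x
  have : x i ^ 2 ≤ ‖x‖ ^ 2 := by
    rw [h]
    fin_cases i
    · change x 0 ^ 2 ≤ _; nlinarith [sq_nonneg (x 1), sq_nonneg (x 2)]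
    · change x 1 ^ 2 ≤ _; nlinarith [sq_nonneg (x 0), sq_nonneg (x 2)]
    · change x 2 ^ 2 ≤ _; nlinarith [sq_nonneg (x 1), sq_nonneg (x 0)]
  exact abs_le_of_sq_le_sq this (norm_nonneg _)

lemma Field.eq_lin (F : Field P φ) {x : E3} (hx : ‖x‖ ≤ 1) : P x - P 0 = linPart P x := by
  have hs : ∀ i : Fin 3, ‖(EuclideanSpace.single i (1 : ℝ) : E3)‖ ≤ 1 := by
    intro i; simp
  have hc : ∀ i, |x i| ≤ 1 := fun i => (abs_coord_le x i).trans hx
  have e : x = x 0 • (EuclideanSpace.single 0 (1 : ℝ) : E3) +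
      (x 1 • (EuclideanSpace.single 1 (1 : ℝ) : E3) + x 2 • (EuclideanSpace.single 2 (1 : ℝ) : E3)) := by
    apply ext3 <;> simp
  have hn : ∀ i, ‖x i • (EuclideanSpace.single i (1 : ℝ) : E3)‖ ≤ 1 := by
    intro i; rw [norm_smul]; simpa using hc i
  change P x - P 0 = x 0 • (P (EuclideanSpace.single 0 1) - P 0) +
    x 1 • (P (EuclideanSpace.single 1 1) - P 0) + x 2 • (P (EuclideanSpace.single 2 1) - P 0)
  conv_lhs => rw [e]
  rw [F.additive (hn 0) ((norm_add_le _ _).trans (by linarith [hn 1, hn 2])),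
    F.additive (hn 1) (by linarith [hn 2]), F.real_smul' (hs 0) (hc 0),
    F.real_smul' (hs 1) (hc 1), F.real_smul' (hs 2) (hc 2)]
  abel

lemma Field.lin_unit (F : Field P φ) {e : E3} (he : ‖e‖ = 1) : linPart P e = φ 0 e := by
  rw [← F.eq_lin he.le]
  have := F.step0 (x := 0) (by simp) he
  rw [zero_add] at this
  rw [this]; abel

lemma Field.lin_norm (F : Field P φ) (x : E3) : ‖linPart P x‖ = ‖x‖ := by
  by_cases hx : x = 0
  · rw [hx]; simp
  · have h1 : linPart P x = ‖x‖ • linPart P (nrm x) := by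
      rw [← map_smul, nrm_smul_norm hx]
    rw [h1, norm_smul, F.lin_unit (norm_nrm hx), F.funit 0 _ (by simp) (norm_nrm hx)]
    simp

/-- the linear isometry -/
noncomputable def Field.iso (F : Field P φ) : E3 ≃ₗᵢ[ℝ] E3 :=
  LinearIsometry.toLinearIsometryEquiv ⟨linPart P, F.lin_norm⟩ rfl

lemma Field.iso_apply (F : Field P φ) (x : E3) : F.iso x = linPart P x := rfl

lemma Field.point (F : Field P φ) {x : E3} (hx : ‖x‖ ≤ 3) : P x = P 0 + F.iso x := by
  have h2 : ∀ x : E3, ‖x‖ ≤ 2 → P x = P 0 + F.iso x := by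
    intro x hx
    obtain ⟨e, he, hf⟩ := two_units hx
    have e2 : P x = P 0 + φ 0 e + φ 0 (x - e) := by
      have : x = 0 + e + (x - e) := by abel
      conv_lhs => rw [this]
      rw [F.step0 (by rw [zero_add]; linarith) hf, F.step0 (by simp) he]
    rw [e2, ← F.lin_unit he, ← F.lin_unit hf, F.iso_apply, add_assoc, ← map_add]
    congr 2
    abel
  by_cases h0 : x = 0
  · rw [h0]; simp
  · have hn := norm_nrm h0
    have hsub : ‖x - nrm x‖ ≤ 2 := by
      have e1 : x - nrm x = (‖x‖ - 1) • nrm x := by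
        rw [sub_smul, one_smul, nrm_smul_norm h0]
      rw [e1, norm_smul, hn, mul_one, Real.norm_eq_abs, abs_le]
      constructor <;> linarith [norm_nonneg x]
    have e2 : x = (x - nrm x) + nrm x := by abel
    conv_lhs => rw [e2]
    rw [F.step0 hsub hn, h2 _ hsub, ← F.lin_unit hn, F.iso_apply, F.iso_apply, add_assoc,
      ← map_add, sub_add_cancel]

lemma Field.dir_aux (F : Field P φ) {x e : E3} (hx : ‖x‖ ≤ 3) (he : ‖e‖ = 1)
    (hxe : inner ℝ x e ≠ 0) : φ x e = F.iso e := by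
  -- choose a small shift
  set b := inner ℝ x e with hb
  obtain ⟨l, hl0, hl8, hlx⟩ : ∃ l : ℝ, l ≠ 0 ∧ |l| ≤ 1 / 8 ∧ ‖x + l • e‖ ≤ 3 := by
    have hbabs : 0 < |b| := abs_pos.2 hxe
    set r := min (1 / 8) |b| with hr
    have hr0 : 0 < r := lt_min (by norm_num) hbabs
    have hr1 : r ≤ 1 / 8 := min_le_left _ _
    have hr2 : r ≤ |b| := min_le_right _ _
    have key : ∀ l : ℝ, |l| = r → l * b = -(r * |b|) → ‖x + l • e‖ ≤ 3 := by
      intro l hl hlb
      have h1 : ‖x + l • e‖ ^ 2 ≤ 3 ^ 2 := by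
        rw [@norm_add_sq_real, inner_smul_right, norm_smul, he, mul_one, Real.norm_eq_abs, hl,
          ← hb, hlb]
        nlinarith [norm_nonneg x]
      exact le_of_sq_le_sq h1 (by norm_num)
    rcases lt_or_gt_of_ne hxe with h | h
    · refine ⟨r, hr0.ne', by rw [abs_of_pos hr0]; exact hr1, key r (abs_of_pos hr0) ?_⟩
      rw [abs_of_neg h]; ring
    · refine ⟨-r, by linarith, by rw [abs_neg, abs_of_pos hr0]; exact hr1,
        key (-r) (by rw [abs_neg, abs_of_pos hr0]) ?_⟩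
      rw [abs_of_pos h]; ring
  have h1 := (F.line x e l hx hlx hl8 he).2
  rw [F.point hlx, F.point hx] at h1
  have e1 : P 0 + F.iso (x + l • e) - (P 0 + F.iso x) = l • F.iso e := by
    rw [map_add, map_smul]; abel
  rw [e1, cr_smul_right] at h1
  have h2 := (smul_eq_zero.1 h1).resolve_left hl0
  have h3 : ‖F.iso e‖ = 1 := by rw [F.iso.norm_map]; exact he
  refine eq_of_par_near (F.funit x e hx he) h3 h2 ?_
  have h4 := F.fnear x e hx he
  have h5 := F.fnear 0 e (by simp) he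
  rw [← F.lin_unit he, ← F.iso_apply] at h5
  have e2 : φ x e - F.iso e = (φ x e - e) - (F.iso e - e) := by abel
  rw [e2]
  exact (norm_sub_le _ _).trans (by linarith)

lemma Field.dir (F : Field P φ) {x e : E3} (hx : ‖x‖ ≤ 3) (he : ‖e‖ = 1) :
    φ x e = F.iso e := by
  by_cases hx0 : x = 0
  · rw [hx0, F.iso_apply, F.lin_unit he]
  by_cases hxe : inner ℝ x e = 0
  · -- approximate
    set y : ℕ → E3 := fun n => e - (1 / ((n : ℝ) + 1)) • x with hy
    have hylim : Tendsto y atTop (𝓝 e) := by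
      have h1 : Tendsto (fun n : ℕ => (1 / ((n : ℝ) + 1)) • x) atTop (𝓝 ((0 : ℝ) • x)) :=
        tendsto_one_div_add_atTop_nhds_zero_nat.smul_const x
      rw [zero_smul] at h1
      have := (tendsto_const_nhds (x := e)).sub h1
      rwa [sub_zero] at this
    have hexy : ∀ n, inner ℝ x (y n) = -(1 / ((n : ℝ) + 1)) * ‖x‖ ^ 2 := by
      intro n
      simp only [hy]
      rw [inner_sub_right, inner_smul_right, hxe, real_inner_self_eq_norm_sq]; ring
    have hxn : 0 < ‖x‖ := norm_pos_iff.2 hx0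
    have hxyne : ∀ n, inner ℝ x (y n) ≠ 0 := by
      intro n
      rw [hexy]
      have : 0 < 1 / ((n : ℝ) + 1) * ‖x‖ ^ 2 := by positivity
      linarith
    have hy0 : ∀ n, y n ≠ 0 := by
      intro n h
      have := hxyne n
      rw [h, inner_zero_right] at this
      exact this rfl
    have hu : Tendsto (fun n => nrm (y n)) atTop (𝓝 e) := by
      have h1 : ContinuousAt nrm e := by
        unfold nrm
        refine ContinuousAt.fun_smul ?_ (by fun_prop)
        refine ContinuousAt.inv₀ (by fun_prop) ?_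
        rw [he]; norm_num
      have h2 := h1.tendsto.comp hylim
      rwa [nrm_eq_self he] at h2
    have hφ : ∀ n, φ x (nrm (y n)) = F.iso (nrm (y n)) := by
      intro n
      refine F.dir_aux hx (norm_nrm (hy0 n)) ?_
      unfold nrm
      rw [inner_smul_right]
      exact mul_ne_zero (inv_ne_zero (norm_ne_zero_iff.2 (hy0 n))) (hxyne n)
    refine F.closed x (fun n => nrm (y n)) e (F.iso e) hx (fun n => norm_nrm (hy0 n)) hu ?_
    simp only [hφ]
    exact (F.iso.continuous.tendsto e).comp hu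
  · exact F.dir_aux hx he hxe

variable {Star : Type} {c c' : Star → E3} {Rel : Star → E3 → E3 → Prop} {σ : ℝ}

/-- Stars at the same place have the same image. -/
lemma World.same (W : World Star c c' Rel σ) {S S' : Star} (h : c S' = c S) :
    c' S' = c' S ∧ ∀ u A B, Rel S u A → Rel S' u B → A = B := by
  have hcol : ∀ u A B, Rel S u A → Rel S' u B → cr A B = 0 ∧ cr A (c' S' - c' S) = 0 :=
    fun u A B hA hB => W.collinear (l := 0) (by norm_num) (by rw [h]; simp) hA hB
  constructor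
  · by_contra hne
    have hD : c' S' - c' S ≠ 0 := sub_ne_zero.2 hne
    have h0 : ‖(EuclideanSpace.single 0 (1 : ℝ) : E3)‖ = 1 := by simp
    have h1 : ‖(EuclideanSpace.single 1 (1 : ℝ) : E3)‖ = 1 := by simp
    obtain ⟨A₀, hA₀⟩ := W.full S _ h0
    obtain ⟨B₀, hB₀⟩ := W.full S' _ h0
    obtain ⟨A₁, hA₁⟩ := W.full S _ h1
    obtain ⟨B₁, hB₁⟩ := W.full S' _ h1
    have e0 := (hcol _ _ _ hA₀ hB₀).2
    have e1 := (hcol _ _ _ hA₁ hB₁).2
    have e2 := cr_eq_zero_trans hD e0 e1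
    have e3 := cr_perturb (EuclideanSpace.single 0 (1 : ℝ) : E3)
      (EuclideanSpace.single 1 (1 : ℝ) : E3) A₀ A₁
    have e4 : cr (EuclideanSpace.single 0 (1 : ℝ) : E3) (EuclideanSpace.single 1 (1 : ℝ) : E3) =
        EuclideanSpace.single 2 (1 : ℝ) := by
      apply ext3 <;> simp [cr_0, cr_1, cr_2]
    have h2 : ‖(EuclideanSpace.single 2 (1 : ℝ) : E3)‖ = 1 := by simp
    rw [e2, e4, zero_sub, norm_neg, h2, h1, W.rel_unit' _ _ _ hA₀] at e3
    have e5 := W.rel_near _ _ _ hA₀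
    have e6 := W.rel_near _ _ _ hA₁
    linarith
  · intro u A B hA hB
    refine eq_of_par_near (W.rel_unit' _ _ _ hA) (W.rel_unit' _ _ _ hB) (hcol _ _ _ hA hB).1 ?_
    have e5 := W.rel_near _ _ _ hA
    have e6 := W.rel_near _ _ _ hB
    have e2 : A - B = (A - u) - (B - u) := by abel
    rw [e2]
    exact (norm_sub_le _ _).trans (by linarith)

/-- **Rigidity.** The limit world is an isometric copy. -/
theorem World.rigid (W : World Star c c' Rel σ) :
    ∃ g : E3 ≃ᵃⁱ[ℝ] E3, (∀ S, c' S = g (c S)) ∧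
      ∀ S u u', Rel S u u' → u' = g.linearIsometryEquiv u := by
  classical
  obtain ⟨S₀, -⟩ := W.exist 0 (by simp)
  have : Nonempty Star := ⟨S₀⟩
  choose! St hSt using W.exist
  have hex : ∀ x u : E3, ‖u‖ = 1 → ∃ u', Rel (St x) u u' := fun x u hu => W.full _ u hu
  choose! ψ hψ using hex
  set P : E3 → E3 := fun x => c' (St x) with hP
  have hPS : ∀ S, c' S = P (c S) := fun S => (W.same (hSt _ (W.ball S)).symm).1
  have hφS : ∀ S u u', Rel S u u' → u' = ψ (c S) u := by
    intro S u u' h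
    exact ((W.same (hSt _ (W.ball S)).symm).2 u _ _ (hψ (c S) u (W.rel_unit _ _ _ h)) h).symm
  have F : Field P ψ := by
    refine ⟨?_, ?_, ?_, ?_, ?_, ?_⟩
    · intro x hx
      have := W.near (St x)
      rwa [hSt x hx] at this
    · intro x u hx hu
      exact W.rel_unit' _ _ _ (hψ x u hu)
    · intro x u hx hu
      exact W.rel_near _ _ _ (hψ x u hu)
    · intro x u l hx hxl hl hu
      exact W.collinear hl (by rw [hSt x hx, hSt _ hxl]) (hψ x u hu) (hψ _ u hu)
    · intro x e hx he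
      obtain ⟨S, T, u', h1, h2, h3, h4⟩ := W.step x e hx he
      have e1 := hPS T
      have e2 := hPS S
      have e3 := hφS S e u' h3
      rw [h2] at e1
      rw [h1] at e2 e3
      rw [← e1, h4, e2, e3]
    · intro x u v w hx hu hlim hlim'
      have h1 := W.closed (St x) u (fun n => ψ x (u n)) v w (fun n => hψ x _ (hu n)) hlim hlim'
      have h2 := hφS _ _ _ h1
      rw [hSt x hx] at h2
      exact h2.symm
  refine ⟨(F.iso.toAffineIsometryEquiv).trans (AffineIsometryEquiv.vaddConst ℝ (P 0) |>.trans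
    (AffineIsometryEquiv.refl ℝ E3)), ?_, ?_⟩
  · intro S
    rw [hPS S, F.point (W.ball S)]
    simp [add_comm]
  · intro S u u' h
    rw [hφS S u u' h, F.dir (W.ball S) (W.rel_unit _ _ _ h)]
    rfl

end Pool.Agent.LockedTree
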