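import Pool.Agent.LockedTree.World

set_option autoImplicit false

/-!
# Single-valuedness of the image of a spike
-/

namespace Pool.Agent.LockedTree

open Filter Topology

variable {Star : Type} {c c' : Star → E3} {Rel : Star → E3 → E3 → Prop} {σ : ℝ}

lemma World.diff_near (W : World Star c c' Rel σ) (S T : Star) :
    ‖(c' T - c' S) - (c T - c S)‖ ≤ 4 / 100000 := by
  have h1 := W.near T
  have h2 := W.near S
  calc ‖(c' T - c' S) - (c T - c S)‖ = ‖(c' T - c T) - (c' S - c S)‖ := by congr 1; abel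
    _ ≤ ‖c' T - c T‖ + ‖c' S - c S‖ := norm_sub_le _ _
    _ ≤ 4 / 100000 := by linarith

lemma World.img_near (W : World Star c c' Rel σ) {S : Star} {u x x' : E3} (hu : ‖u‖ = 1)
    (hx : ‖x - u‖ ≤ 1 / 1000000) (h : Rel S (nrm x) x') : ‖x' - u‖ ≤ 1 / 1000 := by
  have hx0 : x ≠ 0 := ne_zero_of_near hu (hx.trans (by norm_num))
  have h1 := norm_nrm_sub_le hx0 hu
  have h2 := W.rel_near _ _ _ h
  calc ‖x' - u‖ = ‖(x' - nrm x) + (nrm x - u)‖ := by congr 1; abel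
    _ ≤ ‖x' - nrm x‖ + ‖nrm x - u‖ := norm_add_le _ _
    _ ≤ 1 / 1000 := by linarith

lemma World.cut (W : World Star c c' Rel σ) {S T : Star} {u z : E3} (hu : ‖u‖ = 1)
    (hw : ‖c T - c S‖ ≤ 1 / 4) (hc : 1 / 8 ≤ ‖cr u (c T - c S)‖)
    (hz : ‖z - u‖ ≤ 1 / 1000000) :
    ∃ t : ℝ, ∀ x x', ‖x - u‖ ≤ 1 / 1000000 → Rel S (nrm x) x' →
      (0 < vol x (c T - c S) z → t ≤ az σ u (c' T - c' S) (cr u (c T - c S)) x') ∧
      (vol x (c T - c S) z < 0 → az σ u (c' T - c' S) (cr u (c T - c S)) x' ≤ t) := by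
  set w := c T - c S with hwdef
  set w' := c' T - c' S with hw'def
  set y : E3 := (1 / 2 : ℝ) • z - w with hy
  have hww' : ‖w' - w‖ ≤ 4 / 100000 := W.diff_near S T
  have hy0 : y ≠ 0 := (nc_aux (s := 0) hu hw hc (x := u) (by simp) hz).1
  obtain ⟨v', hv'⟩ := W.full T (nrm y) (norm_nrm hy0)
  have hv'T : 0 < vol v' w' (cr u w) := T_pos' hu hw hc hww' hz (W.rel_near _ _ _ hv')
  have huT : 0 < vol u w' (cr u w) :=
    lt_trans (by norm_num) (T_pos hu hw hc hww' (x := u) (by simp))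
  refine ⟨az σ u w' (cr u w) v', fun x x' hx hrel => ?_⟩
  have hx0 : x ≠ 0 := ne_zero_of_near hu (hx.trans (by norm_num))
  have hx'T : 0 < vol x' w' (cr u w) :=
    lt_trans (by norm_num) (T_pos hu hw hc hww' (W.img_near hu hx hrel))
  have hnc : NC (c S) (nrm x) (c T) (nrm y) := by
    have := (nc_aux (s := c S) hu hw hc hx hz).2
    have e : c S + w = c T := by rw [hwdef]; abel
    rwa [e] at this
  have hxy : vol (nrm x) w (nrm y) = ‖x‖⁻¹ * (‖y‖⁻¹ * (1 / 2 * vol x w z)) := by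
    unfold nrm
    rw [vol_smul_1, vol_smul_3, hy, vol_sub_3, vol_smul_3, vol_self_23, sub_zero]
  have hxp : 0 < ‖x‖⁻¹ := inv_pos.2 (norm_pos_iff.2 hx0)
  have hyp : 0 < ‖y‖⁻¹ := inv_pos.2 (norm_pos_iff.2 hy0)
  constructor
  · intro hpos
    have h1 : 0 < vol (nrm x) w (nrm y) := by rw [hxy]; positivity
    have h2 := W.sp_pos S T _ _ _ _ hrel hv' hnc h1
    exact (az_le_iff huT hx'T hv'T).2 h2
  · intro hneg
    have h1 : vol (nrm x) w (nrm y) < 0 := by
      rw [hxy]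
      exact mul_neg_of_pos_of_neg hxp (mul_neg_of_pos_of_neg hyp (by linarith))
    have h2 := W.sp_neg S T _ _ _ _ hrel hv' hnc h1
    exact (az_ge_iff huT hx'T hv'T).2 h2

lemma near_param {u a : E3} {τ : ℝ} (ha : ‖a‖ ≤ 1 / 4) (hτ : |τ| < 1 / 1000000) :
    ‖u + τ • a - u‖ ≤ 1 / 1000000 := by
  rw [add_sub_cancel_left, norm_smul, Real.norm_eq_abs]
  nlinarith [abs_nonneg τ, norm_nonneg a]

lemma World.jump_countable (W : World Star c c' Rel σ) {S T : Star} {u a : E3} (hu : ‖u‖ = 1)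
    (hw : ‖c T - c S‖ ≤ 1 / 4) (hc : 1 / 8 ≤ ‖cr u (c T - c S)‖) (ha : ‖a‖ ≤ 1 / 4)
    (hV : vol u (c T - c S) a ≠ 0) :
    Set.Countable {τ : ℝ | |τ| < 1 / 1000000 ∧ ∃ p q, Rel S (nrm (u + τ • a)) p ∧
      Rel S (nrm (u + τ • a)) q ∧
      az σ u (c' T - c' S) (cr u (c T - c S)) p < az σ u (c' T - c' S) (cr u (c T - c S)) q} := by
  set A : E3 → ℝ := az σ u (c' T - c' S) (cr u (c T - c S)) with hA
  set J : Set ℝ := {τ : ℝ | |τ| < 1 / 1000000 ∧ ∃ p q, Rel S (nrm (u + τ • a)) p ∧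
      Rel S (nrm (u + τ • a)) q ∧ A p < A q} with hJ
  have hsep : ∀ τ₁ ∈ J, ∀ τ₂ ∈ J, τ₁ < τ₂ → ∃ t : ℝ,
      (∀ x', Rel S (nrm (u + τ₁ • a)) x' → 0 ≤ vol u (c T - c S) a * (A x' - t)) ∧
      (∀ x', Rel S (nrm (u + τ₂ • a)) x' → vol u (c T - c S) a * (A x' - t) ≤ 0) := by
    intro τ₁ h1 τ₂ h2 hlt
    set μ : ℝ := (τ₁ + τ₂) / 2 with hμ
    have hμabs : |μ| < 1 / 1000000 := by
      have e1 := abs_lt.1 h1.1
      have e2 := abs_lt.1 h2.1
      rw [abs_lt]; constructor <;> linarith [e1.1, e1.2, e2.1, e2.2]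
    obtain ⟨t, ht⟩ := W.cut hu hw hc (near_param (u := u) ha hμabs)
    have hvol : ∀ τ : ℝ, vol (u + τ • a) (c T - c S) (u + μ • a) =
        (μ - τ) * vol u (c T - c S) a := by
      intro τ
      rw [vol_add_1, vol_add_3, vol_add_3, vol_smul_1, vol_smul_3, vol_smul_1, vol_smul_3,
        vol_self_13, vol_self_13, vol_swap_13 u (c T - c S) a]
      ring
    refine ⟨t, ?_, ?_⟩
    · intro x' hx'
      have h := ht _ x' (near_param (u := u) ha h1.1) hx'
      rw [hvol τ₁] at h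
      have hpos : 0 < μ - τ₁ := by rw [hμ]; linarith
      rcases lt_or_gt_of_ne hV with hneg | hpos'
      · have := h.2 (mul_neg_of_pos_of_neg hpos hneg)
        nlinarith
      · have := h.1 (mul_pos hpos hpos')
        have h3 : 0 ≤ A x' - t := by linarith
        positivity
    · intro x' hx'
      have h := ht _ x' (near_param (u := u) ha h2.1) hx'
      rw [hvol τ₂] at h
      have hneg' : μ - τ₂ < 0 := by rw [hμ]; linarith
      rcases lt_or_gt_of_ne hV with hneg | hpos'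
      · have := h.1 (mul_pos_of_neg_of_neg hneg' hneg)
        nlinarith
      · have := h.2 (mul_neg_of_neg_of_pos hneg' hpos')
        nlinarith
  -- choose the two images
  have hch : ∀ τ : ℝ, ∃ p q : E3, τ ∈ J → Rel S (nrm (u + τ • a)) p ∧
      Rel S (nrm (u + τ • a)) q ∧ A p < A q := by
    intro τ
    by_cases h : τ ∈ J
    · obtain ⟨-, p, q, h1, h2, h3⟩ := h
      exact ⟨p, q, fun _ => ⟨h1, h2, h3⟩⟩
    · exact ⟨0, 0, fun h' => absurd h' h⟩
  choose p q hpq using hch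
  have hdisj : J.PairwiseDisjoint (fun τ => Set.Ioo (A (p τ)) (A (q τ))) := by
    have hlt : ∀ τ₁ ∈ J, ∀ τ₂ ∈ J, τ₁ < τ₂ →
        Disjoint (Set.Ioo (A (p τ₁)) (A (q τ₁))) (Set.Ioo (A (p τ₂)) (A (q τ₂))) := by
      intro τ₁ h1 τ₂ h2 hlt
      obtain ⟨t, ht1, ht2⟩ := hsep τ₁ h1 τ₂ h2 hlt
      obtain ⟨hp1, hq1, hl1⟩ := hpq τ₁ h1
      obtain ⟨hp2, hq2, hl2⟩ := hpq τ₂ h2
      rw [Set.disjoint_left]
      rintro s ⟨hs1, hs2⟩ ⟨hs3, hs4⟩
      have a1 := ht1 _ hp1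
      have a2 := ht1 _ hq1
      have a3 := ht2 _ hp2
      have a4 := ht2 _ hq2
      rcases lt_or_gt_of_ne hV with hneg | hpos
      · have b2 : A (q τ₁) - t ≤ 0 := by
          by_contra hcon
          push Not at hcon
          nlinarith
        have b3 : 0 ≤ A (p τ₂) - t := by
          by_contra hcon
          push Not at hcon
          nlinarith
        linarith
      · have b1 : 0 ≤ A (p τ₁) - t := by
          by_contra hcon
          push Not at hcon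
          nlinarith
        have b4 : A (q τ₂) - t ≤ 0 := by
          by_contra hcon
          push Not at hcon
          nlinarith
        linarith
    intro τ₁ h1 τ₂ h2 hne
    rcases lt_or_gt_of_ne hne with h | h
    · exact hlt τ₁ h1 τ₂ h2 h
    · exact (hlt τ₂ h2 τ₁ h1 h).symm
  exact hdisj.countable_of_isOpen (fun τ _ => isOpen_Ioo)
    (fun τ hτ => Set.nonempty_Ioo.2 (hpq τ hτ).2.2)

/-- two unit vectors near `u` lying on two transversal great circles coincide -/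
lemma eq_of_two_axes {u p q w₂ w₃ w₂' w₃' : E3} (hu : ‖u‖ = 1) (hp : ‖p‖ = 1) (hq : ‖q‖ = 1)
    (hpu : ‖p - u‖ ≤ 1 / 1000) (hqu : ‖q - u‖ ≤ 1 / 1000)
    (hw₂ : ‖w₂‖ ≤ 1 / 4) (hw₃ : ‖w₃‖ ≤ 1 / 4) (hV : 3 / 320 ≤ |vol u w₂ w₃|)
    (hw₂' : ‖w₂' - w₂‖ ≤ 4 / 100000) (hw₃' : ‖w₃' - w₃‖ ≤ 4 / 100000)
    (h2 : vol p w₂' q = 0) (h3 : vol p w₃' q = 0) : q = p := by
  have hm : vol p w₂' w₃' ≠ 0 := by
    intro h0
    have h1 := abs_vol_sub_vol_le u w₂ w₃ p w₂' w₃'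
    rw [h0, zero_sub, abs_neg, hp] at h1
    have hw₂n : ‖w₂'‖ ≤ 1 / 4 + 4 / 100000 := by
      have := norm_add_le (w₂' - w₂) w₂
      rw [sub_add_cancel] at this
      linarith
    have e1 : ‖p - u‖ * ‖w₂‖ * ‖w₃‖ ≤ 1 / 1000 * (1 / 4) * (1 / 4) := by gcongr
    have e2 : 1 * ‖w₂' - w₂‖ * ‖w₃‖ ≤ 1 * (4 / 100000) * (1 / 4) := by gcongr
    have e3 : 1 * ‖w₂'‖ * ‖w₃' - w₃‖ ≤ 1 * (1 / 4 + 4 / 100000) * (4 / 100000) := by gcongr
    norm_num at e1 e2 e3
    linarith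
  set n := cr p q with hn
  have hn2 : inner ℝ n w₂' = 0 := by
    have : vol p w₂' q = - inner ℝ n w₂' := by
      rw [vol_swap_23]; rfl
    rw [h2] at this
    linarith
  have hn3 : inner ℝ n w₃' = 0 := by
    have : vol p w₃' q = - inner ℝ n w₃' := by
      rw [vol_swap_23]; rfl
    rw [h3] at this
    linarith
  have h4 : cr n (cr w₂' w₃') = 0 := by
    rw [cr_cr, hn2, hn3]; simp
  have h5 : inner ℝ p n = 0 := by rw [real_inner_comm]; exact inner_cr_left_self p q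
  have h6 : cr p (cr n (cr w₂' w₃')) = (inner ℝ p (cr w₂' w₃')) • n -
      (inner ℝ p n) • cr w₂' w₃' := cr_cr _ _ _
  rw [h4, cr_zero_right, h5, zero_smul, sub_zero] at h6
  have h7 : inner ℝ p (cr w₂' w₃') = vol p w₂' w₃' := by
    rw [vol_eq, inner_eq, cr_0, cr_1, cr_2]; ring
  rw [h7] at h6
  have h8 : n = 0 := (smul_eq_zero.1 h6.symm).resolve_left hm
  rcases eq_or_neg_of_cr_eq_zero hp hq h8 with h | h
  · exact h
  · exfalso
    have : ‖(p - u) + (q - u)‖ ≤ 2 / 1000 := (norm_add_le _ _).trans (by linarith)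
    rw [h] at this
    have e : (p - u) + (-p - u) = - ((2 : ℝ) • u) := by
      rw [two_smul]; abel
    rw [e, norm_neg, norm_smul, hu] at this
    norm_num at this

/-- The main jump argument: with three stars in general position, all images of the spike `u`
at the star `S` have the same azimuth about the first axis. -/
lemma World.axis_eq (W : World Star c c' Rel σ) {S T₁ T₂ T₃ : Star} {u : E3} (hu : ‖u‖ = 1)
    (hw₁ : ‖c T₁ - c S‖ ≤ 1 / 4) (hc₁ : 1 / 8 ≤ ‖cr u (c T₁ - c S)‖)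
    (hw₂ : ‖c T₂ - c S‖ ≤ 1 / 4) (hc₂ : 1 / 8 ≤ ‖cr u (c T₂ - c S)‖)
    (hw₃ : ‖c T₃ - c S‖ ≤ 1 / 4) (hc₃ : 1 / 8 ≤ ‖cr u (c T₃ - c S)‖)
    (hV₂₁ : 3 / 320 ≤ |vol u (c T₂ - c S) (c T₁ - c S)|)
    (hV₃₁ : 3 / 320 ≤ |vol u (c T₃ - c S) (c T₁ - c S)|)
    (hV₂₃ : 3 / 320 ≤ |vol u (c T₂ - c S) (c T₃ - c S)|)
    {p q : E3} (hp : Rel S u p) (hq : Rel S u q) :
    az σ u (c' T₁ - c' S) (cr u (c T₁ - c S)) p ≤ az σ u (c' T₁ - c' S) (cr u (c T₁ - c S)) q := by
  by_contra hcon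
  push Not at hcon
  -- rename so that `a₁ q < a₁ p`
  set w := c T₁ - c S with hw
  set w' := c' T₁ - c' S with hw'
  set k := cr u w with hk
  set A : E3 → ℝ := az σ u w' k with hA
  have hww' : ‖w' - w‖ ≤ 4 / 100000 := W.diff_near S T₁
  have hkn : ‖k‖ ≤ 1 / 4 := by
    have := norm_cr_le u w
    rw [hu, one_mul] at this
    exact this.trans hw₁
  have huT : 0 < vol u w' k := lt_trans (by norm_num) (T_pos hu hw₁ hc₁ hww' (x := u) (by simp))
  have hT : ∀ x x' : E3, ‖x - u‖ ≤ 1 / 1000000 → Rel S (nrm x) x' → 0 < vol x' w' k :=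
    fun x x' hx hrel => lt_trans (by norm_num) (T_pos hu hw₁ hc₁ hww' (W.img_near hu hx hrel))
  have hrelu : ∀ {r : E3}, Rel S u r → Rel S (nrm u) r := fun h => by rwa [nrm_eq_self hu]
  have hT0 : 0 < vol u w k := by
    have : vol u w k = ‖k‖ ^ 2 := by
      unfold vol; rw [real_inner_self_eq_norm_sq]
    rw [this]
    have : 0 < ‖k‖ := lt_of_lt_of_le (by norm_num) hc₁
    positivity
  have hpT : 0 < vol p w' k := hT u p (by simp) (hrelu hp)
  have hqT : 0 < vol q w' k := hT u q (by simp) (hrelu hq)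
  -- neighbours of the arc
  have hvolz : ∀ (τ η : ℝ), vol (u + τ • w + η • k) w (u + (η / 2) • k) =
      - (η / 2) * vol u w k := by
    intro τ η
    rw [vol_add_1, vol_add_1, vol_smul_1, vol_smul_1, vol_self_12, vol_add_3, vol_add_3,
      vol_smul_3, vol_smul_3, vol_self_13, vol_self_13, vol_swap_13 u w k]
    ring
  have hvolu : ∀ η : ℝ, vol u w (u + (η / 2) • k) = (η / 2) * vol u w k := by
    intro η
    rw [vol_add_3, vol_smul_3, vol_self_13, zero_add]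
  have hznear : ∀ η : ℝ, |η| ≤ 1 / 1000000 → ‖u + (η / 2) • k - u‖ ≤ 1 / 1000000 := by
    intro η hη
    rw [add_sub_cancel_left, norm_smul, Real.norm_eq_abs, abs_div, abs_two]
    have : |η| / 2 * ‖k‖ ≤ (1 / 1000000) / 2 * (1 / 4) := by gcongr
    linarith
  have hxnear : ∀ τ η : ℝ, |τ| < 1 / 1000000 → |η| ≤ 1 / 1000000 →
      ‖u + τ • w + η • k - u‖ ≤ 1 / 1000000 := by
    intro τ η hτ hη
    have e : u + τ • w + η • k - u = τ • w + η • k := by abel
    rw [e]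
    refine (norm_add_le _ _).trans ?_
    rw [norm_smul, norm_smul, Real.norm_eq_abs, Real.norm_eq_abs]
    have e1 : |τ| * ‖w‖ ≤ 1 / 1000000 * (1 / 4) := by gcongr
    have e2 : |η| * ‖k‖ ≤ 1 / 1000000 * (1 / 4) := by gcongr
    linarith
  -- images of spikes on the positive side
  have hpos : ∀ τ η : ℝ, |τ| < 1 / 1000000 → 0 < η → η ≤ 1 / 1000000 →
      ∀ x', Rel S (nrm (u + τ • w + η • k)) x' → A x' ≤ A q := by
    intro τ η hτ hη0 hη x' hx'
    have hηa : |η| ≤ 1 / 1000000 := by rwa [abs_of_pos hη0]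
    obtain ⟨t, ht⟩ := W.cut hu hw₁ hc₁ (hznear η hηa)
    have h1 := (ht u q (by simp) (hrelu hq)).1 (by rw [hvolu]; positivity)
    have h2 := (ht _ x' (hxnear τ η hτ hηa) hx').2 (by
      rw [hvolz]
      have : 0 < η / 2 * vol u w k := by positivity
      linarith)
    exact h2.trans h1
  have hneg : ∀ τ η : ℝ, |τ| < 1 / 1000000 → 0 < η → η ≤ 1 / 1000000 →
      ∀ x', Rel S (nrm (u + τ • w + (-η) • k)) x' → A p ≤ A x' := by
    intro τ η hτ hη0 hη x' hx'
    have hηa : |(-η)| ≤ 1 / 1000000 := by rwa [abs_neg, abs_of_pos hη0]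
    obtain ⟨t, ht⟩ := W.cut hu hw₁ hc₁ (hznear (-η) hηa)
    have h1 := (ht u p (by simp) (hrelu hp)).2 (by
      rw [hvolu]
      have : 0 < η / 2 * vol u w k := by positivity
      linarith)
    have h2 := (ht _ x' (hxnear τ (-η) hτ hηa) hx').1 (by
      rw [hvolz]
      have : 0 < η / 2 * vol u w k := by positivity
      linarith)
    exact h1.trans h2
  -- convergence of the neighbours to the arc
  have hconv : ∀ τ : ℝ, |τ| < 1 / 1000000 → ∀ s : ℝ, (s = 1 ∨ s = -1) → ∀ ε > 0,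
      ∃ η, 0 < η ∧ η ≤ 1 / 1000000 ∧
        ‖nrm (u + τ • w + (s * η) • k) - nrm (u + τ • w)‖ < ε := by
    intro τ hτ s hs ε hε
    have hne : u + τ • w ≠ 0 := by
      have := hxnear τ 0 hτ (by simp)
      rw [zero_smul, add_zero] at this
      exact ne_zero_of_near hu (this.trans (by norm_num))
    have hcont : ContinuousAt (fun η : ℝ => nrm (u + τ • w + (s * η) • k)) 0 := by
      unfold nrm
      refine ContinuousAt.fun_smul ?_ (by fun_prop)
      refine ContinuousAt.inv₀ (by fun_prop) ?_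
      simpa using hne
    have h1 := hcont.tendsto
    simp only [mul_zero, zero_smul, add_zero] at h1
    have h2 := (Metric.tendsto_nhds.1 h1 ε hε)
    have h3 : ∀ᶠ η in 𝓝[>] (0 : ℝ), dist (nrm (u + τ • w + (s * η) • k)) (nrm (u + τ • w)) < ε :=
      h2.filter_mono nhdsWithin_le_nhds
    have h4 : ∀ᶠ η in 𝓝[>] (0 : ℝ), η ∈ Set.Ioc (0 : ℝ) (1 / 1000000) :=
      Ioc_mem_nhdsGT (by norm_num)
    obtain ⟨η, h5, h6⟩ := (h3.and h4).exists
    exact ⟨η, h6.1, h6.2, by rwa [dist_eq_norm] at h5⟩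
  -- every point of the arc is a jump for axis 1
  have harc : ∀ τ : ℝ, |τ| < 1 / 1000000 → ∃ p' q', Rel S (nrm (u + τ • w)) p' ∧
      Rel S (nrm (u + τ • w)) q' ∧ A q' ≤ A q ∧ A p ≤ A p' := by
    intro τ hτ
    have hne : u + τ • w ≠ 0 := by
      have := hxnear τ 0 hτ (by simp)
      rw [zero_smul, add_zero] at this
      exact ne_zero_of_near hu (this.trans (by norm_num))
    have hnear0 : ‖u + τ • w - u‖ ≤ 1 / 1000000 := by
      have := hxnear τ 0 hτ (by simp)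
      rwa [zero_smul, add_zero] at this
    -- q'
    obtain ⟨q', hq'1, hq'2⟩ := W.cluster S (nrm (u + τ • w))
      (fun x' => - (σ * vol x' w' q)) (by
        have : (fun x' : E3 => - (σ * vol x' w' q)) = fun x' => - (σ * ((x' 1 * w' 2 - x' 2 * w' 1)
          * q 0 + (x' 2 * w' 0 - x' 0 * w' 2) * q 1 + (x' 0 * w' 1 - x' 1 * w' 0) * q 2)) := by
          funext x'; rw [vol_eq]
        rw [this]; fun_prop) (by
        intro ε hε
        obtain ⟨η, h1, h2, h3⟩ := hconv τ hτ 1 (Or.inl rfl) ε hε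
        rw [one_mul] at h3
        have hηa : |η| ≤ 1 / 1000000 := by rwa [abs_of_pos h1]
        have hne' := ne_zero_of_near hu ((hxnear τ η hτ hηa).trans (by norm_num))
        obtain ⟨x', hx'⟩ := W.full S _ (norm_nrm hne')
        refine ⟨_, x', h3, hx', ?_⟩
        have h4 := hpos τ η hτ h1 h2 x' hx'
        have h5 := (az_ge_iff (σ := σ) huT (hT _ x' (hxnear τ η hτ hηa) hx') hqT).1 h4
        linarith)
    obtain ⟨p', hp'1, hp'2⟩ := W.cluster S (nrm (u + τ • w))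
      (fun x' => (σ * vol x' w' p)) (by
        have : (fun x' : E3 => (σ * vol x' w' p)) = fun x' => (σ * ((x' 1 * w' 2 - x' 2 * w' 1)
          * p 0 + (x' 2 * w' 0 - x' 0 * w' 2) * p 1 + (x' 0 * w' 1 - x' 1 * w' 0) * p 2)) := by
          funext x'; rw [vol_eq]
        rw [this]; fun_prop) (by
        intro ε hε
        obtain ⟨η, h1, h2, h3⟩ := hconv τ hτ (-1) (Or.inr rfl) ε hε
        rw [neg_one_mul] at h3
        have hηa : |(-η)| ≤ 1 / 1000000 := by rwa [abs_neg, abs_of_pos h1]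
        have hne' := ne_zero_of_near hu ((hxnear τ (-η) hτ hηa).trans (by norm_num))
        obtain ⟨x', hx'⟩ := W.full S _ (norm_nrm hne')
        refine ⟨_, x', h3, hx', ?_⟩
        have h4 := hneg τ η hτ h1 h2 x' hx'
        exact (az_le_iff (σ := σ) huT (hT _ x' (hxnear τ (-η) hτ hηa) hx') hpT).1 h4)
    refine ⟨p', q', hp'1, hq'1, ?_, ?_⟩
    · exact (az_ge_iff (σ := σ) huT (hT _ q' hnear0 hq'1) hqT).2 (by linarith)
    · exact (az_le_iff (σ := σ) huT (hT _ p' hnear0 hp'1) hpT).2 hp'2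
  -- the two countable sets
  have hV2 : vol u (c T₂ - c S) w ≠ 0 := by
    intro h; rw [h, abs_zero] at hV₂₁; norm_num at hV₂₁
  have hV3 : vol u (c T₃ - c S) w ≠ 0 := by
    intro h; rw [h, abs_zero] at hV₃₁; norm_num at hV₃₁
  have hJ2 := W.jump_countable hu hw₂ hc₂ hw₁ hV2
  have hJ3 := W.jump_countable hu hw₃ hc₃ hw₁ hV3
  have hsub : Set.Ioo (-(1 / 1000000 : ℝ)) (1 / 1000000) ⊆
      {τ : ℝ | |τ| < 1 / 1000000 ∧ ∃ p q, Rel S (nrm (u + τ • w)) p ∧
        Rel S (nrm (u + τ • w)) q ∧ az σ u (c' T₂ - c' S) (cr u (c T₂ - c S)) p <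
          az σ u (c' T₂ - c' S) (cr u (c T₂ - c S)) q} ∪
      {τ : ℝ | |τ| < 1 / 1000000 ∧ ∃ p q, Rel S (nrm (u + τ • w)) p ∧
        Rel S (nrm (u + τ • w)) q ∧ az σ u (c' T₃ - c' S) (cr u (c T₃ - c S)) p <
          az σ u (c' T₃ - c' S) (cr u (c T₃ - c S)) q} := by
    intro τ hτ
    have hτa : |τ| < 1 / 1000000 := abs_lt.2 ⟨hτ.1, hτ.2⟩
    obtain ⟨p', q', hp', hq', h1, h2⟩ := harc τ hτa
    have hne : p' ≠ q' := by
      rintro rfl
      linarith
    have hnear0 : ‖u + τ • w - u‖ ≤ 1 / 1000000 := by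
      have := hxnear τ 0 hτa (by simp)
      rwa [zero_smul, add_zero] at this
    have hp'n := W.img_near hu hnear0 hp'
    have hq'n := W.img_near hu hnear0 hq'
    have huT2 : 0 < vol u (c' T₂ - c' S) (cr u (c T₂ - c S)) :=
      lt_trans (by norm_num) (T_pos hu hw₂ hc₂ (W.diff_near S T₂) (x := u) (by simp))
    have hpT2 : 0 < vol p' (c' T₂ - c' S) (cr u (c T₂ - c S)) :=
      lt_trans (by norm_num) (T_pos hu hw₂ hc₂ (W.diff_near S T₂) hp'n)
    have hqT2 : 0 < vol q' (c' T₂ - c' S) (cr u (c T₂ - c S)) :=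
      lt_trans (by norm_num) (T_pos hu hw₂ hc₂ (W.diff_near S T₂) hq'n)
    have huT3 : 0 < vol u (c' T₃ - c' S) (cr u (c T₃ - c S)) :=
      lt_trans (by norm_num) (T_pos hu hw₃ hc₃ (W.diff_near S T₃) (x := u) (by simp))
    have hpT3 : 0 < vol p' (c' T₃ - c' S) (cr u (c T₃ - c S)) :=
      lt_trans (by norm_num) (T_pos hu hw₃ hc₃ (W.diff_near S T₃) hp'n)
    have hqT3 : 0 < vol q' (c' T₃ - c' S) (cr u (c T₃ - c S)) :=
      lt_trans (by norm_num) (T_pos hu hw₃ hc₃ (W.diff_near S T₃) hq'n)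
    by_cases h2eq : az σ u (c' T₂ - c' S) (cr u (c T₂ - c S)) p' =
        az σ u (c' T₂ - c' S) (cr u (c T₂ - c S)) q'
    · by_cases h3eq : az σ u (c' T₃ - c' S) (cr u (c T₃ - c S)) p' =
        az σ u (c' T₃ - c' S) (cr u (c T₃ - c S)) q'
      · exfalso
        apply hne
        symm
        exact eq_of_two_axes hu (W.rel_unit' _ _ _ hp') (W.rel_unit' _ _ _ hq') hp'n hq'n hw₂ hw₃
          hV₂₃ (W.diff_near S T₂) (W.diff_near S T₃)
          ((az_eq_iff W.hσ huT2 hpT2 hqT2).1 h2eq) ((az_eq_iff W.hσ huT3 hpT3 hqT3).1 h3eq)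
      · right
        refine ⟨hτa, ?_⟩
        rcases lt_or_gt_of_ne h3eq with h | h
        · exact ⟨p', q', hp', hq', h⟩
        · exact ⟨q', p', hq', hp', h⟩
    · left
      refine ⟨hτa, ?_⟩
      rcases lt_or_gt_of_ne h2eq with h | h
      · exact ⟨p', q', hp', hq', h⟩
      · exact ⟨q', p', hq', hp', h⟩
  have hcount := (hJ2.union hJ3).mono hsub
  have := Cardinal.Real.Ioo_countable_iff.1 hcount
  norm_num at this

end Pool.Agent.LockedTree
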