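import Mathlib

set_option autoImplicit false

/-!
# Vector algebra in Euclidean 3-space: cross product and triple product
-/

namespace Pool.Agent.LockedTree

/-- Euclidean 3-space. -/
abbrev E3 := EuclideanSpace ℝ (Fin 3)

/-- the cross product -/
noncomputable def cr (x y : E3) : E3 :=
  WithLp.toLp 2 ![x 1 * y 2 - x 2 * y 1, x 2 * y 0 - x 0 * y 2, x 0 * y 1 - x 1 * y 0]

/-- the triple product (signed volume) -/
noncomputable def vol (x y z : E3) : ℝ := inner ℝ (cr x y) z

lemma cr_0 (x y : E3) : cr x y 0 = x 1 * y 2 - x 2 * y 1 := rfl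
lemma cr_1 (x y : E3) : cr x y 1 = x 2 * y 0 - x 0 * y 2 := rfl
lemma cr_2 (x y : E3) : cr x y 2 = x 0 * y 1 - x 1 * y 0 := rfl

lemma inner_eq (x y : E3) : inner ℝ x y = x 0 * y 0 + x 1 * y 1 + x 2 * y 2 := by
  simp only [PiLp.inner_apply, Fin.sum_univ_three]
  simp only [RCLike.inner_apply, conj_trivial]
  ring

lemma norm_sq_eq (x : E3) : ‖x‖ ^ 2 = x 0 ^ 2 + x 1 ^ 2 + x 2 ^ 2 := by
  rw [← real_inner_self_eq_norm_sq, inner_eq]; ring

lemma vol_eq (x y z : E3) : vol x y z = (x 1 * y 2 - x 2 * y 1) * z 0 +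
    (x 2 * y 0 - x 0 * y 2) * z 1 + (x 0 * y 1 - x 1 * y 0) * z 2 := by
  unfold vol
  rw [inner_eq, cr_0, cr_1, cr_2]

lemma ext3 {x y : E3} (h0 : x 0 = y 0) (h1 : x 1 = y 1) (h2 : x 2 = y 2) : x = y := by
  ext i
  fin_cases i
  · exact h0
  · exact h1
  · exact h2

/-! ### algebraic identities -/

lemma cr_self (x : E3) : cr x x = 0 := by
  apply ext3 <;> simp [cr_0, cr_1, cr_2] <;> ring

lemma cr_comm (x y : E3) : cr x y = - cr y x := by
  apply ext3 <;> simp [cr_0, cr_1, cr_2] <;> ring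

lemma cr_add_left (x y z : E3) : cr (x + y) z = cr x z + cr y z := by
  apply ext3 <;> simp [cr_0, cr_1, cr_2] <;> ring

lemma cr_add_right (x y z : E3) : cr x (y + z) = cr x y + cr x z := by
  apply ext3 <;> simp [cr_0, cr_1, cr_2] <;> ring

lemma cr_sub_left (x y z : E3) : cr (x - y) z = cr x z - cr y z := by
  apply ext3 <;> simp [cr_0, cr_1, cr_2] <;> ring

lemma cr_sub_right (x y z : E3) : cr x (y - z) = cr x y - cr x z := by
  apply ext3 <;> simp [cr_0, cr_1, cr_2] <;> ring

lemma cr_smul_left (a : ℝ) (x z : E3) : cr (a • x) z = a • cr x z := by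
  apply ext3 <;> simp [cr_0, cr_1, cr_2] <;> ring

lemma cr_smul_right (a : ℝ) (x z : E3) : cr x (a • z) = a • cr x z := by
  apply ext3 <;> simp [cr_0, cr_1, cr_2] <;> ring

lemma cr_neg_left (x z : E3) : cr (-x) z = - cr x z := by
  apply ext3 <;> simp [cr_0, cr_1, cr_2] <;> ring

lemma cr_neg_right (x z : E3) : cr x (-z) = - cr x z := by
  apply ext3 <;> simp [cr_0, cr_1, cr_2] <;> ring

lemma cr_zero_left (z : E3) : cr 0 z = 0 := by
  apply ext3 <;> simp [cr_0, cr_1, cr_2]

lemma cr_zero_right (z : E3) : cr z 0 = 0 := by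
  apply ext3 <;> simp [cr_0, cr_1, cr_2]

/-- triple cross product -/
lemma cr_cr (x y z : E3) : cr x (cr y z) = (inner ℝ x z) • y - (inner ℝ x y) • z := by
  apply ext3 <;> simp [cr_0, cr_1, cr_2, inner_eq] <;> ring

lemma inner_cr_left_self (x y : E3) : inner ℝ (cr x y) x = 0 := by
  rw [inner_eq, cr_0, cr_1, cr_2]; ring

lemma inner_cr_right_self (x y : E3) : inner ℝ (cr x y) y = 0 := by
  rw [inner_eq, cr_0, cr_1, cr_2]; ring

/-- Lagrange identity -/
lemma norm_cr_sq (x y : E3) : ‖cr x y‖ ^ 2 = ‖x‖ ^ 2 * ‖y‖ ^ 2 - (inner ℝ x y) ^ 2 := by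
  rw [norm_sq_eq, norm_sq_eq, norm_sq_eq, inner_eq, cr_0, cr_1, cr_2]; ring

lemma norm_cr_le (x y : E3) : ‖cr x y‖ ≤ ‖x‖ * ‖y‖ := by
  apply le_of_sq_le_sq _ (by positivity)
  rw [norm_cr_sq, mul_pow]
  nlinarith [sq_nonneg (inner ℝ x y)]

lemma abs_vol_le (x y z : E3) : |vol x y z| ≤ ‖x‖ * ‖y‖ * ‖z‖ := by
  unfold vol
  refine (abs_real_inner_le_norm _ _).trans ?_
  exact mul_le_mul_of_nonneg_right (norm_cr_le x y) (norm_nonneg _)

lemma vol_add_1 (x x' y z : E3) : vol (x + x') y z = vol x y z + vol x' y z := by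
  simp only [vol_eq, PiLp.add_apply]; ring
lemma vol_add_2 (x y y' z : E3) : vol x (y + y') z = vol x y z + vol x y' z := by
  simp only [vol_eq, PiLp.add_apply]; ring
lemma vol_add_3 (x y z z' : E3) : vol x y (z + z') = vol x y z + vol x y z' := by
  simp only [vol_eq, PiLp.add_apply]; ring
lemma vol_sub_1 (x x' y z : E3) : vol (x - x') y z = vol x y z - vol x' y z := by
  simp only [vol_eq, PiLp.sub_apply]; ring
lemma vol_sub_2 (x y y' z : E3) : vol x (y - y') z = vol x y z - vol x y' z := by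
  simp only [vol_eq, PiLp.sub_apply]; ring
lemma vol_sub_3 (x y z z' : E3) : vol x y (z - z') = vol x y z - vol x y z' := by
  simp only [vol_eq, PiLp.sub_apply]; ring
lemma vol_smul_1 (a : ℝ) (x y z : E3) : vol (a • x) y z = a * vol x y z := by
  simp only [vol_eq, PiLp.smul_apply, smul_eq_mul]; ring
lemma vol_smul_2 (a : ℝ) (x y z : E3) : vol x (a • y) z = a * vol x y z := by
  simp only [vol_eq, PiLp.smul_apply, smul_eq_mul]; ring
lemma vol_smul_3 (a : ℝ) (x y z : E3) : vol x y (a • z) = a * vol x y z := by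
  simp only [vol_eq, PiLp.smul_apply, smul_eq_mul]; ring
lemma vol_neg_2 (x y z : E3) : vol x (-y) z = - vol x y z := by
  simp only [vol_eq, PiLp.neg_apply]; ring
lemma vol_self_12 (x z : E3) : vol x x z = 0 := by simp only [vol_eq]; ring
lemma vol_self_13 (x z : E3) : vol x z x = 0 := by simp only [vol_eq]; ring
lemma vol_self_23 (x z : E3) : vol x z z = 0 := by simp only [vol_eq]; ring
lemma vol_swap_12 (x y z : E3) : vol y x z = - vol x y z := by simp only [vol_eq]; ring
lemma vol_swap_13 (x y z : E3) : vol z y x = - vol x y z := by simp only [vol_eq]; ring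
lemma vol_swap_23 (x y z : E3) : vol x z y = - vol x y z := by simp only [vol_eq]; ring

/-- perturbation bound for the triple product -/
lemma abs_vol_sub_vol_le (x y z x' y' z' : E3) :
    |vol x' y' z' - vol x y z| ≤ ‖x' - x‖ * ‖y‖ * ‖z‖ + ‖x'‖ * ‖y' - y‖ * ‖z‖ +
      ‖x'‖ * ‖y'‖ * ‖z' - z‖ := by
  have : vol x' y' z' - vol x y z = vol (x' - x) y z + vol x' (y' - y) z + vol x' y' (z' - z) := by
    rw [vol_sub_1, vol_sub_2, vol_sub_3]; ring
  rw [this]
  refine (abs_add_le _ _).trans (add_le_add ((abs_add_le _ _).trans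
    (add_le_add (abs_vol_le _ _ _) (abs_vol_le _ _ _))) (abs_vol_le _ _ _))

/-- Plücker relation with a common middle vector -/
lemma vol_plucker (x w y u k : E3) :
    vol x w y * vol u w k = vol x w u * vol y w k - vol x w k * vol y w u := by
  simp only [vol_eq]; ring

lemma cr_perturb (x y x' y' : E3) :
    ‖cr x' y' - cr x y‖ ≤ ‖x' - x‖ * ‖y‖ + ‖x'‖ * ‖y' - y‖ := by
  have : cr x' y' - cr x y = cr (x' - x) y + cr x' (y' - y) := by
    rw [cr_sub_left, cr_sub_right]; abel
  rw [this]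
  exact (norm_add_le _ _).trans (add_le_add (norm_cr_le _ _) (norm_cr_le _ _))

/-- two parallel unit vectors are equal or opposite -/
lemma eq_or_neg_of_cr_eq_zero {a b : E3} (ha : ‖a‖ = 1) (hb : ‖b‖ = 1) (h : cr a b = 0) :
    b = a ∨ b = -a := by
  have h1 := norm_cr_sq a b
  rw [h, ha, hb, norm_zero] at h1
  have h2 : (inner ℝ a b - 1) * (inner ℝ a b + 1) = 0 := by nlinarith
  rcases mul_eq_zero.1 h2 with h3 | h3
  · left
    have : ‖b - a‖ ^ 2 = 0 := by
      rw [@norm_sub_sq_real, ha, hb, real_inner_comm]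
      linarith
    have h4 : ‖b - a‖ = 0 := by simpa using this
    exact sub_eq_zero.1 (norm_eq_zero.1 h4)
  · right
    have : ‖b + a‖ ^ 2 = 0 := by
      rw [@norm_add_sq_real, ha, hb, real_inner_comm]
      linarith
    have h4 : ‖b + a‖ = 0 := by simpa using this
    exact eq_neg_of_add_eq_zero_left (norm_eq_zero.1 h4)

/-- vectors parallel to the same nonzero vector are parallel -/
lemma cr_eq_zero_trans {a b d : E3} (hd : d ≠ 0) (ha : cr a d = 0) (hb : cr b d = 0) :
    cr a b = 0 := by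
  -- (d·d) (a × b) = ... expand via triple products
  have e1 : (inner ℝ d d) • a = (inner ℝ d a) • d := by
    have := cr_cr d a d
    rw [cr_comm a d] at ha
    have hz : cr a d = 0 := by rw [cr_comm]; simpa using ha
    rw [hz, cr_zero_right] at this
    exact (sub_eq_zero.1 this.symm)
  have hdd : inner ℝ d d ≠ 0 := by
    rw [real_inner_self_eq_norm_sq]
    have : ‖d‖ ≠ 0 := norm_ne_zero_iff.2 hd
    positivity
  have e2 : (inner ℝ d d) • cr a b = 0 := by
    rw [← cr_smul_left, e1, cr_smul_left, cr_comm d b, hb]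
    simp
  exact (smul_eq_zero.1 e2).resolve_left hdd

/-- the transformation behaviour of the triple product under a linear isometry: there is a
nonzero factor -/
lemma vol_map (A : E3 ≃ₗᵢ[ℝ] E3) :
    ∃ σ : ℝ, (σ = 1 ∨ σ = -1) ∧ ∀ x y z, vol (A x) (A y) (A z) = σ * vol x y z := by
  set b : Fin 3 → E3 := fun i => EuclideanSpace.single i 1 with hb
  have hexp : ∀ x : E3, x = x 0 • b 0 + x 1 • b 1 + x 2 • b 2 := by
    intro x
    apply ext3 <;> simp [hb]
  have hA : ∀ x : E3, A x = x 0 • A (b 0) + x 1 • A (b 1) + x 2 • A (b 2) := by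
    intro x
    conv_lhs => rw [hexp x]
    simp only [map_add, map_smul]
  refine ⟨vol (A (b 0)) (A (b 1)) (A (b 2)), ?_, ?_⟩
  · have h00 : inner ℝ (A (b 0)) (A (b 0)) = 1 := by
      rw [A.inner_map_map, inner_eq]; simp [hb]
    have h11 : inner ℝ (A (b 1)) (A (b 1)) = 1 := by
      rw [A.inner_map_map, inner_eq]; simp [hb]
    have h22 : inner ℝ (A (b 2)) (A (b 2)) = 1 := by
      rw [A.inner_map_map, inner_eq]; simp [hb]
    have h01 : inner ℝ (A (b 0)) (A (b 1)) = 0 := by
      rw [A.inner_map_map, inner_eq]; simp [hb]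
    have h02 : inner ℝ (A (b 0)) (A (b 2)) = 0 := by
      rw [A.inner_map_map, inner_eq]; simp [hb]
    have h12 : inner ℝ (A (b 1)) (A (b 2)) = 0 := by
      rw [A.inner_map_map, inner_eq]; simp [hb]
    generalize A (b 0) = p at *
    generalize A (b 1) = q at *
    generalize A (b 2) = r at *
    have hgram : vol p q r ^ 2 = inner ℝ p p * (inner ℝ q q * inner ℝ r r - inner ℝ q r ^ 2) -
        inner ℝ p q * (inner ℝ p q * inner ℝ r r - inner ℝ q r * inner ℝ p r) +
        inner ℝ p r * (inner ℝ p q * inner ℝ q r - inner ℝ q q * inner ℝ p r) := by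
      simp only [vol_eq, inner_eq]; ring
    rw [h00, h11, h22, h01, h02, h12] at hgram
    have : (vol p q r - 1) * (vol p q r + 1) = 0 := by nlinarith
    rcases mul_eq_zero.1 this with h | h
    · left; linarith
    · right; linarith
  · intro x y z
    rw [hA x, hA y, hA z]
    generalize A (b 0) = p
    generalize A (b 1) = q
    generalize A (b 2) = r
    simp only [vol_eq, PiLp.add_apply, PiLp.smul_apply, smul_eq_mul]
    ring

end Pool.Agent.LockedTree
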