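import Pool.Agent.LockedTree.GenPos

set_option autoImplicit false

/-!
# The limit world: stars, their images, and single-valuedness of the image of a spike
-/

namespace Pool.Agent.LockedTree

open Filter Topology

/-- The near-crossing condition for the unit spikes `[x, x+u]` and `[y, y+v]`. -/
def NC (x u y v : E3) : Prop :=
  ∃ ρ ∈ Set.Icc (1 / 8 : ℝ) (7 / 8), ∃ τ ∈ Set.Icc (1 / 8 : ℝ) (7 / 8),
    ‖x + ρ • u - (y + τ • v)‖ < 1 / 100000 ∧ 1 / 10 < ‖cr u v‖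

/-- An abstract version of the limit of nearly congruent dense configurations. -/
structure World (Star : Type) (c c' : Star → E3) (Rel : Star → E3 → E3 → Prop) (σ : ℝ) :
    Prop where
  hσ : σ = 1 ∨ σ = -1
  near : ∀ S, ‖c' S - c S‖ ≤ 2 / 100000
  ball : ∀ S, ‖c S‖ ≤ 3
  rel_unit : ∀ S u u', Rel S u u' → ‖u‖ = 1
  rel_unit' : ∀ S u u', Rel S u u' → ‖u'‖ = 1
  rel_near : ∀ S u u', Rel S u u' → ‖u' - u‖ ≤ 4 / 100000
  closed : ∀ S (u u' : ℕ → E3) (v v' : E3), (∀ n, Rel S (u n) (u' n)) →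
    Tendsto u atTop (𝓝 v) → Tendsto u' atTop (𝓝 v') → Rel S v v'
  full : ∀ S u, ‖u‖ = 1 → ∃ u', Rel S u u'
  sp_pos : ∀ S T u u' v v', Rel S u u' → Rel T v v' → NC (c S) u (c T) v →
    0 < vol u (c T - c S) v → 0 ≤ σ * vol u' (c' T - c' S) v'
  sp_neg : ∀ S T u u' v v', Rel S u u' → Rel T v v' → NC (c S) u (c T) v →
    vol u (c T - c S) v < 0 → σ * vol u' (c' T - c' S) v' ≤ 0
  exist : ∀ x : E3, ‖x‖ ≤ 3 → ∃ S, c S = x
  step : ∀ x e : E3, ‖x‖ ≤ 2 → ‖e‖ = 1 → ∃ S T u', c S = x ∧ c T = x + e ∧ Rel S e u' ∧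
    c' T = c' S + u'

variable {Star : Type} {c c' : Star → E3} {Rel : Star → E3 → E3 → Prop} {σ : ℝ}

lemma World.cluster (W : World Star c c' Rel σ) (S : Star) (u : E3) (F : E3 → ℝ)
    (hF : Continuous F)
    (h : ∀ η > 0, ∃ x x', ‖x - u‖ < η ∧ Rel S x x' ∧ 0 ≤ F x') :
    ∃ u', Rel S u u' ∧ 0 ≤ F u' := by
  have h' : ∀ n : ℕ, ∃ x x', ‖x - u‖ < 1 / ((n : ℝ) + 1) ∧ Rel S x x' ∧ 0 ≤ F x' :=
    fun n => h _ (by positivity)
  choose x x' hx hrel hFx using h'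
  have hx'mem : ∀ n, x' n ∈ Metric.closedBall (0 : E3) 1 := by
    intro n
    rw [mem_closedBall_zero_iff]
    exact (W.rel_unit' _ _ _ (hrel n)).le
  obtain ⟨u', -, φ, hφ, hlim⟩ := (isCompact_closedBall (0 : E3) 1).tendsto_subseq hx'mem
  refine ⟨u', ?_, ?_⟩
  · have hxlim : Tendsto x atTop (𝓝 u) := by
      rw [tendsto_iff_norm_sub_tendsto_zero]
      exact squeeze_zero (fun n => norm_nonneg _) (fun n => (hx n).le)
        tendsto_one_div_add_atTop_nhds_zero_nat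
    exact W.closed S (x ∘ φ) (x' ∘ φ) u u' (fun n => hrel _) (hxlim.comp hφ.tendsto_atTop) hlim
  · exact ge_of_tendsto' ((hF.tendsto u').comp hlim) (fun n => hFx (φ n))

lemma nrm_eq_self {u : E3} (hu : ‖u‖ = 1) : nrm u = u := by
  unfold nrm; rw [hu]; simp

lemma ne_zero_of_near {x u : E3} (hu : ‖u‖ = 1) (h : ‖x - u‖ ≤ 1 / 1000) : x ≠ 0 := by
  rintro rfl
  rw [zero_sub, norm_neg, hu] at h
  norm_num at h

/-- Near-crossing for perturbed spikes aimed at each other. -/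
lemma nc_aux {u w x z s : E3} (hu : ‖u‖ = 1) (hw : ‖w‖ ≤ 1 / 4) (hc : 1 / 8 ≤ ‖cr u w‖)
    (hx : ‖x - u‖ ≤ 1 / 1000000) (hz : ‖z - u‖ ≤ 1 / 1000000) :
    (1 / 2 : ℝ) • z - w ≠ 0 ∧ NC s (nrm x) (s + w) (nrm ((1 / 2 : ℝ) • z - w)) := by
  set y : E3 := (1 / 2 : ℝ) • z - w with hy
  have hhu : ‖(1 / 2 : ℝ) • u‖ = 1 / 2 := by rw [norm_smul, hu]; norm_num
  have hhz : ‖(1 / 2 : ℝ) • (z - u)‖ ≤ 1 / 2000000 := by
    rw [norm_smul]; norm_num; linarith
  have hydec : y = (1 / 2 : ℝ) • u + ((1 / 2 : ℝ) • (z - u) - w) := by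
    rw [hy, smul_sub]; abel
  have hsmall : ‖(1 / 2 : ℝ) • (z - u) - w‖ ≤ 1 / 4 + 1 / 2000000 :=
    (norm_sub_le _ _).trans (by linarith)
  have hylo : 1 / 4 - 1 / 2000000 ≤ ‖y‖ := by
    have h1 := norm_sub_norm_le ((1 / 2 : ℝ) • u) (-((1 / 2 : ℝ) • (z - u) - w))
    rw [sub_neg_eq_add, ← hydec, norm_neg, hhu] at h1
    linarith
  have hyhi : ‖y‖ ≤ 3 / 4 + 1 / 2000000 := by
    have h1 := norm_add_le ((1 / 2 : ℝ) • u) ((1 / 2 : ℝ) • (z - u) - w)
    rw [← hydec, hhu] at h1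
    linarith
  have hy0 : y ≠ 0 := by
    rintro h0
    rw [h0, norm_zero] at hylo
    norm_num at hylo
  have hx0 : x ≠ 0 := ne_zero_of_near hu (hx.trans (by norm_num))
  have hnx : ‖nrm x - u‖ ≤ 2 / 1000000 := (norm_nrm_sub_le hx0 hu).trans (by linarith)
  refine ⟨hy0, 1 / 2, by norm_num, ‖y‖, ⟨by linarith, by linarith⟩, ?_, ?_⟩
  · rw [nrm_smul_norm hy0]
    have : s + (1 / 2 : ℝ) • nrm x - (s + w + y) = (1 / 2 : ℝ) • (nrm x - u) -
        (1 / 2 : ℝ) • (z - u) := by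
      rw [hy, smul_sub, smul_sub]; abel
    rw [this]
    have h1 : ‖(1 / 2 : ℝ) • (nrm x - u)‖ ≤ 1 / 1000000 := by
      rw [norm_smul]; norm_num; linarith
    refine (norm_sub_le _ _).trans_lt ?_
    linarith
  · have h1 : cr (nrm x) y = ‖y‖ • cr (nrm x) (nrm y) := by
      rw [← cr_smul_right, nrm_smul_norm hy0]
    have h2 : cr u ((1 / 2 : ℝ) • u - w) = - cr u w := by
      rw [cr_sub_right, cr_smul_right, cr_self]; simp
    have h3 : ‖cr (nrm x) y - cr u ((1 / 2 : ℝ) • u - w)‖ ≤ 1 / 100000 := by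
      refine (cr_perturb _ _ _ _).trans ?_
      have e1 : y - ((1 / 2 : ℝ) • u - w) = (1 / 2 : ℝ) • (z - u) := by
        rw [hy, smul_sub]; abel
      rw [e1, norm_nrm hx0]
      have e2 : ‖(1 / 2 : ℝ) • u - w‖ ≤ 3 / 4 := (norm_sub_le _ _).trans (by rw [hhu]; linarith)
      have e3 : ‖nrm x - u‖ * ‖(1 / 2 : ℝ) • u - w‖ ≤ 2 / 1000000 * (3 / 4) :=
        mul_le_mul hnx e2 (norm_nonneg _) (by norm_num)
      linarith
    have h4 : 1 / 8 - 1 / 100000 ≤ ‖cr (nrm x) y‖ := by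
      have h5 := norm_sub_norm_le (cr u ((1 / 2 : ℝ) • u - w)) (cr (nrm x) y)
      rw [norm_sub_rev] at h5
      rw [h2, norm_neg] at h5
      rw [h2] at h3
      linarith
    rw [h1, norm_smul, norm_norm] at h4
    by_contra hcon
    push Not at hcon
    have : ‖y‖ * ‖cr (nrm x) (nrm y)‖ ≤ (3 / 4 + 1 / 2000000) * (1 / 10) :=
      mul_le_mul hyhi hcon (norm_nonneg _) (by norm_num)
    linarith

/-- The numerical azimuth function of a direction `x` about the axis `w`, with reference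
direction `u`. -/
noncomputable def az (σ : ℝ) (u w k x : E3) : ℝ := σ * (vol x w u / vol x w k)

lemma az_vol {u w k x y : E3} {σ : ℝ} (hu : 0 < vol u w k) (hx : 0 < vol x w k)
    (hy : 0 < vol y w k) :
    σ * vol x w y = vol x w k * vol y w k / vol u w k * (az σ u w k x - az σ u w k y) := by
  unfold az
  have h := vol_plucker x w y u k
  field_simp
  linear_combination σ * h

lemma az_le_iff {u w k x y : E3} {σ : ℝ} (hu : 0 < vol u w k) (hx : 0 < vol x w k)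
    (hy : 0 < vol y w k) : az σ u w k y ≤ az σ u w k x ↔ 0 ≤ σ * vol x w y := by
  rw [az_vol hu hx hy]
  have hp : 0 < vol x w k * vol y w k / vol u w k := by positivity
  rw [mul_nonneg_iff_of_pos_left hp, sub_nonneg]

lemma az_ge_iff {u w k x y : E3} {σ : ℝ} (hu : 0 < vol u w k) (hx : 0 < vol x w k)
    (hy : 0 < vol y w k) : az σ u w k x ≤ az σ u w k y ↔ σ * vol x w y ≤ 0 := by
  rw [az_vol hu hx hy]
  have hp : 0 < vol x w k * vol y w k / vol u w k := by positivity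
  rw [mul_nonpos_iff]
  constructor
  · intro h
    left
    exact ⟨hp.le, by linarith⟩
  · rintro (h | h)
    · linarith [h.2]
    · linarith [h.1]

lemma az_eq_iff {u w k x y : E3} {σ : ℝ} (hσ : σ = 1 ∨ σ = -1) (hu : 0 < vol u w k)
    (hx : 0 < vol x w k)
    (hy : 0 < vol y w k) : az σ u w k x = az σ u w k y ↔ vol x w y = 0 := by
  constructor
  · intro h
    have h1 := (az_le_iff (σ := σ) hu hx hy).1 h.ge
    have h2 := (az_ge_iff (σ := σ) hu hx hy).1 h.le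
    have h3 : σ * vol x w y = 0 := le_antisymm h2 h1
    rcases hσ with h4 | h4 <;> rw [h4] at h3 <;> linarith
  · intro h
    have h1 := (az_le_iff (σ := σ) hu hx hy).2 (by rw [h]; simp)
    have h2 := (az_ge_iff (σ := σ) hu hx hy).2 (by rw [h]; simp)
    exact le_antisymm h2 h1

/-- positivity of the functional `vol · w' k` near `u`, `k = u × w` -/
lemma T_pos {u w w' x : E3} (hu : ‖u‖ = 1) (hw : ‖w‖ ≤ 1 / 4) (hc : 1 / 8 ≤ ‖cr u w‖)
    (hw' : ‖w' - w‖ ≤ 4 / 100000) (hx : ‖x - u‖ ≤ 1 / 1000) : 1 / 80 < vol x w' (cr u w) := by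
  have hk : ‖cr u w‖ ≤ 1 / 4 := by
    have := norm_cr_le u w
    rw [hu] at this
    linarith
  have h0 : vol u w (cr u w) = ‖cr u w‖ ^ 2 := by
    unfold vol; rw [real_inner_self_eq_norm_sq]
  have h1 : 1 / 64 ≤ vol u w (cr u w) := by
    rw [h0]
    nlinarith [norm_nonneg (cr u w)]
  have h2 := abs_vol_sub_vol_le u w (cr u w) x w' (cr u w)
  have hxn : ‖x‖ ≤ 1 + 1 / 1000 := by
    have := norm_add_le (x - u) u
    rw [sub_add_cancel, hu] at this
    linarith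
  rw [sub_self, norm_zero, mul_zero, add_zero] at h2
  have h3 : ‖x - u‖ * ‖w‖ * ‖cr u w‖ ≤ 1 / 1000 * (1 / 4) * (1 / 4) := by gcongr
  have h4 : ‖x‖ * ‖w' - w‖ * ‖cr u w‖ ≤ (1 + 1 / 1000) * (4 / 100000) * (1 / 4) := by gcongr
  have h5 := (abs_le.1 (h2.trans (add_le_add h3 h4))).1
  norm_num at h5
  linarith

/-- positivity of the functional at the other star's spike -/
lemma T_pos' {u w w' z v' : E3} (hu : ‖u‖ = 1) (hw : ‖w‖ ≤ 1 / 4) (hc : 1 / 8 ≤ ‖cr u w‖)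
    (hw' : ‖w' - w‖ ≤ 4 / 100000) (hz : ‖z - u‖ ≤ 1 / 1000000)
    (hv : ‖v' - nrm ((1 / 2 : ℝ) • z - w)‖ ≤ 4 / 100000) : 0 < vol v' w' (cr u w) := by
  set y : E3 := (1 / 2 : ℝ) • z - w with hy
  have hy0 : y ≠ 0 := (nc_aux (s := 0) hu hw hc (x := u) (by simp) hz).1
  have hk : ‖cr u w‖ ≤ 1 / 4 := by
    have := norm_cr_le u w
    rw [hu] at this
    linarith
  have hw'n : ‖w'‖ ≤ 1 / 4 + 4 / 100000 := by
    have := norm_add_le (w' - w) w
    rw [sub_add_cancel] at this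
    linarith
  have hyhi : ‖y‖ ≤ 3 / 4 + 1 / 2000000 := by
    have hhz : ‖(1 / 2 : ℝ) • z‖ ≤ 1 / 2 + 1 / 2000000 := by
      rw [norm_smul]
      have := norm_add_le (z - u) u
      rw [sub_add_cancel, hu] at this
      norm_num; linarith
    exact (norm_sub_le _ _).trans (by linarith)
  -- vol y w' k
  have h1 : 1 / 80 < vol z w' (cr u w) := T_pos hu hw hc hw' (hz.trans (by norm_num))
  have h2 : |vol w w' (cr u w)| ≤ 1 / 4 * (4 / 100000) * (1 / 4) := by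
    have h3 := abs_vol_sub_vol_le w w (cr u w) w w' (cr u w)
    rw [sub_self, norm_zero, sub_self, norm_zero, vol_self_12] at h3
    simp only [zero_mul, mul_zero, zero_add, add_zero, sub_zero] at h3
    refine h3.trans ?_
    gcongr
  have h3 : 1 / 200 < vol y w' (cr u w) := by
    rw [hy, vol_sub_1, vol_smul_1]
    have := (abs_le.1 h2).2
    norm_num at this ⊢
    linarith
  have h4 : vol y w' (cr u w) = ‖y‖ * vol (nrm y) w' (cr u w) := by
    rw [← vol_smul_1, nrm_smul_norm hy0]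
  have hyp : 0 < ‖y‖ := norm_pos_iff.2 hy0
  have h5 : 1 / 200 < vol (nrm y) w' (cr u w) := by
    by_contra hcon
    push Not at hcon
    have : ‖y‖ * vol (nrm y) w' (cr u w) ≤ ‖y‖ * (1 / 200) :=
      mul_le_mul_of_nonneg_left hcon hyp.le
    nlinarith
  have h6 := abs_vol_sub_vol_le (nrm y) w' (cr u w) v' w' (cr u w)
  rw [sub_self, norm_zero, sub_self, norm_zero] at h6
  simp only [zero_mul, mul_zero, add_zero] at h6
  have h7 : ‖v' - nrm y‖ * ‖w'‖ * ‖cr u w‖ ≤ 4 / 100000 * (1 / 4 + 4 / 100000) * (1 / 4) := by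
    gcongr
  have h8 := (abs_le.1 (h6.trans h7)).1
  norm_num at h8
  linarith

end Pool.Agent.LockedTree
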